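import Mathlib

/-!
# PD_3-groups with symmetries: the definitions used in the statement

`FRes G`: finite resolutions of the trivial module `ℤ` by finitely generated projective
`ℤ[G]`-modules. `IsPD3 G`: Poincaré duality groups of dimension 3. `fixSub V`: the subgroup of the
elements fixed by `V`. `K2`: the field `𝔽₂(s)`, `spow n`: its element `s ^ n`.
`HasH1 phi`: `H^1(L; 𝔽₂(s)) ≠ 0`.
-/

namespace Pool.Agent.helper81.PD.Ans

/-- a finite resolution `0 → P n → ... → P 1 → P 0 → ℤ → 0` of the trivial module `ℤ` by finitely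
generated projective `ℤ[G]`-modules; `eps` is the augmentation `P 0 → ℤ` -/
structure FRes (G : Type) [Group G] where
  P : ℕ → Type
  [acg : ∀ i, AddCommGroup (P i)]
  [mod : ∀ i, Module (MonoidAlgebra ℤ G) (P i)]
  fin : ∀ i, Module.Finite (MonoidAlgebra ℤ G) (P i)
  proj : ∀ i, Module.Projective (MonoidAlgebra ℤ G) (P i)
  bdd : ∃ n, ∀ i, n ≤ i → Subsingleton (P i)
  d : ∀ i, P (i + 1) →ₗ[MonoidAlgebra ℤ G] P i
  eps : P 0 →+ ℤ
  eps_smul : ∀ (g : G) (x : P 0), eps (MonoidAlgebra.of ℤ G g • x) = eps x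
  eps_surj : Function.Surjective eps
  exact_zero : ∀ x : P 0, eps x = 0 ↔ ∃ y, d 0 y = x
  exact_succ : ∀ (i : ℕ) (x : P (i + 1)), d i x = 0 ↔ ∃ y, d (i + 1) y = x

attribute [instance] FRes.acg FRes.mod

variable {G : Type} [Group G]

/-- the cochains `Hom_{ℤ[G]}(P i, ℤ[G])` -/
abbrev Cochain (R : FRes G) (i : ℕ) : Type := R.P i →ₗ[MonoidAlgebra ℤ G] MonoidAlgebra ℤ G

/-- the cochain `f` is a cocycle: `f ∘ d = 0` -/
def IsCocycle (R : FRes G) (i : ℕ) (f : Cochain R i) : Prop := ∀ y, f (R.d i y) = 0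

/-- the cochain `f` is a coboundary: `f = g ∘ d` for some `g` -/
def IsCobdry (R : FRes G) (i : ℕ) (f : Cochain R (i + 1)) : Prop :=
  ∃ g : Cochain R i, ∀ y, f y = g (R.d i y)

/-- `H^i(G; ℤ[G]) = 0` for `i ≠ 3`, and `H^3(G; ℤ[G]) ≅ ℤ` as abelian group: some additive map `e`
from the 3-cocycles onto `ℤ` vanishes exactly on the coboundaries -/
def Dual3 (R : FRes G) : Prop :=
  (∀ f : Cochain R 0, IsCocycle R 0 f → f = 0) ∧
  (∀ i, i + 1 ≠ 3 → ∀ f : Cochain R (i + 1), IsCocycle R (i + 1) f → IsCobdry R i f) ∧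
  ∃ e : Cochain R 3 → ℤ,
    (∀ f g, IsCocycle R 3 f → IsCocycle R 3 g → e (f + g) = e f + e g) ∧
    (∀ n, ∃ f, IsCocycle R 3 f ∧ e f = n) ∧
    ∀ f, IsCocycle R 3 f → (e f = 0 ↔ IsCobdry R 2 f)

/-- Poincaré duality groups of dimension 3: groups of type `FP` over `ℤ` with
`H^i(G; ℤ[G]) = 0` for `i ≠ 3` and `H^3(G; ℤ[G]) ≅ ℤ` as abelian group -/
def IsPD3 (G : Type) [Group G] : Prop := ∃ R : FRes G, Dual3 R

/-- the subgroup of the elements of `N` fixed by `V` -/
def fixSub {F N : Type} [Group F] [Group N] [MulDistribMulAction F N] (V : Subgroup F) :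
    Subgroup N where
  carrier := {x | ∀ v ∈ V, v • x = x}
  mul_mem' := by
    intro x y hx hy v hv
    rw [smul_mul', hx v hv, hy v hv]
  one_mem' := fun v _ => smul_one v
  inv_mem' := by
    intro x hx v hv
    rw [smul_inv', hx v hv]

/-- the field `𝔽₂(s)`, the field of fractions of `𝔽₂[s, s⁻¹]` -/
abbrev K2 : Type := FractionRing (LaurentPolynomial (ZMod 2))

/-- the element `s ^ n` of `𝔽₂(s)` -/
noncomputable def spow (n : ℤ) : K2 :=
  algebraMap (LaurentPolynomial (ZMod 2)) K2 (LaurentPolynomial.T n)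

/-- `H^1(L; 𝔽₂(s)) ≠ 0`, where `g` acts on `𝔽₂(s)` as the multiplication by `s ^ phi g`: some
derivation `L → 𝔽₂(s)` is not principal -/
def HasH1 {L : Type} [Group L] (phi : L →* Multiplicative ℤ) : Prop :=
  ∃ D : L → K2, (∀ g h, D (g * h) = D g + spow (phi g).toAdd * D h) ∧
    ¬ ∃ v : K2, ∀ g, D g = (spow (phi g).toAdd - 1) * v

end Pool.Agent.helper81.PD.Ans
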