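import Pool.Agent.helper81.PD.Defs3

/-! # PDS-Betti: the first Betti number -/

namespace Pool.Agent.helper81.PD

variable {N : Type} [Group N]

theorem Betti_dg_mul (phi : N →* Multiplicative ℤ) (g h : N) :
    dg phi (g * h) = dg phi g + dg phi h := by
  simp [dg]

theorem Betti_dg_one (phi : N →* Multiplicative ℤ) : dg phi (1 : N) = 0 := by
  simp [dg]

theorem Betti_dg_inv (phi : N →* Multiplicative ℤ) (g : N) : dg phi g⁻¹ = - dg phi g := by
  simp [dg]

theorem Betti_dg_pow (phi : N →* Multiplicative ℤ) (g : N) (k : ℕ) :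
    dg phi (g ^ k) = k * dg phi g := by
  simp [dg]

theorem Betti_shift_apply {m : ℕ} (c : ZMod m) (f : ZMod m →₀ ZMod 2) (i : ZMod m) :
    f.mapDomain (fun l : ZMod m => l + c) i = f (i - c) := by
  have h := Finsupp.mapDomain_apply (f := fun l : ZMod m => l + c)
    (fun x y hxy => by simpa using hxy) f (i - c)
  simpa using h

theorem Betti_fold_sh (m : ℕ) (n : ℤ) (b : ℤ →₀ ZMod 2) (i : ZMod m) :
    fold m (sh n b) i = fold m b (i - (n : ZMod m)) := by
  have h : fold m (sh n b) = (fold m b).mapDomain (fun l : ZMod m => l + (n : ZMod m)) := by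
    unfold fold sh
    rw [← Finsupp.mapDomain_comp, ← Finsupp.mapDomain_comp]
    congr 1
    funext l
    simp
  rw [h, Betti_shift_apply]

theorem Betti_fold_add (m : ℕ) (a b : ℤ →₀ ZMod 2) (i : ZMod m) :
    fold m (a + b) i = fold m a i + fold m b i := by
  unfold fold
  rw [Finsupp.mapDomain_add]
  rfl

theorem Betti_fold_zero (m : ℕ) (i : ZMod m) : fold m 0 i = 0 := by
  unfold fold
  rw [Finsupp.mapDomain_zero]
  rfl

section

variable {phi : N →* Multiplicative ℤ} {a : N → ℤ →₀ ZMod 2} (ha : LDer phi a) (m : ℕ)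
include ha

theorem Betti_fa_mul (g h : N) (i : ZMod m) :
    fold m (a (g * h)) i = fold m (a g) i + fold m (a h) (i - (dg phi g : ZMod m)) := by
  rw [ha g h, Betti_fold_add, Betti_fold_sh]

theorem Betti_fa_one (i : ZMod m) : fold m (a 1) i = 0 := by
  have h := Betti_fa_mul ha m 1 1 i
  rw [Betti_dg_one, mul_one] at h
  simpa using h

theorem Betti_fa_inv (g : N) (i : ZMod m) :
    fold m (a g⁻¹) i + fold m (a g) (i + (dg phi g : ZMod m)) = 0 := by
  have h := Betti_fa_mul ha m g⁻¹ g i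
  rw [Betti_dg_inv, inv_mul_cancel, Betti_fa_one ha] at h
  rw [h]
  simp

/-- the subgroup -/
def Betti_H (i0 : ZMod m) : Subgroup N where
  carrier := {g | (dg phi g : ZMod m) = 0 ∧ fold m (a g) i0 = 0}
  one_mem' := ⟨by rw [Betti_dg_one]; simp, Betti_fa_one ha m i0⟩
  mul_mem' := by
    rintro g h ⟨hg1, hg2⟩ ⟨hh1, hh2⟩
    refine ⟨?_, ?_⟩
    · rw [Betti_dg_mul]
      push_cast
      rw [hg1, hh1, add_zero]
    · rw [Betti_fa_mul ha, hg1, sub_zero, hg2, hh2, add_zero]
  inv_mem' := by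
    rintro g ⟨hg1, hg2⟩
    refine ⟨?_, ?_⟩
    · rw [Betti_dg_inv]
      push_cast
      rw [hg1, neg_zero]
    · have h := Betti_fa_inv ha m g i0
      rw [hg1, add_zero, hg2, add_zero] at h
      exact h

theorem Betti_mem_H (i0 : ZMod m) (g : N) : g ∈ Betti_H ha m i0 ↔
    (dg phi g : ZMod m) = 0 ∧ fold m (a g) i0 = 0 := Iff.rfl

theorem Betti_finiteIndex (hm : 0 < m) (i0 : ZMod m) : (Betti_H ha m i0).FiniteIndex := by
  have : NeZero m := ⟨hm.ne'⟩
  let Φ : N → ZMod m × ZMod 2 := fun g =>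
    ((dg phi g : ZMod m), fold m (a g) (i0 + (dg phi g : ZMod m)))
  have key : ∀ g g' : N, Φ g = Φ g' → g⁻¹ * g' ∈ Betti_H ha m i0 := by
    intro g g' h
    have h1 : (dg phi g : ZMod m) = (dg phi g' : ZMod m) := congrArg Prod.fst h
    have h2 : fold m (a g) (i0 + (dg phi g : ZMod m)) =
      fold m (a g') (i0 + (dg phi g' : ZMod m)) := congrArg Prod.snd h
    rw [Betti_mem_H]
    refine ⟨?_, ?_⟩
    · rw [Betti_dg_mul, Betti_dg_inv]
      push_cast
      rw [h1, neg_add_cancel]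
    · rw [Betti_fa_mul ha, Betti_dg_inv]
      have h3 := Betti_fa_inv ha m g i0
      rw [h2, ← h1] at h3
      push_cast
      rw [sub_neg_eq_add]
      exact h3
  have : Finite (N ⧸ Betti_H ha m i0) := by
    refine Finite.of_injective (fun q : N ⧸ Betti_H ha m i0 => Φ q.out) ?_
    intro q q' hq
    have h := key _ _ hq
    rw [← QuotientGroup.eq] at h
    simpa using h
  exact Subgroup.finiteIndex_of_finite_quotient

variable {D : N → ZMod m → ℤ} (hD : Flux phi a m D)
include hD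

omit ha in
theorem Betti_D_mul (g h : N) (i : ZMod m) (hg : fold m (a g) i = 0) :
    D (g * h) i = D g i + D h (i - (dg phi g : ZMod m)) := by
  rw [hD g h i, hg]
  simp [sgn]

theorem Betti_D_one (i : ZMod m) : D 1 i = 0 := by
  have h := Betti_D_mul m hD 1 1 i (Betti_fa_one ha m i)
  rw [Betti_dg_one, mul_one] at h
  simpa using h

theorem Betti_fa_pow (t : N) (hat : a t = 0) (k : ℕ) (i : ZMod m) :
    fold m (a (t ^ k)) i = 0 := by
  have _ := hD
  induction k generalizing i with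
  | zero => rw [pow_zero]; exact Betti_fa_one ha m i
  | succ k ih =>
    rw [pow_succ, Betti_fa_mul ha, ih, hat, Betti_fold_zero, add_zero]

theorem Betti_D_pow (t : N) (ht : dg phi t = 1) (hat : a t = 0) (s0 : ZMod m)
    (hDt : D t = Pi.single s0 1) (k : ℕ) (i : ZMod m) :
    D (t ^ k) i = ∑ j ∈ Finset.range k, (Pi.single s0 (1 : ℤ) : ZMod m → ℤ) (i - (j : ZMod m)) := by
  induction k with
  | zero => rw [pow_zero]; simpa using Betti_D_one ha m hD i
  | succ k ih =>
    rw [pow_succ, Betti_D_mul m hD _ _ _ (Betti_fa_pow ha m hD t hat k i), ih,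
      Finset.sum_range_succ, Betti_dg_pow, ht, hDt]
    simp

theorem Betti_D_pow_m (hm : 0 < m) (t : N) (ht : dg phi t = 1) (hat : a t = 0) (s0 : ZMod m)
    (hDt : D t = Pi.single s0 1) (i : ZMod m) : D (t ^ m) i = 1 := by
  have : NeZero m := ⟨hm.ne'⟩
  rw [Betti_D_pow ha m hD t ht hat s0 hDt]
  rw [Finset.sum_eq_single_of_mem (i - s0).val (by simpa using ZMod.val_lt (i - s0))]
  · simp
  · intro j hj hne
    rw [Pi.single_apply, if_neg]
    intro h
    apply hne
    have h1 : (j : ZMod m) = i - s0 := by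
      rw [← h]; ring
    rw [← h1, ZMod.val_natCast, Nat.mod_eq_of_lt (Finset.mem_range.1 hj)]

end

theorem concl_of_flux (phi : N →* Multiplicative ℤ) (t : N) (ht : dg phi t = 1)
    (a : N → ℤ →₀ ZMod 2) (ha : LDer phi a) (hat : a t = 0) (g0 : N) (hg0 : dg phi g0 = 0)
    (m : ℕ) (hm : 0 < m) (i0 : ZMod m) (hi0 : fold m (a g0) i0 ≠ 0) (s0 : ZMod m)
    (D : N → ZMod m → ℤ) (hD : Flux phi a m D) (hDt : D t = Pi.single s0 1) : Concl N := by
  have hmem1 : t ^ m ∈ Betti_H ha m i0 := by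
    rw [Betti_mem_H]
    refine ⟨?_, Betti_fa_pow ha m hD t hat m i0⟩
    rw [Betti_dg_pow, ht]
    simp
  have e1 : fold m (a (g0 * (t ^ m * g0⁻¹))) i0 = 0 := by
    rw [Betti_fa_mul ha, Betti_fa_mul ha, Betti_fa_pow ha m hD t hat, Betti_dg_pow, ht, hg0]
    have h := Betti_fa_mul ha m g0 g0⁻¹ i0
    rw [mul_inv_cancel, Betti_fa_one ha, hg0, Int.cast_zero, sub_zero] at h
    simp only [Int.cast_zero, sub_zero, zero_add, mul_one, Int.cast_natCast,
      CharP.cast_eq_zero]
    exact h.symm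
  have hmem2 : g0 * (t ^ m * g0⁻¹) ∈ Betti_H ha m i0 := by
    rw [Betti_mem_H]
    refine ⟨?_, e1⟩
    rw [Betti_dg_mul, Betti_dg_mul, Betti_dg_inv, Betti_dg_pow, ht, hg0]
    simp
  have hD1 : D (t ^ m) i0 = 1 := Betti_D_pow_m ha m hD hm t ht hat s0 hDt i0
  have hsgn : sgn (fold m (a g0) i0) = -1 := by
    unfold sgn
    rw [if_neg hi0]
  have hDg : D g0⁻¹ i0 = D g0 i0 := by
    have h := hD g0 g0⁻¹ i0
    rw [mul_inv_cancel, Betti_D_one ha m hD, hsgn, hg0] at h
    simp only [Int.cast_zero, sub_zero] at h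
    linarith
  have hD2 : D (g0 * (t ^ m * g0⁻¹)) i0 = -1 := by
    rw [hD g0 (t ^ m * g0⁻¹) i0, hsgn, hg0]
    simp only [Int.cast_zero, sub_zero]
    rw [Betti_D_mul m hD _ _ _ (Betti_fa_pow ha m hD t hat m i0), hD1, Betti_dg_pow, ht]
    simp only [mul_one, Int.cast_natCast, CharP.cast_eq_zero, sub_zero]
    rw [hDg]
    ring
  -- the two homomorphisms
  let f1 : Betti_H ha m i0 →* Multiplicative ℤ := phi.comp (Betti_H ha m i0).subtype
  let f2 : Betti_H ha m i0 →* Multiplicative ℤ :=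
    { toFun := fun h => Multiplicative.ofAdd (D h.1 i0)
      map_one' := by
        show Multiplicative.ofAdd (D 1 i0) = 1
        rw [Betti_D_one ha m hD]
        rfl
      map_mul' := by
        rintro ⟨g, hg⟩ ⟨h, hh⟩
        rw [Betti_mem_H] at hg
        show Multiplicative.ofAdd (D (g * h) i0) =
          Multiplicative.ofAdd (D g i0) * Multiplicative.ofAdd (D h i0)
        rw [Betti_D_mul m hD _ _ _ hg.2, hg.1, sub_zero]
        rfl }
  let F1 : Additive (Abelianization (Betti_H ha m i0)) →+ ℤ :=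
    MonoidHom.toAdditive (Abelianization.lift f1)
  let F2 : Additive (Abelianization (Betti_H ha m i0)) →+ ℤ :=
    MonoidHom.toAdditive (Abelianization.lift f2)
  refine ⟨Betti_H ha m i0, Betti_finiteIndex ha m hm i0, ?_⟩
  let x1 : Additive (Abelianization (Betti_H ha m i0)) :=
    Additive.ofMul (Abelianization.of ⟨t ^ m, hmem1⟩)
  let x2 : Additive (Abelianization (Betti_H ha m i0)) :=
    Additive.ofMul (Abelianization.of ⟨g0 * (t ^ m * g0⁻¹), hmem2⟩)
  have a11 : F1 x1 = m := by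
    show dg phi (t ^ m) = m
    rw [Betti_dg_pow, ht, mul_one]
  have a12 : F1 x2 = m := by
    show dg phi (g0 * (t ^ m * g0⁻¹)) = m
    rw [Betti_dg_mul, Betti_dg_mul, Betti_dg_inv, Betti_dg_pow, ht, hg0]
    simp
  have a21 : F2 x1 = 1 := hD1
  have a22 : F2 x2 = -1 := hD2
  have hli : LinearIndependent ℤ ![x1, x2] := by
    rw [LinearIndependent.pair_iff]
    intro c1 c2 h
    have h1 := congrArg F1 h
    have h2 := congrArg F2 h
    rw [map_add, map_zsmul, map_zsmul, a11, a12, map_zero] at h1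
    rw [map_add, map_zsmul, map_zsmul, a21, a22, map_zero] at h2
    simp only [smul_eq_mul] at h1 h2
    have hm' : (m : ℤ) ≠ 0 := by exact_mod_cast hm.ne'
    have h3 : c1 + c2 = 0 := by
      have h4 : (c1 + c2) * (m : ℤ) = 0 := by linarith
      exact (mul_eq_zero.1 h4).resolve_right hm'
    constructor <;> linarith
  have h := hli.cardinal_le_rank
  simpa using h

end Pool.Agent.helper81.PD
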