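import Mathlib

/-! # PDS-Contr: contraction of an exact complex of vector spaces -/

namespace Pool.Agent.helper81.PD

theorem exists_contr {V : Type} [AddCommGroup V] [Module (ZMod 2) V] (del : V →ₗ[ZMod 2] V)
    (eps : V →ₗ[ZMod 2] ZMod 2) (pt : V) (h1 : ∀ x, del (del x) = 0)
    (h2 : ∀ x, eps (del x) = 0) (h3 : eps pt = 1) (h4 : del pt = 0)
    (h5 : ∀ x, del x = 0 → eps x = 0 → ∃ y, del y = x) :
    ∃ s : V →ₗ[ZMod 2] V, ∀ x, del (s x) + s (del x) = x + eps x • pt := by
  have hch : ∀ v : V, v + v = 0 := fun v => by
    have h : (2 : ZMod 2) • v = 0 := by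
      have : (2 : ZMod 2) = 0 := rfl
      rw [this, zero_smul]
    rwa [two_smul] at h
  -- a section of `del` on its range
  obtain ⟨r0, hr0⟩ := LinearMap.exists_rightInverse_of_surjective del.rangeRestrict
    del.range_rangeRestrict
  have hr0' : ∀ b : LinearMap.range del, del (r0 b) = b := fun b => by
    have := LinearMap.congr_fun hr0 b
    exact congrArg Subtype.val this
  -- corrected to have `eps = 0`
  let r : LinearMap.range del →ₗ[ZMod 2] V := r0 + (eps.comp r0).smulRight pt
  have hr : ∀ b : LinearMap.range del, del (r b) = b := fun b => by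
    simp only [r, LinearMap.add_apply, LinearMap.smulRight_apply, LinearMap.comp_apply, map_add,
      map_smul, h4, smul_zero, add_zero, hr0']
  have her : ∀ b : LinearMap.range del, eps (r b) = 0 := fun b => by
    simp only [r, LinearMap.add_apply, LinearMap.smulRight_apply, LinearMap.comp_apply, map_add,
      map_smul, h3, smul_eq_mul, mul_one]
    exact CharTwo.add_self_eq_zero _
  -- the projection onto the range killing `pt`
  obtain ⟨p0, hp0⟩ := (LinearMap.range del).subtype.exists_leftInverse_of_injective
    (LinearMap.range del).ker_subtype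
  have hp0' : ∀ b : LinearMap.range del, p0 b = b := fun b => LinearMap.congr_fun hp0 b
  let p : V →ₗ[ZMod 2] LinearMap.range del := p0 + eps.smulRight (p0 pt)
  have hp : ∀ b : LinearMap.range del, p b = b := fun b => by
    obtain ⟨y, hy⟩ := b.2
    have : eps (b : V) = 0 := by rw [← hy, h2]
    simp only [p, LinearMap.add_apply, LinearMap.smulRight_apply, this, zero_smul, add_zero, hp0']
  have hppt : p pt = 0 := by
    simp only [p, LinearMap.add_apply, LinearMap.smulRight_apply, h3, one_smul]
    apply Subtype.ext
    exact hch _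
  have hpz : ∀ z, del z = 0 → (p z : V) = z + eps z • pt := fun z hz => by
    obtain ⟨y, hy⟩ := h5 (z + eps z • pt) (by rw [map_add, map_smul, h4, hz]; simp)
      (by
        rw [map_add, map_smul, h3, smul_eq_mul, mul_one]
        exact CharTwo.add_self_eq_zero _)
    have e1 : p (z + eps z • pt) = p z := by
      rw [map_add, map_smul, hppt, smul_zero, add_zero]
    have e2 := hp ⟨z + eps z • pt, y, hy⟩
    rw [← e1]
    exact congrArg Subtype.val e2
  let d' : V →ₗ[ZMod 2] LinearMap.range del := del.rangeRestrict
  have hd' : ∀ v, (d' v : V) = del v := fun v => rfl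
  refine ⟨r.comp (p.comp (LinearMap.id + r.comp d')), fun v => ?_⟩
  have hz : del (v + r (d' v)) = 0 := by
    rw [map_add, hr, hd']
    exact hch _
  have hz2 : del (del v + r (d' (del v))) = 0 := by
    rw [map_add, h1, hr, hd', h1, add_zero]
  have e1 : d' (del v) = 0 := Subtype.ext (by rw [hd', h1]; rfl)
  have e2 : p (del v) = d' v := hp (d' v)
  simp only [LinearMap.comp_apply, LinearMap.add_apply, LinearMap.id_apply]
  rw [hr, hpz _ hz, e1, map_zero, add_zero, e2, map_add, her, add_zero]
  have := hch (r (d' v))
  calc v + r (d' v) + eps v • pt + r (d' v) = v + eps v • pt + (r (d' v) + r (d' v)) := by abel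
    _ = v + eps v • pt := by rw [this, add_zero]

end Pool.Agent.helper81.PD
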