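import Mathlib

/-!
# Project PDS (MP_64196d_al): the abstract setting

Everything is linear algebra over the field with two elements. `Cx P` is a bounded complex `P` of
`ZMod 2`-vector spaces, written without indices: `del` is the boundary, `pi q` is the projection to
the part of degree `q`, `eps` the augmentation, `pt` a point, and `s` a contraction.
`Act C rho`: the group `G` acts on everything, and `P` is an equivariant direct summand of the
permutation module of a free `G`-set. `Ex C rho chi`: the complex of `chi`-equivariant functionals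
with values in the field `K` is exact.
-/

namespace Pool.Agent.helper81.PD

/-- a bounded complex of vector spaces over `ZMod 2` with a contraction -/
structure Cx (P : Type) [AddCommGroup P] [Module (ZMod 2) P] where
  del : P →ₗ[ZMod 2] P
  eps : P →ₗ[ZMod 2] ZMod 2
  s : P →ₗ[ZMod 2] P
  pt : P
  n : ℕ
  pi : ℕ → P →ₗ[ZMod 2] P
  del_del : ∀ x, del (del x) = 0
  eps_del : ∀ x, eps (del x) = 0
  eps_pt : eps pt = 1
  del_pt : del pt = 0
  contr : ∀ x, del (s x) + s (del x) = x + eps x • pt
  pi_sum : ∀ x, ∑ q ∈ Finset.range n, pi q x = x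
  pi_big : ∀ q, n ≤ q → ∀ x, pi q x = 0
  pi_pi : ∀ q r x, pi q (pi r x) = if q = r then pi r x else 0
  del_pi_succ : ∀ q x, del (pi (q + 1) x) = pi q (del x)
  del_pi_zero : ∀ x, del (pi 0 x) = 0
  eps_pi : ∀ q x, eps (pi q x) = if q = 0 then eps x else 0

variable {G : Type} [Group G] {P : Type} [AddCommGroup P] [Module (ZMod 2) P]

/-- `P` is an equivariant direct summand of the permutation module of a free `G`-set `T` -/
def PL (rho : G →* Module.End (ZMod 2) P) : Prop :=
  ∃ (T : Type) (_ : MulAction G T), (∀ (g : G) (t : T), g • t = t → g = 1) ∧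
    ∃ (i : P →ₗ[ZMod 2] (T →₀ ZMod 2)) (r : (T →₀ ZMod 2) →ₗ[ZMod 2] P),
      (∀ g x, i (rho g x) = Finsupp.mapDomain (fun t => g • t) (i x)) ∧
      (∀ g y, r (Finsupp.mapDomain (fun t => g • t) y) = rho g (r y)) ∧
      ∀ x, r (i x) = x

/-- the group `G` acts on the complex -/
structure Act (C : Cx P) (rho : G →* Module.End (ZMod 2) P) : Prop where
  del : ∀ g x, C.del (rho g x) = rho g (C.del x)
  eps : ∀ g x, C.eps (rho g x) = C.eps x
  pi : ∀ q g x, C.pi q (rho g x) = rho g (C.pi q x)
  pl : PL rho

variable {K : Type} [Field K] [Algebra (ZMod 2) K]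

/-- equivariant functionals -/
def Eqf (rho : G →* Module.End (ZMod 2) P) (chi : G →* Kˣ) (c : P →ₗ[ZMod 2] K) : Prop :=
  ∀ g x, c (rho g x) = (chi g : K) * c x

/-- the complex of equivariant functionals is exact -/
def Ex (C : Cx P) (rho : G →* Module.End (ZMod 2) P) (chi : G →* Kˣ) : Prop :=
  ∀ c : P →ₗ[ZMod 2] K, Eqf rho chi c → (∀ x, c (C.del x) = 0) →
    ∃ b : P →ₗ[ZMod 2] K, Eqf rho chi b ∧ ∀ x, c x = b (C.del x)

/-- bilinear forms -/
abbrev Bil (P K : Type) [AddCommGroup P] [Module (ZMod 2) P] [Field K] [Algebra (ZMod 2) K] :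
    Type :=
  P →ₗ[ZMod 2] P →ₗ[ZMod 2] K

/-- trilinear forms -/
abbrev F3 (P K : Type) [AddCommGroup P] [Module (ZMod 2) P] [Field K] [Algebra (ZMod 2) K] : Type :=
  P →ₗ[ZMod 2] P →ₗ[ZMod 2] P →ₗ[ZMod 2] K

/-- the coboundary of bilinear forms -/
def dB (C : Cx P) : Bil P K →ₗ[ZMod 2] Bil P K where
  toFun B := B.comp C.del + B.compl₂ C.del
  map_add' A B := by
    ext x y
    simp only [LinearMap.add_apply, LinearMap.comp_apply, LinearMap.compl₂_apply]
    abel
  map_smul' a B := by
    ext x y
    simp only [LinearMap.add_apply, LinearMap.comp_apply, LinearMap.compl₂_apply,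
      LinearMap.smul_apply, RingHom.id_apply, smul_add]

theorem dB_apply (C : Cx P) (B : Bil P K) (x y : P) :
    dB C B x y = B (C.del x) y + B x (C.del y) := rfl

/-- the total coboundary `d + 1 + sigma` of bilinear forms -/
def DB (C : Cx P) : Bil P K →ₗ[ZMod 2] Bil P K where
  toFun B := dB C B + B + B.flip
  map_add' A B := by
    ext x y
    simp only [LinearMap.add_apply, LinearMap.flip_apply, map_add]
    abel
  map_smul' a B := by
    ext x y
    simp only [LinearMap.add_apply, LinearMap.flip_apply, LinearMap.smul_apply, map_smul,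
      RingHom.id_apply, smul_add]

theorem DB_apply (C : Cx P) (B : Bil P K) (x y : P) :
    DB C B x y = B (C.del x) y + B x (C.del y) + B x y + B y x := rfl

/-- the total coboundary `d + 1 + sigma_23` of trilinear forms -/
def DT (C : Cx P) : F3 P K →ₗ[ZMod 2] F3 P K where
  toFun t := t.comp C.del + (DB C).comp t
  map_add' A B := by
    ext x y z
    simp only [LinearMap.add_apply, LinearMap.comp_apply, map_add]
    abel
  map_smul' a B := by
    ext x y z
    simp only [LinearMap.add_apply, LinearMap.comp_apply, LinearMap.smul_apply, map_smul,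
      RingHom.id_apply, smul_add]

theorem DT_apply (C : Cx P) (t : F3 P K) (x y z : P) :
    DT C t x y z = t (C.del x) y z +
      (t x (C.del y) z + t x y (C.del z) + t x y z + t x z y) := rfl

/-- twisted equivariant bilinear forms -/
def EqB (rho : G →* Module.End (ZMod 2) P) (al : G →* G) (chi : G →* Kˣ)
    (B : Bil P K) : Prop :=
  ∀ g x y, B (rho g x) (rho (al g) y) = (chi g : K) * B x y

/-- the elements `s` with `s * al s = 1` (they correspond to the involutions in `G ⋊ al`) -/
def S (al : G →* G) : Type := {s : G // s * al s = 1}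

/-- conjugation by `g` -/
def actS {al : G →* G} (hal : ∀ g, al (al g) = g) (g : G) (s : S al) : S al :=
  ⟨g * s.1 * (al g)⁻¹, by
    have h := s.2
    rw [map_mul, map_mul, map_inv, hal]
    calc g * s.1 * (al g)⁻¹ * (al g * al s.1 * g⁻¹) = g * (s.1 * al s.1) * g⁻¹ := by group
      _ = 1 := by rw [h]; group⟩

/-- conjugation by the involution -/
def swS {al : G →* G} (hal : ∀ g, al (al g) = g) (s : S al) : S al :=
  ⟨al s.1, by
    have h := s.2
    rw [hal]
    have h2 : al s.1 = s.1⁻¹ := by rw [eq_inv_iff_mul_eq_one, ← mul_left_cancel_iff (a := s.1)]; rw [← mul_assoc, h]; simp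
    rw [h2]; simp⟩

/-- equivariant families of bilinear forms -/
def EqY (rho : G →* Module.End (ZMod 2) P) {al : G →* G} (hal : ∀ g, al (al g) = g)
    (chi : G →* Kˣ) (B : S al → Bil P K) : Prop :=
  ∀ g s x y, B (actS hal g s) (rho g x) (rho (al g) y) = (chi g : K) * B s x y

/-- equivariant trilinear forms -/
def EqT (rho : G →* Module.End (ZMod 2) P) (chi : G →* Kˣ) (t : F3 P K) : Prop :=
  ∀ g x y z, t (rho g x) (rho g y) (rho g z) = (chi g : K) * t x y z

end Pool.Agent.helper81.PD
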