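import Pool.Agent.helper81.PD.Stmt
import Pool.Agent.helper81.PD.Defs

/-!
# Project PDS (MP_64196d_al): definitions for the integral part

`IEx R chi`: the complex of `chi`-equivariant functionals `R.P i →+ K` is exact.
`Prin chi`: all derivations with values in `K` (twisted by `chi`) are principal.
`rt R i n f`: the cochain `f` multiplied on the right by `n`. `GC R`: the complex `R` modulo 2.
-/

namespace Pool.Agent.helper81.PD

variable {N : Type} [Group N]

/-- the action of an element of the group -/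
noncomputable def act (R : FPRes N) (i : ℕ) (g : N) (x : R.P i) : R.P i :=
  MonoidAlgebra.of ℤ N g • x

variable {K : Type} [Field K] [Algebra (ZMod 2) K]

/-- equivariant functionals -/
def IEqf (R : FPRes N) (chi : N →* Kˣ) (i : ℕ) (c : R.P i →+ K) : Prop :=
  ∀ g x, c (act R i g x) = (chi g : K) * c x

/-- the complex of equivariant functionals is exact -/
def IEx (R : FPRes N) (chi : N →* Kˣ) : Prop :=
  (∀ c : R.P 0 →+ K, IEqf R chi 0 c → (∀ y, c (R.d 0 y) = 0) → c = 0) ∧
  ∀ (i : ℕ) (c : R.P (i + 1) →+ K), IEqf R chi (i + 1) c → (∀ y, c (R.d (i + 1) y) = 0) →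
    ∃ b : R.P i →+ K, IEqf R chi i b ∧ ∀ x, c x = b (R.d i x)

/-- all derivations are principal -/
def Prin (chi : N →* Kˣ) : Prop :=
  ∀ D : N → K, (∀ g h, D (g * h) = D g + (chi g : K) * D h) →
    ∃ v : K, ∀ g, D g = ((chi g : K) - 1) * v

/-- right multiplication of a cochain by an element of the group ring -/
noncomputable def rt (R : FPRes N) (i : ℕ) (a : MonoidAlgebra ℤ N) (f : Coch R i) : Coch R i :=
  (LinearMap.toSpanSingleton (MonoidAlgebra ℤ N) (MonoidAlgebra ℤ N) a).comp f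

theorem rt_apply (R : FPRes N) (i : ℕ) (a : MonoidAlgebra ℤ N) (f : Coch R i) (x : R.P i) :
    rt R i a f x = f x * a := rfl

/-- functionals on the cochains which are equivariant for the right multiplication -/
def Cqf (R : FPRes N) (chi : N →* Kˣ) (i : ℕ) (g : Coch R i →+ K) : Prop :=
  ∀ n f, g (rt R i (MonoidAlgebra.of ℤ N n) f) = (chi n : K) * g f

/-- the complex modulo 2 -/
structure GC (R : FPRes N) where
  Q : ℕ → Type
  [acg : ∀ i, AddCommGroup (Q i)]
  [mod : ∀ i, Module (ZMod 2) (Q i)]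
  q : ∀ i, R.P i →+ Q i
  q_surj : ∀ i, Function.Surjective (q i)
  q_ker : ∀ i x, q i x = 0 ↔ ∃ y, x = y + y
  d : ∀ i, Q (i + 1) →ₗ[ZMod 2] Q i
  d_q : ∀ i x, d i (q (i + 1) x) = q i (R.d i x)
  eps : Q 0 →ₗ[ZMod 2] ZMod 2
  eps_q : ∀ x, eps (q 0 x) = ((R.eps x : ℤ) : ZMod 2)
  rho : ∀ i, N →* Module.End (ZMod 2) (Q i)
  rho_q : ∀ i g x, rho i g (q i x) = q i (act R i g x)
  pl : ∀ i, PL (rho i)
  exact_zero : ∀ x : Q 0, eps x = 0 → ∃ y, d 0 y = x
  exact_succ : ∀ (i : ℕ) (x : Q (i + 1)), d i x = 0 → ∃ y, d (i + 1) y = x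

attribute [instance] GC.acg GC.mod

end Pool.Agent.helper81.PD
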