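import Pool.Agent.helper81.PD.Defs2

/-!
# Project PDS (MP_64196d_al): definitions for the monomial representations

`sh n a`: the finitely supported function `a : ℤ →₀ ZMod 2` shifted by `n`.
`LDer phi a`: `a` is a derivation with values in the Laurent polynomials.
`fold m a`: the folded function on `ZMod m`. `sgn`: the character of `ZMod 2`.
`Concl N`: the conclusion of the main theorem.
-/

namespace Pool.Agent.helper81.PD

variable {N : Type} [Group N]

noncomputable def sh (n : ℤ) (a : ℤ →₀ ZMod 2) : ℤ →₀ ZMod 2 := a.mapDomain (fun l : ℤ => l + n)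

/-- the degree of an element -/
def dg (phi : N →* Multiplicative ℤ) (g : N) : ℤ := Multiplicative.toAdd (phi g)

def LDer (phi : N →* Multiplicative ℤ) (a : N → ℤ →₀ ZMod 2) : Prop :=
  ∀ g h, a (g * h) = a g + sh (dg phi g) (a h)

noncomputable def fold (m : ℕ) (a : ℤ →₀ ZMod 2) : ZMod m →₀ ZMod 2 :=
  a.mapDomain (fun l : ℤ => (l : ZMod m))

def sgn (x : ZMod 2) : ℤ := if x = 0 then 1 else -1

/-- a flux derivation modulo `m` -/
def Flux (phi : N →* Multiplicative ℤ) (a : N → ℤ →₀ ZMod 2) (m : ℕ) (D : N → ZMod m → ℤ) : Prop :=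
  ∀ g h i, D (g * h) i = D g i + sgn (fold m (a g) i) * D h (i - (dg phi g : ZMod m))

/-- a subgroup of finite index with first Betti number at least 2 -/
def Concl (N : Type) [Group N] : Prop :=
  ∃ H : Subgroup N, H.FiniteIndex ∧ 2 ≤ Module.rank ℤ (Additive (Abelianization H))

/-- the field `𝔽₂(s)` -/
abbrev KK : Type := FractionRing (LaurentPolynomial (ZMod 2))

/-- the unit `s` -/
noncomputable def uu : KKˣ :=
  Units.map (algebraMap (LaurentPolynomial (ZMod 2)) KK).toMonoidHom
    ⟨LaurentPolynomial.T 1, LaurentPolynomial.T (-1), by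
      rw [← LaurentPolynomial.T_add]; simp, by rw [← LaurentPolynomial.T_add]; simp⟩

/-- the character `g ↦ s ^ phi g` -/
noncomputable def chiOf (phi : N →* Multiplicative ℤ) : N →* KKˣ :=
  (zpowersHom KKˣ uu).comp phi

/-- the subgroup of the elements of `N` fixed by `V` -/
def fixSub {F : Type} [Group F] [MulDistribMulAction F N] (V : Subgroup F) : Subgroup N where
  carrier := {x | ∀ v ∈ V, v • x = x}
  mul_mem' := by
    intro x y hx hy v hv
    rw [smul_mul', hx v hv, hy v hv]
  one_mem' := fun v _ => smul_one v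
  inv_mem' := by
    intro x hx v hv
    rw [smul_inv', hx v hv]

end Pool.Agent.helper81.PD
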