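import Pool.Agent.helper81.PD.Defs2

/-! # PDS-Dual1: the dual complex: contraction in high degrees -/

namespace Pool.Agent.helper81.PD

variable {N : Type} [Group N]

/-- dual bases -/
theorem dual_basis (R : FPRes N) (i : ℕ) : ∃ (m : ℕ) (x : Fin m → R.P i) (f : Fin m → Coch R i),
    ∀ y : R.P i, y = ∑ l, f l y • x l := by
  have := R.fin i
  have := R.proj i
  obtain ⟨m, F, g, _, _, hfg⟩ :=
    Module.Finite.exists_comp_eq_id_of_projective (MonoidAlgebra ℤ N) (R.P i)
  refine ⟨m, fun l => F (Pi.single l 1), fun l => (LinearMap.proj l).comp g, fun y => ?_⟩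
  have h1 : F (g y) = y := LinearMap.congr_fun hfg y
  have h2 : g y = ∑ l, g y l • (Pi.single l 1 : Fin m → MonoidAlgebra ℤ N) := by
    funext j
    rw [Finset.sum_apply, Finset.sum_eq_single j]
    · simp
    · intro b _ hb
      simp [Pi.single_eq_of_ne' hb]
    · intro hj
      exact absurd (Finset.mem_univ j) hj
  calc y = F (g y) := h1.symm
    _ = F (∑ l, g y l • (Pi.single l 1 : Fin m → MonoidAlgebra ℤ N)) := by rw [← h2]
    _ = ∑ l, (LinearMap.proj l).comp g y • F (Pi.single l 1) := by
        rw [map_sum]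
        refine Finset.sum_congr rfl fun l _ => ?_
        rw [map_smul]
        rfl

theorem Dual1_rt_add (R : FPRes N) (i : ℕ) (a : MonoidAlgebra ℤ N) (f g : Coch R i) :
    rt R i a (f + g) = rt R i a f + rt R i a g := by
  ext x
  simp only [rt_apply, LinearMap.add_apply, add_mul]

theorem Dual1_rt_sub (R : FPRes N) (i : ℕ) (a : MonoidAlgebra ℤ N) (f g : Coch R i) :
    rt R i a (f - g) = rt R i a f - rt R i a g := by
  refine LinearMap.ext fun x => ?_
  simp only [rt_apply, LinearMap.sub_apply, sub_mul]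

theorem Dual1_add_rt (R : FPRes N) (i : ℕ) (a b : MonoidAlgebra ℤ N) (f : Coch R i) :
    rt R i (a + b) f = rt R i a f + rt R i b f := by
  refine LinearMap.ext fun x => ?_
  simp only [rt_apply, LinearMap.add_apply, mul_add]

theorem Dual1_rt_zero (R : FPRes N) (i : ℕ) (f : Coch R i) : rt R i 0 f = 0 := by
  refine LinearMap.ext fun x => ?_
  simp only [rt_apply, LinearMap.zero_apply, mul_zero]

theorem Dual1_rt_rt (R : FPRes N) (i : ℕ) (a b : MonoidAlgebra ℤ N) (f : Coch R i) :
    rt R i b (rt R i a f) = rt R i (a * b) f := by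
  refine LinearMap.ext fun x => ?_
  simp only [rt_apply, mul_assoc]

theorem Dual1_cob_rt (R : FPRes N) (i : ℕ) (a : MonoidAlgebra ℤ N) (f : Coch R i) :
    cob R i (rt R i a f) = rt R (i + 1) a (cob R i f) := rfl

theorem Dual1_cob_cob (R : FPRes N) (i : ℕ) (f : Coch R i) : cob R (i + 1) (cob R i f) = 0 := by
  refine LinearMap.ext fun x => ?_
  have h : R.d i (R.d (i + 1) x) = 0 := (R.exact_succ i (R.d (i + 1) x)).mpr ⟨x, rfl⟩
  change f (R.d i (R.d (i + 1) x)) = 0
  rw [h, map_zero]

/-- right multiplication as an additive map of the cochain -/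
noncomputable def Dual1_rtHom (R : FPRes N) (i : ℕ) (a : MonoidAlgebra ℤ N) :
    Coch R i →+ Coch R i where
  toFun f := rt R i a f
  map_zero' := by
    refine LinearMap.ext fun x => ?_
    simp only [rt_apply, LinearMap.zero_apply, zero_mul]
  map_add' f g := Dual1_rt_add R i a f g

theorem Dual1_rt_sum (R : FPRes N) (i m : ℕ) (a : MonoidAlgebra ℤ N) (f : Fin m → Coch R i) :
    rt R i a (∑ l, f l) = ∑ l, rt R i a (f l) :=
  map_sum (Dual1_rtHom R i a) f Finset.univ

/-- one step of the construction, downwards -/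
theorem Dual1_step (R : FPRes N) (h : Dual3 R) (i : ℕ) (hi : 3 ≤ i)
    (T : Coch R (i + 2) →+ Coch R (i + 1))
    (hT : ∀ a f, T (rt R (i + 2) a f) = rt R (i + 1) a (T f))
    (hc : ∀ f : Coch R (i + 1), cob R (i + 1) (T (cob R (i + 1) f)) = cob R (i + 1) f) :
    ∃ t : Coch R (i + 1) →+ Coch R i, (∀ a f, t (rt R (i + 1) a f) = rt R i a (t f)) ∧
      ∀ f : Coch R (i + 1), cob R i (t f) + T (cob R (i + 1) f) = f := by
  obtain ⟨m, x, φ, hφ⟩ := dual_basis R (i + 1)
  have hex : ∀ l, ∃ a : Coch R i, cob R i a = φ l - T (cob R (i + 1) (φ l)) := by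
    intro l
    refine h.2.1 i (by omega) _ ?_
    rw [map_sub, hc, sub_self]
  choose a ha using hex
  have hsum : ∀ f : Coch R (i + 1), f = ∑ l, rt R (i + 1) (f (x l)) (φ l) := by
    intro f
    refine LinearMap.ext fun y => ?_
    rw [LinearMap.sum_apply]
    conv_lhs => rw [hφ y]
    rw [map_sum]
    refine Finset.sum_congr rfl fun l _ => ?_
    rw [map_smul, rt_apply, smul_eq_mul]
  refine ⟨{ toFun := fun f => ∑ l, rt R i (f (x l)) (a l)
            map_zero' := ?_
            map_add' := ?_ }, ?_, ?_⟩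
  · refine Finset.sum_eq_zero fun l _ => ?_
    rw [LinearMap.zero_apply, Dual1_rt_zero]
  · intro f g
    rw [← Finset.sum_add_distrib]
    refine Finset.sum_congr rfl fun l _ => ?_
    rw [LinearMap.add_apply, Dual1_add_rt]
  · intro b f
    change ∑ l, rt R i (rt R (i + 1) b f (x l)) (a l) = rt R i b (∑ l, rt R i (f (x l)) (a l))
    rw [Dual1_rt_sum]
    refine Finset.sum_congr rfl fun l _ => ?_
    rw [rt_apply, Dual1_rt_rt]
  · intro f
    change cob R i (∑ l, rt R i (f (x l)) (a l)) + T (cob R (i + 1) f) = f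
    have e1 : cob R i (∑ l, rt R i (f (x l)) (a l)) =
        ∑ l, (rt R (i + 1) (f (x l)) (φ l) -
          T (cob R (i + 1) (rt R (i + 1) (f (x l)) (φ l)))) := by
      rw [map_sum]
      refine Finset.sum_congr rfl fun l _ => ?_
      rw [Dual1_cob_rt, ha, Dual1_rt_sub, Dual1_cob_rt, hT]
    have e2 : T (cob R (i + 1) f) =
        ∑ l, T (cob R (i + 1) (rt R (i + 1) (f (x l)) (φ l))) := by
      conv_lhs => rw [hsum f]
      rw [map_sum, map_sum]
    rw [e1, e2, ← Finset.sum_add_distrib]
    conv_rhs => rw [hsum f]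
    refine Finset.sum_congr rfl fun l _ => ?_
    rw [sub_add_cancel]

/-- the contraction in the degrees `≥ 4`: there are right linear maps `tau i` with
`cob i (tau i f) + tau (i + 1) (cob (i + 1) f) = f` for `f ∈ Coch R (i + 1)`, `i ≥ 3` -/
theorem contraction (R : FPRes N) (h : Dual3 R) :
    ∃ tau : ∀ i : ℕ, Coch R (i + 1) →+ Coch R i,
      (∀ i a f, tau i (rt R (i + 1) a f) = rt R i a (tau i f)) ∧
      ∀ i, 3 ≤ i → ∀ f : Coch R (i + 1),
        cob R i (tau i f) + tau (i + 1) (cob R (i + 1) f) = f := by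
  obtain ⟨n, hn⟩ := R.bdd
  have key : ∀ k : ℕ, ∃ tau : ∀ i : ℕ, Coch R (i + 1) →+ Coch R i,
      (∀ i a f, tau i (rt R (i + 1) a f) = rt R i a (tau i f)) ∧
      ∀ i, 3 ≤ i → n ≤ i + k → ∀ f : Coch R (i + 1),
        cob R i (tau i f) + tau (i + 1) (cob R (i + 1) f) = f := by
    intro k
    induction k with
    | zero =>
      refine ⟨fun i => 0, fun i a f => ?_, fun i _ hi f => ?_⟩
      · exact ((Dual1_rtHom R i a).map_zero).symm
      · have := hn (i + 1) (by omega)
        refine LinearMap.ext fun x => ?_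
        rw [Subsingleton.elim x 0, map_zero, map_zero]
    | succ k ih =>
      obtain ⟨tau, h1, h2⟩ := ih
      by_cases hj : 3 + k + 1 ≤ n
      · obtain ⟨j, hjn⟩ : ∃ j, n = j + k + 1 := ⟨n - k - 1, by omega⟩
        have hj3 : 3 ≤ j := by omega
        obtain ⟨t, ht1, ht2⟩ := Dual1_step R h j hj3 (tau (j + 1)) (h1 (j + 1)) (by
          intro f
          have e := h2 (j + 1) (by omega) (by omega) (cob R (j + 1) f)
          rw [Dual1_cob_cob, map_zero, add_zero] at e
          exact e)
        refine ⟨fun i => Function.update tau j t i, fun i a f => ?_, fun i hi3 hi f => ?_⟩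
        · by_cases hij : i = j
          · subst hij
            simp only [Function.update_self]
            exact ht1 a f
          · simp only [Function.update_of_ne hij]
            exact h1 i a f
        · by_cases hij : i = j
          · subst hij
            simp only [Function.update_self, Function.update_of_ne (Nat.succ_ne_self i)]
            exact ht2 f
          · have hij2 : i + 1 ≠ j := by omega
            simp only [Function.update_of_ne hij, Function.update_of_ne hij2]
            exact h2 i hi3 (by omega) f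
      · refine ⟨tau, h1, fun i hi3 _ f => h2 i hi3 (by omega) f⟩
  obtain ⟨tau, h1, h2⟩ := key n
  exact ⟨tau, h1, fun i hi3 f => h2 i hi3 (by omega) f⟩

end Pool.Agent.helper81.PD
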