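import Pool.Agent.helper81.PD.Dual1

/-! # PDS-Dual2: equivariant functionals on the dual complex -/

namespace Pool.Agent.helper81.PD

variable {N : Type} [Group N] {K : Type} [Field K] [Algebra (ZMod 2) K]

theorem Dual2_two : (2 : K) = 0 := by
  have h : (2 : ZMod 2) = 0 := by decide
  have h2 := congrArg (algebraMap (ZMod 2) K) h
  rw [map_ofNat, map_zero] at h2
  exact h2

theorem Dual2_char (x : K) : x + x = 0 := by
  rw [← two_mul, Dual2_two, zero_mul]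

theorem Dual2_odd (w : ℤ) (hw : w = 1 ∨ w = -1) (x : K) : w • x = x := by
  rcases hw with rfl | rfl
  · simp
  · have h := Dual2_char x
    rw [neg_smul, one_smul]
    linear_combination -h

theorem Dual2_rt_mul (R : FPRes N) (i : ℕ) (m n : N) (f : Coch R i) :
    rt R i (MonoidAlgebra.of ℤ N (m * n)) f =
      rt R i (MonoidAlgebra.of ℤ N n) (rt R i (MonoidAlgebra.of ℤ N m) f) := by
  ext1 x
  rw [rt_apply, rt_apply, rt_apply, map_mul, mul_assoc]

theorem Dual2_rt_one (R : FPRes N) (i : ℕ) (f : Coch R i) :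
    rt R i (MonoidAlgebra.of ℤ N 1) f = f := by
  ext1 x
  rw [rt_apply, map_one, mul_one]

theorem Dual2_cob_rt (R : FPRes N) (i : ℕ) (a : MonoidAlgebra ℤ N) (f : Coch R i) :
    cob R i (rt R i a f) = rt R (i + 1) a (cob R i f) := rfl

theorem Dual2_cob_cob (R : FPRes N) (i : ℕ) (f : Coch R i) :
    cob R (i + 1) (cob R i f) = 0 := by
  ext1 x
  change f (R.d i (R.d (i + 1) x)) = 0
  rw [(R.exact_succ i (R.d (i + 1) x)).2 ⟨x, rfl⟩, map_zero]

/-- right multiplication as an additive map -/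
noncomputable def Dual2_rt (R : FPRes N) (i : ℕ) (a : MonoidAlgebra ℤ N) :
    Coch R i →+ Coch R i where
  toFun := rt R i a
  map_zero' := LinearMap.comp_zero _
  map_add' _ _ := LinearMap.comp_add _ _ _

theorem Dual2_rt_def (R : FPRes N) (i : ℕ) (a : MonoidAlgebra ℤ N) (f : Coch R i) :
    rt R i a f = Dual2_rt R i a f := rfl

theorem Dual2_rt_sub (R : FPRes N) (i : ℕ) (a : MonoidAlgebra ℤ N) (f g : Coch R i) :
    rt R i a (f - g) = rt R i a f - rt R i a g := by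
  simp only [Dual2_rt_def, map_sub]

theorem Dual2_rt_zsmul (R : FPRes N) (i : ℕ) (a : MonoidAlgebra ℤ N) (z : ℤ) (f : Coch R i) :
    rt R i a (z • f) = z • rt R i a f := by
  simp only [Dual2_rt_def, map_zsmul]

/-- the generator of `H^3` -/
theorem Dual2_theta (R : FPRes N) (h : Dual3 R) (p : Coch R 3 →+ Coch R 3)
    (hp : ∀ f, cob R 3 (p f) = 0) (hp2 : ∀ f, cob R 3 f = 0 → p f = f) :
    ∃ (Th : Coch R 3 →+ ℤ) (z1 : Coch R 3), cob R 3 z1 = 0 ∧ Th z1 = 1 ∧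
      (∀ u, Th (cob R 2 u) = 0) ∧
      ∀ z, cob R 3 z = 0 → ∃ u, cob R 2 u = z - Th z • z1 := by
  obtain ⟨-, -, ⟨e⟩⟩ := h
  let p' : Coch R 3 →+ (cob R 3).ker := p.codRestrict (cob R 3).ker (fun f => hp f)
  let Th0 : (cob R 3).ker →+ ℤ :=
    e.toAddMonoidHom.comp (QuotientAddGroup.mk' ((cob R 2).range.addSubgroupOf (cob R 3).ker))
  have hTh0 : ∀ z : (cob R 3).ker, Th0 z = 0 ↔ ∃ u, cob R 2 u = (z : Coch R 3) := by
    intro z
    change e (QuotientAddGroup.mk' _ z) = 0 ↔ _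
    rw [EmbeddingLike.map_eq_zero_iff]
    rw [QuotientAddGroup.mk'_apply, QuotientAddGroup.eq_zero_iff, AddSubgroup.mem_addSubgroupOf,
      AddMonoidHom.mem_range]
  obtain ⟨q1, hq1⟩ := e.surjective 1
  obtain ⟨y1, hy1⟩ := QuotientAddGroup.mk'_surjective _ q1
  have hy : Th0 y1 = 1 := by
    change e (QuotientAddGroup.mk' _ y1) = 1
    rw [hy1, hq1]
  have hpk : ∀ z : Coch R 3, ∀ hz : cob R 3 z = 0, p' z = ⟨z, hz⟩ := by
    intro z hz
    apply Subtype.ext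
    exact hp2 z hz
  refine ⟨Th0.comp p', (y1 : Coch R 3), y1.2, ?_, ?_, ?_⟩
  · change Th0 (p' y1) = 1
    rw [hpk (y1 : Coch R 3) y1.2]
    exact hy
  · intro u
    change Th0 (p' (cob R 2 u)) = 0
    rw [hpk _ (Dual2_cob_cob R 2 u), hTh0]
    exact ⟨u, rfl⟩
  · intro z hz
    have h1 : Th0 (p' z - Th0 (p' z) • y1) = 0 := by
      rw [map_sub, map_zsmul, hy, smul_eq_mul, mul_one, sub_self]
    obtain ⟨u, hu⟩ := (hTh0 _).1 h1
    refine ⟨u, hu.trans ?_⟩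
    have h2 : (p' z : Coch R 3) = z := by rw [hpk z hz]
    rw [AddSubgroup.coe_sub, AddSubgroup.coe_zsmul, h2]
    rfl

theorem Dual2_w (R : FPRes N) (Th : Coch R 3 →+ ℤ) (z1 : Coch R 3) (hz1 : cob R 3 z1 = 0)
    (hTh1 : Th z1 = 1) (hTh2 : ∀ u, Th (cob R 2 u) = 0)
    (hTh3 : ∀ z, cob R 3 z = 0 → ∃ u, cob R 2 u = z - Th z • z1) :
    (∀ n z, cob R 3 z = 0 → Th (rt R 3 (MonoidAlgebra.of ℤ N n) z) =
      Th z * Th (rt R 3 (MonoidAlgebra.of ℤ N n) z1)) ∧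
    (∀ n, Th (rt R 3 (MonoidAlgebra.of ℤ N n) z1) = 1 ∨
      Th (rt R 3 (MonoidAlgebra.of ℤ N n) z1) = -1) ∧
    ∀ m n, Th (rt R 3 (MonoidAlgebra.of ℤ N (m * n)) z1) =
      Th (rt R 3 (MonoidAlgebra.of ℤ N m) z1) * Th (rt R 3 (MonoidAlgebra.of ℤ N n) z1) := by
  have h1 : ∀ n z, cob R 3 z = 0 → Th (rt R 3 (MonoidAlgebra.of ℤ N n) z) =
      Th z * Th (rt R 3 (MonoidAlgebra.of ℤ N n) z1) := by
    intro n z hz
    obtain ⟨u, hu⟩ := hTh3 z hz
    have h2 : z = cob R 2 u + Th z • z1 := by rw [hu]; abel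
    have h3 : rt R 3 (MonoidAlgebra.of ℤ N n) z = cob R 2 (rt R 2 (MonoidAlgebra.of ℤ N n) u) +
        Th z • rt R 3 (MonoidAlgebra.of ℤ N n) z1 := by
      conv_lhs => rw [h2]
      simp only [Dual2_rt_def, map_add, map_zsmul]
      rfl
    rw [h3, map_add, hTh2, zero_add, map_zsmul, smul_eq_mul]
  have h4 : ∀ m n, Th (rt R 3 (MonoidAlgebra.of ℤ N (m * n)) z1) =
      Th (rt R 3 (MonoidAlgebra.of ℤ N m) z1) * Th (rt R 3 (MonoidAlgebra.of ℤ N n) z1) := by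
    intro m n
    rw [Dual2_rt_mul]
    apply h1
    rw [Dual2_cob_rt, hz1, Dual2_rt_def, map_zero]
  refine ⟨h1, ?_, h4⟩
  intro n
  have h5 := h4 n n⁻¹
  rw [mul_inv_cancel, Dual2_rt_one, hTh1] at h5
  exact Int.eq_one_or_neg_one_of_mul_eq_one h5.symm

omit [Algebra (ZMod 2) K] in
theorem Dual2_caseA (R : FPRes N) (chi : N →* Kˣ) (i : ℕ)
    (tau : ∀ i : ℕ, Coch R (i + 1) →+ Coch R i)
    (ht : ∀ i a f, tau i (rt R (i + 1) a f) = rt R i a (tau i f))
    (g : Coch R (i + 1) →+ K) (hg : Cqf R chi (i + 1) g)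
    (hk : ∀ f, g f = g (tau (i + 1) (cob R (i + 1) f))) :
    ∃ k : Coch R (i + 2) →+ K, Cqf R chi (i + 2) k ∧ ∀ f, g f = k (cob R (i + 1) f) := by
  refine ⟨g.comp (tau (i + 1)), ?_, hk⟩
  intro n f
  rw [AddMonoidHom.comp_apply, AddMonoidHom.comp_apply, ht, hg]

theorem Dual2_caseB (R : FPRes N) (h : Dual3 R) (chi : N →* Kˣ) (hne : ∃ g, chi g ≠ 1)
    (p : Coch R 3 →+ Coch R 3)
    (hp : ∀ f, cob R 3 (p f) = 0) (hp2 : ∀ f, cob R 3 f = 0 → p f = f)
    (g : Coch R 3 →+ K) (hg : Cqf R chi 3 g)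
    (hz : ∀ f, g (cob R 2 f) = 0) : ∀ z, cob R 3 z = 0 → g z = 0 := by
  obtain ⟨Th, z1, hz1, hTh1, hTh2, hTh3⟩ := Dual2_theta R h p hp hp2
  obtain ⟨hw1, hw2, hw3⟩ := Dual2_w R Th z1 hz1 hTh1 hTh2 hTh3
  have h1 : ∀ z, cob R 3 z = 0 → g z = Th z • g z1 := by
    intro z hzz
    obtain ⟨u, hu⟩ := hTh3 z hzz
    have h2 := hz u
    rw [hu, map_sub, map_zsmul] at h2
    exact sub_eq_zero.1 h2
  obtain ⟨n, hn⟩ := hne
  have h3 : g z1 = 0 := by
    have h4 := hg n z1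
    rw [h1 _ (by rw [Dual2_cob_rt, hz1, Dual2_rt_def, map_zero]), Dual2_odd _ (hw2 n)] at h4
    have h5 : (1 - (chi n : K)) * g z1 = 0 := by linear_combination h4
    rcases mul_eq_zero.1 h5 with h6 | h6
    · exact absurd (Units.ext (sub_eq_zero.1 h6).symm) hn
    · exact h6
  intro z hzz
  rw [h1 z hzz, h3, smul_zero]

theorem Dual2_caseC (R : FPRes N) (h : Dual3 R) (chi : N →* Kˣ) (hP : Prin chi⁻¹)
    (p : Coch R 3 →+ Coch R 3)
    (hp : ∀ f, cob R 3 (p f) = 0) (hp2 : ∀ f, cob R 3 f = 0 → p f = f)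
    (hp3 : ∀ a f, p (rt R 3 a f) = rt R 3 a (p f))
    (g : Coch R 2 →+ K) (hg : Cqf R chi 2 g)
    (hz : ∀ f, g (cob R 1 f) = 0) :
    ∃ k : Coch R 3 →+ K, Cqf R chi 3 k ∧ ∀ f, g f = k (cob R 2 f) := by
  obtain ⟨Th, z1, hz1, hTh1, hTh2, hTh3⟩ := Dual2_theta R h p hp hp2
  obtain ⟨hw1, hw2, hw3⟩ := Dual2_w R Th z1 hz1 hTh1 hTh2 hTh3
  -- the retraction onto the image of `cob 2`
  let q : Coch R 3 →+ Coch R 3 :=
    p - ((zmultiplesHom (Coch R 3) z1).comp (Th.comp p))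
  have hq : ∀ f, q f = p f - Th (p f) • z1 := fun f => rfl
  have hq1 : ∀ f, ∃ u, cob R 2 u = q f := by
    intro f
    rw [hq]
    exact hTh3 (p f) (hp f)
  have hker : ∀ u : Coch R 2, cob R 2 u = 0 → g u = 0 := by
    intro u hu
    obtain ⟨v, rfl⟩ := h.2.1 1 (by norm_num) u hu
    exact hz v
  have hdiff : ∀ u v : Coch R 2, cob R 2 u = cob R 2 v → g u = g v := by
    intro u v huv
    have h1 := hker (u - v) (by rw [map_sub, huv, sub_self])
    rw [map_sub] at h1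
    exact sub_eq_zero.1 h1
  choose sec hsec using hq1
  let g1 : Coch R 3 →+ K :=
    { toFun := fun f => g (sec f)
      map_zero' := by
        apply hker
        rw [hsec, map_zero]
      map_add' := by
        intro a b
        rw [← map_add]
        apply hdiff
        rw [map_add, hsec, hsec, hsec, map_add] }
  have hg1 : ∀ f u, cob R 2 u = q f → g1 f = g u := by
    intro f u hu
    exact hdiff _ _ (by rw [hsec, hu])
  -- the derivation
  let De : N → K := fun n => g1 (rt R 3 (MonoidAlgebra.of ℤ N n) z1)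
  have hrt0 : ∀ n z, cob R 3 z = 0 → cob R 3 (rt R 3 (MonoidAlgebra.of ℤ N n) z) = 0 := by
    intro n z hzz
    rw [Dual2_cob_rt, hzz, Dual2_rt_def, map_zero]
  -- `g1` and right multiplication
  have hg1rt : ∀ n z, cob R 3 z = 0 → g1 (rt R 3 (MonoidAlgebra.of ℤ N n) z) =
      (chi n : K) * g1 z + Th z • De n := by
    intro n z hzz
    have e1 : cob R 2 (sec z) = z - Th z • z1 := by rw [hsec, hq, hp2 z hzz]
    have e2 : cob R 2 (sec (rt R 3 (MonoidAlgebra.of ℤ N n) z1)) =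
        rt R 3 (MonoidAlgebra.of ℤ N n) z1 - Th (rt R 3 (MonoidAlgebra.of ℤ N n) z1) • z1 := by
      rw [hsec, hq, hp2 _ (hrt0 n z1 hz1)]
    have e3 : cob R 2 (rt R 2 (MonoidAlgebra.of ℤ N n) (sec z) +
        Th z • sec (rt R 3 (MonoidAlgebra.of ℤ N n) z1)) = q (rt R 3 (MonoidAlgebra.of ℤ N n) z) := by
      rw [map_add, map_zsmul, e2, Dual2_cob_rt, e1, hq, hp2 _ (hrt0 n z hzz), hw1 n z hzz,
        Dual2_rt_sub, Dual2_rt_zsmul, smul_sub, smul_smul]
      abel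
    rw [hg1 _ _ e3, map_add, map_zsmul, hg]
    rfl
  have hDe : ∀ m n, De (m * n) = (chi n : K) * De m + De n := by
    intro m n
    change g1 (rt R 3 (MonoidAlgebra.of ℤ N (m * n)) z1) = _
    rw [Dual2_rt_mul, hg1rt n _ (hrt0 m z1 hz1), Dual2_odd _ (hw2 m)]
  obtain ⟨v, hv⟩ := hP (fun n => ((chi n)⁻¹ : Kˣ) * De n) (by
    intro m n
    have c1 := (chi m).ne_zero
    have c2 := (chi n).ne_zero
    simp only [hDe, map_mul, Units.val_mul, MonoidHom.inv_apply, mul_inv, Units.val_inv_eq_inv_val]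
    field_simp)
  have hDev : ∀ n, De n = v - (chi n : K) * v := by
    intro n
    have h1 := hv n
    have c2 := (chi n).ne_zero
    simp only [MonoidHom.inv_apply, Units.val_inv_eq_inv_val] at h1
    field_simp at h1
    linear_combination h1
  let k : Coch R 3 →+ K := g1.comp p + ((zmultiplesHom K v).comp (Th.comp p))
  have hk : ∀ f, k f = g1 (p f) + Th (p f) • v := fun f => rfl
  refine ⟨k, ?_, ?_⟩
  · intro n f
    rw [hk, hk, hp3, hg1rt n _ (hp f), hw1 n _ (hp f), hDev, mul_comm (Th (p f)), mul_smul,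
      Dual2_odd _ (hw2 n)]
    have h1 := Dual2_char (Th (p f) • v)
    rw [smul_sub, ← mul_smul_comm (Th (p f)) (chi n : K) v]
    have h2 := Dual2_char ((chi n : K) * Th (p f) • v)
    linear_combination h1 - h2
  · intro f
    have h0 := Dual2_cob_cob R 2 f
    rw [hk, hp2 _ h0, hTh2, zero_smul, add_zero]
    refine (hg1 _ _ ?_).symm
    rw [hq, hp2 _ h0, hTh2, zero_smul, sub_zero]

theorem dual_functional (R : FPRes N) (h : Dual3 R) (chi : N →* Kˣ) (hne : ∃ g, chi g ≠ 1)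
    (hP : Prin chi⁻¹) (i : ℕ) (hi : 1 ≤ i) (g : Coch R (i + 1) →+ K) (hg : Cqf R chi (i + 1) g)
    (hz : ∀ f, g (cob R i f) = 0) :
    ∃ k : Coch R (i + 2) →+ K, Cqf R chi (i + 2) k ∧ ∀ f, g f = k (cob R (i + 1) f) := by
  obtain ⟨tau, ht, hc⟩ := contraction R h
  let p : Coch R 3 →+ Coch R 3 := AddMonoidHom.id _ - (tau 3).comp (cob R 3)
  have hpd : ∀ f, p f = f - tau 3 (cob R 3 f) := fun f => rfl
  have hp : ∀ f, cob R 3 (p f) = 0 := by
    intro f
    have h1 := hc 3 le_rfl (cob R 3 f)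
    rw [Dual2_cob_cob, map_zero, add_zero] at h1
    rw [hpd, map_sub, h1, sub_self]
  have hp2 : ∀ f, cob R 3 f = 0 → p f = f := by
    intro f hf
    rw [hpd, hf, map_zero, sub_zero]
  have hp3 : ∀ a f, p (rt R 3 a f) = rt R 3 a (p f) := by
    intro a f
    rw [hpd, hpd, Dual2_cob_rt, ht, Dual2_rt_sub]
  rcases (by omega : i = 1 ∨ i = 2 ∨ 3 ≤ i) with rfl | rfl | h3
  · exact Dual2_caseC R h chi hP p hp hp2 hp3 g hg hz
  · have hB := Dual2_caseB R h chi hne p hp hp2 g hg hz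
    refine Dual2_caseA R chi 2 tau ht g hg ?_
    intro f
    have h1 := hB (p f) (hp f)
    rw [hpd, map_sub] at h1
    exact sub_eq_zero.1 h1
  · refine Dual2_caseA R chi i tau ht g hg ?_
    intro f
    have h1 := congrArg g (hc i h3 f)
    rw [map_add, hz, zero_add] at h1
    exact h1.symm

end Pool.Agent.helper81.PD
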