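import Pool.Agent.helper81.PD.Dual2

/-! # PDS-Dual3: duality: the complex of equivariant functionals is exact -/

namespace Pool.Agent.helper81.PD

variable {N : Type} [Group N] {K : Type} [Field K] [Algebra (ZMod 2) K]

/-- the ring homomorphism `ℤ[N] → K` given by the character -/
noncomputable def Dual3_rh (chi : N →* Kˣ) : MonoidAlgebra ℤ N →+* K :=
  (MonoidAlgebra.lift ℤ K N ((Units.coeHom K).comp chi)).toRingHom

theorem Dual3_rh_of (chi : N →* Kˣ) (n : N) :
    Dual3_rh chi (MonoidAlgebra.of ℤ N n) = (chi n : K) :=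
  MonoidAlgebra.lift_of _ n

theorem Dual3_smul (R : FPRes N) (chi : N →* Kˣ) (i : ℕ) (c : R.P i →+ K)
    (hc : IEqf R chi i c) (a : MonoidAlgebra ℤ N) (x : R.P i) :
    c (a • x) = Dual3_rh chi a * c x := by
  induction a using MonoidAlgebra.induction_on with
  | of g =>
    rw [Dual3_rh_of]
    exact hc g x
  | add a b ha hb => rw [add_smul, map_add, ha, hb, map_add, add_mul]
  | smul r a ha =>
    rw [smul_assoc, map_zsmul, ha, map_zsmul, zsmul_eq_mul, zsmul_eq_mul, mul_assoc]

theorem Dual3_rt (R : FPRes N) (chi : N →* Kˣ) (i : ℕ) (k : Coch R i →+ K)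
    (hk : Cqf R chi i k) (a : MonoidAlgebra ℤ N) (f : Coch R i) :
    k (rt R i a f) = Dual3_rh chi a * k f := by
  induction a using MonoidAlgebra.induction_on with
  | of g =>
    rw [Dual3_rh_of]
    exact hk g f
  | add a b ha hb =>
    have e : rt R i (a + b) f = rt R i a f + rt R i b f := by
      ext x
      simp only [rt_apply, LinearMap.add_apply, mul_add]
    rw [e, map_add, ha, hb, map_add, add_mul]
  | smul r a ha =>
    have e : rt R i (r • a) f = r • rt R i a f := by
      ext x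
      rw [rt_apply, LinearMap.smul_apply, rt_apply, mul_smul_comm]
    rw [e, map_zsmul, ha, map_zsmul, zsmul_eq_mul, zsmul_eq_mul, mul_assoc]

/-- the equivariant functional given by a cochain -/
noncomputable def Dual3_c (R : FPRes N) (chi : N →* Kˣ) (i : ℕ) (f : Coch R i) : R.P i →+ K :=
  (Dual3_rh chi).toAddMonoidHom.comp f.toAddMonoidHom

theorem Dual3_c_apply (R : FPRes N) (chi : N →* Kˣ) (i : ℕ) (f : Coch R i) (x : R.P i) :
    Dual3_c R chi i f x = Dual3_rh chi (f x) := rfl

theorem Dual3_c_eqf (R : FPRes N) (chi : N →* Kˣ) (i : ℕ) (f : Coch R i) :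
    IEqf R chi i (Dual3_c R chi i f) := by
  intro g x
  rw [Dual3_c_apply, Dual3_c_apply, act, map_smul, smul_eq_mul, map_mul, Dual3_rh_of]

/-- the degrees `≥ 2` -/
theorem Dual3_high (R : FPRes N) (h : Dual3 R) (chi : N →* Kˣ) (hne : ∃ g, chi g ≠ 1)
    (hP' : Prin chi⁻¹) (i : ℕ) (hi : 1 ≤ i) (c : R.P (i + 1) →+ K)
    (hc : IEqf R chi (i + 1) c) (hz : ∀ y, c (R.d (i + 1) y) = 0) :
    ∃ b : R.P i →+ K, IEqf R chi i b ∧ ∀ x, c x = b (R.d i x) := by
  let Im : Submodule K (R.P (i + 1) → K) :=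
    { carrier := {c' | ∃ b : R.P i →+ K, IEqf R chi i b ∧ ∀ x, c' x = b (R.d i x)}
      add_mem' := by
        rintro a b ⟨a', ha, ha'⟩ ⟨b', hb, hb'⟩
        refine ⟨a' + b', fun g x => ?_, fun x => ?_⟩
        · rw [AddMonoidHom.add_apply, AddMonoidHom.add_apply, ha g x, hb g x, mul_add]
        · rw [Pi.add_apply, AddMonoidHom.add_apply, ha' x, hb' x]
      zero_mem' := ⟨0, fun g x => by simp, fun x => rfl⟩
      smul_mem' := by
        rintro r a ⟨a', ha, ha'⟩
        refine ⟨(AddMonoidHom.mulLeft r).comp a', fun g x => ?_, fun x => ?_⟩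
        · rw [AddMonoidHom.comp_apply, AddMonoidHom.comp_apply, ha g x,
            AddMonoidHom.coe_mulLeft]
          ring
        · rw [Pi.smul_apply, smul_eq_mul, ha' x]
          rfl }
  by_cases hmem : (fun x => c x) ∈ Im
  · exact hmem
  exfalso
  obtain ⟨l, hl1, hl2⟩ := Submodule.exists_dual_map_eq_bot_of_notMem hmem inferInstance
  have hl0 : ∀ w ∈ Im, l w = 0 := by
    intro w hw
    have : l w ∈ Im.map l := Submodule.mem_map_of_mem hw
    rw [hl2] at this
    exact (Submodule.mem_bot K).mp this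
  -- the functional on the cochains
  let g : Coch R (i + 1) →+ K :=
    { toFun := fun f => l (fun x => Dual3_c R chi (i + 1) f x)
      map_zero' := by
        have : (fun x => Dual3_c R chi (i + 1) (0 : Coch R (i + 1)) x) = 0 := by
          funext x
          rw [Dual3_c_apply, LinearMap.zero_apply, map_zero]
          rfl
        rw [this, map_zero]
      map_add' := fun a b => by
        rw [← map_add]
        congr 1
        funext x
        rw [Pi.add_apply, Dual3_c_apply, Dual3_c_apply, Dual3_c_apply, LinearMap.add_apply,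
          map_add] }
  have hgdef : ∀ f, g f = l (fun x => Dual3_c R chi (i + 1) f x) := fun f => rfl
  have hg : Cqf R chi (i + 1) g := by
    intro n f
    rw [hgdef, hgdef]
    have e : (fun x => Dual3_c R chi (i + 1) (rt R (i + 1) (MonoidAlgebra.of ℤ N n) f) x)
        = (chi n : K) • (fun x => Dual3_c R chi (i + 1) f x) := by
      funext x
      rw [Dual3_c_apply, rt_apply, map_mul, Dual3_rh_of, Pi.smul_apply, smul_eq_mul,
        Dual3_c_apply, mul_comm]
    rw [e, map_smul, smul_eq_mul]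
  have hg0 : ∀ f, g (cob R i f) = 0 := by
    intro f
    rw [hgdef]
    exact hl0 _ ⟨Dual3_c R chi i f, Dual3_c_eqf R chi i f, fun x => rfl⟩
  obtain ⟨k, hk, hgk⟩ := dual_functional R h chi hne hP' i hi g hg hg0
  obtain ⟨m1, x1, f1, h1⟩ := dual_basis R (i + 1)
  obtain ⟨m2, x2, f2, h2⟩ := dual_basis R (i + 2)
  have e1 : (fun x => c x) = ∑ j, c (x1 j) • (fun x => Dual3_c R chi (i + 1) (f1 j) x) := by
    funext x
    rw [Finset.sum_apply]
    conv_lhs => rw [h1 x]
    rw [map_sum]
    refine Finset.sum_congr rfl fun j _ => ?_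
    rw [Dual3_smul R chi (i + 1) c hc, Pi.smul_apply, smul_eq_mul, Dual3_c_apply, mul_comm]
  have e2 : ∀ F : Coch R (i + 2), F = ∑ m, rt R (i + 2) (F (x2 m)) (f2 m) := by
    intro F
    ext1 y
    rw [LinearMap.sum_apply]
    conv_lhs => rw [h2 y]
    rw [map_sum]
    exact Finset.sum_congr rfl fun m _ => by rw [map_smul, rt_apply, smul_eq_mul]
  have e3 : ∀ j, k (cob R (i + 1) (f1 j))
      = ∑ m, Dual3_rh chi (f1 j (R.d (i + 1) (x2 m))) * k (f2 m) := by
    intro j
    conv_lhs => rw [e2 (cob R (i + 1) (f1 j))]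
    rw [map_sum]
    exact Finset.sum_congr rfl fun m _ => Dual3_rt R chi (i + 2) k hk _ _
  apply hl1
  rw [e1, map_sum]
  have e4 : ∀ j, l (c (x1 j) • (fun x => Dual3_c R chi (i + 1) (f1 j) x))
      = ∑ m, c (x1 j) * (Dual3_rh chi (f1 j (R.d (i + 1) (x2 m))) * k (f2 m)) := by
    intro j
    rw [map_smul, smul_eq_mul, ← hgdef, hgk, e3, Finset.mul_sum]
  rw [Finset.sum_congr rfl fun j _ => e4 j, Finset.sum_comm]
  refine Finset.sum_eq_zero fun m _ => ?_
  have e5 : c (R.d (i + 1) (x2 m))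
      = ∑ j, Dual3_rh chi (f1 j (R.d (i + 1) (x2 m))) * c (x1 j) := by
    conv_lhs => rw [h1 (R.d (i + 1) (x2 m))]
    rw [map_sum]
    exact Finset.sum_congr rfl fun j _ => Dual3_smul R chi (i + 1) c hc _ _
  have e6 : ∑ j, c (x1 j) * (Dual3_rh chi (f1 j (R.d (i + 1) (x2 m))) * k (f2 m))
      = c (R.d (i + 1) (x2 m)) * k (f2 m) := by
    rw [e5, Finset.sum_mul]
    exact Finset.sum_congr rfl fun j _ => by ring
  rw [e6, hz, zero_mul]

theorem Dual3_eps_act (R : FPRes N) (g : N) (x : R.P 0) : R.eps (act R 0 g x) = R.eps x :=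
  R.eps_smul g x

theorem Dual3_zero (R : FPRes N) (chi : N →* Kˣ) (hne : ∃ g, chi g ≠ 1)
    (c : R.P 0 →+ K) (hc : IEqf R chi 0 c) (hz : ∀ y, c (R.d 0 y) = 0) : c = 0 := by
  obtain ⟨p0, hp0⟩ := R.eps_surj 1
  have key : ∀ x, R.eps x = 0 → c x = 0 := by
    intro x hx
    obtain ⟨y, rfl⟩ := (R.exact_zero x).mp hx
    exact hz y
  have hform : ∀ x, c x = (R.eps x : ℤ) • c p0 := by
    intro x
    have h1 : R.eps (x - (R.eps x : ℤ) • p0) = 0 := by
      rw [map_sub, map_zsmul, hp0, smul_eq_mul, mul_one, sub_self]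
    have h2 := key _ h1
    rw [map_sub, map_zsmul, sub_eq_zero] at h2
    exact h2
  have hcp : c p0 = 0 := by
    obtain ⟨g, hg⟩ := hne
    have h1 := hc g p0
    have h2 := hform (act R 0 g p0)
    rw [Dual3_eps_act, hp0, one_smul] at h2
    rw [h2] at h1
    have h3 : ((chi g : K) - 1) * c p0 = 0 := by
      rw [sub_mul, one_mul, ← h1, sub_self]
    rcases mul_eq_zero.mp h3 with h4 | h4
    · exfalso
      apply hg
      apply Units.ext
      rw [Units.val_one]
      exact sub_eq_zero.mp h4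
    · exact h4
  ext x
  rw [hform x, hcp, smul_zero, AddMonoidHom.zero_apply]

theorem Dual3_one (R : FPRes N) (chi : N →* Kˣ) (hP : Prin chi)
    (c : R.P 1 →+ K) (hc : IEqf R chi 1 c) (hz : ∀ y, c (R.d 1 y) = 0) :
    ∃ b : R.P 0 →+ K, IEqf R chi 0 b ∧ ∀ x, c x = b (R.d 0 x) := by
  obtain ⟨p0, hp0⟩ := R.eps_surj 1
  have hwd : ∀ x y : R.P 1, R.d 0 x = R.d 0 y → c x = c y := by
    intro x y hxy
    have h1 : R.d 0 (x - y) = 0 := by rw [map_sub, hxy, sub_self]
    obtain ⟨z, hz'⟩ := (R.exact_succ 0 (x - y)).mp h1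
    have h2 := hz z
    rw [hz', map_sub, sub_eq_zero] at h2
    exact h2
  have hex : ∀ z : R.P 0, ∃ y : R.P 1, R.d 0 y = z - (R.eps z : ℤ) • p0 := by
    intro z
    refine (R.exact_zero _).mp ?_
    rw [map_sub, map_zsmul, hp0, smul_eq_mul, mul_one, sub_self]
  choose Y hY using hex
  have hYadd : ∀ z w, c (Y (z + w)) = c (Y z) + c (Y w) := by
    intro z w
    rw [← map_add]
    apply hwd
    rw [map_add, hY, hY, hY, map_add, add_smul]
    abel
  have hcd : ∀ (g : N) (y : R.P 1), R.d 0 (act R 1 g y) = act R 0 g (R.d 0 y) := fun g y =>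
    map_smul (R.d 0) _ y
  -- the derivation
  let D : N → K := fun g => c (Y (act R 0 g p0))
  have hYact : ∀ g z, c (Y (act R 0 g z)) = (chi g : K) * c (Y z) + R.eps z • D g := by
    intro g z
    rw [← hc g (Y z), ← map_zsmul, ← map_add]
    apply hwd
    have ea : ∀ (a b : R.P 0), act R 0 g (a - b) = act R 0 g a - act R 0 g b := fun a b =>
      smul_sub _ _ _
    have eb : ∀ (n : ℤ) (b : R.P 0), act R 0 g (n • b) = n • act R 0 g b := fun n b =>
      smul_comm _ _ _
    rw [hY, map_add, hcd, hY, map_zsmul, hY, Dual3_eps_act, Dual3_eps_act, hp0, one_smul, ea, eb,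
      smul_sub]
    abel
  have hactmul : ∀ (g h : N) (x : R.P 0), act R 0 (g * h) x = act R 0 g (act R 0 h x) := by
    intro g h x
    unfold act
    rw [map_mul, mul_smul]
  obtain ⟨v, hv⟩ := hP D (fun g h => by
    have e := hYact g (act R 0 h p0)
    rw [← hactmul, Dual3_eps_act, hp0, one_smul] at e
    change c (Y (act R 0 (g * h) p0)) = D g + (chi g : K) * c (Y (act R 0 h p0))
    rw [e, add_comm])
  refine ⟨{ toFun := fun z => c (Y z) + (R.eps z : ℤ) • v, map_zero' := ?_, map_add' := ?_ },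
    ?_, ?_⟩
  · have h1 := hYadd 0 0
    rw [add_zero] at h1
    have h2 : c (Y 0) = 0 := by
      have := sub_eq_zero.mpr h1
      simpa using this
    rw [h2, map_zero, zero_smul, add_zero]
  · intro z w
    rw [hYadd, map_add, add_smul]
    abel
  · intro g x
    change c (Y (act R 0 g x)) + (R.eps (act R 0 g x) : ℤ) • v
      = (chi g : K) * (c (Y x) + (R.eps x : ℤ) • v)
    rw [hYact, Dual3_eps_act, hv, mul_add]
    simp only [zsmul_eq_mul]
    ring
  · intro x
    change c x = c (Y (R.d 0 x)) + (R.eps (R.d 0 x) : ℤ) • v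
    have h1 : R.eps (R.d 0 x) = 0 := (R.exact_zero _).mpr ⟨x, rfl⟩
    rw [h1, zero_smul, add_zero]
    apply hwd
    rw [hY, h1, zero_smul, sub_zero]

theorem dual_exact (R : FPRes N) (h : Dual3 R) (chi : N →* Kˣ) (hne : ∃ g, chi g ≠ 1)
    (hP : Prin chi) (hP' : Prin chi⁻¹) : IEx R chi := by
  refine ⟨fun c hc hz => Dual3_zero R chi hne c hc hz, fun i c hc hz => ?_⟩
  rcases Nat.eq_zero_or_pos i with rfl | hi
  · exact Dual3_one R chi hP c hc hz
  · exact Dual3_high R h chi hne hP' i hi c hc hz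

end Pool.Agent.helper81.PD
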