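import Pool.Agent.helper81.PD.Lift
import Pool.Agent.helper81.PD.Defs2

/-! # PDS-ExPrin: if the complex of equivariant functionals is exact then all derivations are
principal -/

namespace Pool.Agent.helper81.PD

variable {G : Type} [Group G] {P : Type} [AddCommGroup P] [Module (ZMod 2) P]
  {K : Type} [Field K] [Algebra (ZMod 2) K]

/-- a functional which is equivariant up to a derivation -/
theorem ExPrin_functional (C : Cx P) (rho : G →* Module.End (ZMod 2) P) (hA : Act C rho)
    (chi : G →* Kˣ) (D : G → K) (hD : ∀ g h, D (g * h) = D g + (chi g : K) * D h) :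
    ∃ f : P →ₗ[ZMod 2] K, ∀ g x, f (rho g x) = (chi g : K) * f x + C.eps x • D g := by
  obtain ⟨T, inst, hfree, i, r, hi, hr, hri⟩ := hA.pl
  obtain ⟨p, c, hc, hp, hcg⟩ := Lift_rep (G := G) hfree
  let φ : T → K := fun t => C.eps (r (Finsupp.single t 1)) • D (c t)
  let Φ : (T →₀ ZMod 2) →ₗ[ZMod 2] K := Finsupp.linearCombination (ZMod 2) φ
  have hφ : ∀ (g : G) (t : T), φ (g • t) = (chi g : K) * φ t +
      C.eps (r (Finsupp.single t 1)) • D g := by
    intro g t
    change C.eps (r (Finsupp.single (g • t) 1)) • D (c (g • t)) = _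
    have h1 : Finsupp.single (g • t) (1 : ZMod 2) =
        Finsupp.mapDomain (fun t => g • t) (Finsupp.single t 1) := by
      rw [Finsupp.mapDomain_single]
    rw [h1, hr, hA.eps, hcg, hD, smul_add, add_comm, mul_smul_comm]
  have hΦ : ∀ (g : G) (z : T →₀ ZMod 2),
      Φ (Finsupp.mapDomain (fun t => g • t) z) = (chi g : K) * Φ z + C.eps (r z) • D g := by
    intro g z
    induction z using Finsupp.induction_linear with
    | zero => simp
    | add z w hz hw =>
      rw [Finsupp.mapDomain_add, map_add, hz, hw, map_add, map_add, map_add, add_smul]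
      ring
    | single t k =>
      rw [Finsupp.mapDomain_single]
      change Finsupp.linearCombination (ZMod 2) φ (Finsupp.single (g • t) k) =
        (chi g : K) * (Finsupp.linearCombination (ZMod 2) φ (Finsupp.single t k)) + _
      rw [Finsupp.linearCombination_single, Finsupp.linearCombination_single, hφ]
      have h1 : Finsupp.single t k = k • Finsupp.single t (1 : ZMod 2) := by
        rw [Finsupp.smul_single, smul_eq_mul, mul_one]
      rw [h1, map_smul, map_smul, smul_add, smul_assoc]
      simp only [φ, mul_smul_comm]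
  refine ⟨Φ.comp i, fun g x => ?_⟩
  rw [LinearMap.comp_apply, LinearMap.comp_apply, hi, hΦ, hri]

theorem prin_of_Ex (C : Cx P) (rho : G →* Module.End (ZMod 2) P) (hA : Act C rho)
    (chi : G →* Kˣ) (hE : Ex C rho chi) : Prin chi := by
  intro D hD
  obtain ⟨f, hf⟩ := ExPrin_functional C rho hA chi D hD
  obtain ⟨b, hb, hfb⟩ := hE (f.comp C.del) (by
    intro g x
    rw [LinearMap.comp_apply, LinearMap.comp_apply, hA.del, hf, C.eps_del, zero_smul,
      add_zero]) (by
    intro x
    rw [LinearMap.comp_apply, C.del_del, map_zero])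
  have h1 : ∀ x, f (C.del x) = b (C.del x) := fun x => hfb x
  have h2 : (2 : K) = 0 := by
    have h3 := (algebraMap (ZMod 2) K).map_add 1 1
    have h4 : (1 : ZMod 2) + 1 = 0 := by decide
    rw [h4, map_zero, map_one] at h3
    rw [← one_add_one_eq_two]
    exact h3.symm
  refine ⟨b C.pt - f C.pt, fun g => ?_⟩
  have h3 := C.contr (rho g C.pt)
  have h4 : C.del (rho g C.pt) = 0 := by rw [hA.del, C.del_pt, map_zero]
  rw [h4, map_zero, add_zero, hA.eps, C.eps_pt, one_smul] at h3
  have h5 := h1 (C.s (rho g C.pt))
  rw [h3, map_add, map_add, hf, hb, C.eps_pt, one_smul] at h5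
  linear_combination h5 + (b C.pt - f C.pt) * h2

end Pool.Agent.helper81.PD
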