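import Pool.Agent.helper81.PD.Defs2

/-! # PDS-Fp2: the group is finitely generated, and derivations are given by finitely many conditions -/

namespace Pool.Agent.helper81.PD

variable {N : Type} [Group N]

/-- the augmentation -/
noncomputable def Fp2_aug (N : Type) [Group N] : MonoidAlgebra ℤ N →ₐ[ℤ] ℤ :=
  MonoidAlgebra.lift ℤ ℤ N (1 : N →* ℤ)

theorem Fp2_aug_of (g : N) : Fp2_aug N (MonoidAlgebra.of ℤ N g) = 1 := by
  rw [Fp2_aug, MonoidAlgebra.lift_of]; rfl

/-- the augmentation ideal -/
noncomputable abbrev Fp2_I (N : Type) [Group N] : Submodule (MonoidAlgebra ℤ N) (MonoidAlgebra ℤ N) :=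
  Submodule.span (MonoidAlgebra ℤ N) (Set.range (fun g : N => MonoidAlgebra.of ℤ N g - 1))

theorem Fp2_sub_mem (a : MonoidAlgebra ℤ N) :
    a - algebraMap ℤ (MonoidAlgebra ℤ N) (Fp2_aug N a) ∈ Fp2_I N := by
  induction a using MonoidAlgebra.induction_on with
  | of g =>
    rw [Fp2_aug_of, map_one]
    exact Submodule.subset_span ⟨g, rfl⟩
  | add x y hx hy =>
    have := Submodule.add_mem _ hx hy
    convert this using 1
    rw [map_add, map_add]; abel
  | smul r x hx =>
    have := Submodule.smul_mem _ (algebraMap ℤ (MonoidAlgebra ℤ N) r) hx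
    convert this using 1
    rw [map_smul, smul_eq_mul, map_mul, smul_eq_mul, mul_sub, Algebra.smul_def]

theorem Fp2_mem (a : MonoidAlgebra ℤ N) : a ∈ Fp2_I N ↔ Fp2_aug N a = 0 := by
  constructor
  · intro h
    induction h using Submodule.span_induction with
    | mem x hx =>
      obtain ⟨g, rfl⟩ := hx
      simp only
      rw [map_sub, Fp2_aug_of, map_one, sub_self]
    | zero => exact map_zero _
    | add x y _ _ hx hy => rw [map_add, hx, hy, add_zero]
    | smul b x _ hx => rw [smul_eq_mul, map_mul, hx, mul_zero]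
  · intro h
    have := Fp2_sub_mem a
    rwa [h, map_zero, sub_zero] at this

theorem Fp2_eps_smul (R : FPRes N) (a : MonoidAlgebra ℤ N) (x : R.P 0) :
    R.eps (a • x) = Fp2_aug N a * R.eps x := by
  induction a using MonoidAlgebra.induction_on with
  | of g => rw [R.eps_smul, Fp2_aug_of, one_mul]
  | add a b ha hb => rw [add_smul, map_add, ha, hb, map_add, add_mul]
  | smul r a ha =>
    rw [smul_assoc, map_zsmul, ha, map_smul, smul_eq_mul, smul_eq_mul, mul_assoc]

/-- lift of the augmentation of the resolution -/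
theorem Fp2_th (R : FPRes N) : ∃ th : R.P 0 →ₗ[MonoidAlgebra ℤ N] MonoidAlgebra ℤ N,
    ∀ x, Fp2_aug N (th x) = R.eps x := by
  have := R.proj 0
  let e : R.P 0 →ₗ[MonoidAlgebra ℤ N] (MonoidAlgebra ℤ N ⧸ Fp2_I N) :=
    { toFun := fun x => Submodule.Quotient.mk (algebraMap ℤ (MonoidAlgebra ℤ N) (R.eps x))
      map_add' := fun x y => by rw [map_add, map_add, Submodule.Quotient.mk_add]
      map_smul' := fun a x => by
        rw [RingHom.id_apply, ← Submodule.Quotient.mk_smul, Submodule.Quotient.eq, Fp2_mem,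
          map_sub, smul_eq_mul, map_mul, Fp2_eps_smul, AlgHom.commutes, AlgHom.commutes]
        simp }
  obtain ⟨th, hth⟩ := Module.projective_lifting_property (Submodule.mkQ (Fp2_I N)) e
    (Submodule.mkQ_surjective _)
  refine ⟨th, fun x => ?_⟩
  have h := LinearMap.congr_fun hth x
  have h2 : (Submodule.Quotient.mk (th x) : MonoidAlgebra ℤ N ⧸ Fp2_I N) =
    Submodule.Quotient.mk (algebraMap ℤ (MonoidAlgebra ℤ N) (R.eps x)) := h
  rw [Submodule.Quotient.eq, Fp2_mem, map_sub, AlgHom.commutes] at h2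
  have h3 : algebraMap ℤ ℤ (R.eps x) = R.eps x := rfl
  rw [h3] at h2
  linarith

/-- the kernel of the augmentation is finitely presented -/
theorem Fp2_ker (R : FPRes N) :
    Module.FinitePresentation (MonoidAlgebra ℤ N) (LinearMap.range (R.d 0)) := by
  have h0 := R.fin 1
  have h1 := R.proj 1
  have h2 := R.fin 2
  have h3 : Module.FinitePresentation (MonoidAlgebra ℤ N) (R.P 1) :=
    Module.finitePresentation_of_projective _ _
  refine Module.finitePresentation_of_surjective (R.d 0).rangeRestrict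
    (LinearMap.surjective_rangeRestrict _) ?_
  rw [LinearMap.ker_rangeRestrict]
  have h4 : LinearMap.ker (R.d 0) = LinearMap.range (R.d 1) := by
    ext x
    rw [LinearMap.mem_ker, LinearMap.mem_range]
    exact R.exact_succ 0 x
  rw [h4]
  exact Module.Finite.fg_top.map (R.d 1) |> fun h => by rwa [Submodule.map_top] at h

/-- a retract of a finitely presented module is finitely presented -/
theorem Fp2_retract {A : Type} [Ring A] {M L : Type} [AddCommGroup M] [AddCommGroup L]
    [Module A M] [Module A L] [Module.FinitePresentation A M] (i : L →ₗ[A] M) (p : M →ₗ[A] L)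
    (h : ∀ x, p (i x) = x) : Module.FinitePresentation A L := by
  refine Module.finitePresentation_of_surjective p (fun x => ⟨i x, h x⟩) ?_
  have h4 : LinearMap.ker p = LinearMap.range (LinearMap.id - i.comp p) := by
    ext x
    rw [LinearMap.mem_ker, LinearMap.mem_range]
    constructor
    · intro hx
      exact ⟨x, by simp [hx]⟩
    · rintro ⟨y, rfl⟩
      simp [h]
  rw [h4]
  exact Module.Finite.fg_top.map (LinearMap.id - i.comp p) |>
    fun h => by rwa [Submodule.map_top] at h

/-- finite presentation of the augmentation ideal -/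
theorem fp_aug (R : FPRes N) : Module.FinitePresentation (MonoidAlgebra ℤ N)
    (Submodule.span (MonoidAlgebra ℤ N)
      (Set.range (fun g : N => MonoidAlgebra.of ℤ N g - 1))) := by
  obtain ⟨p0, hp0⟩ := R.eps_surj 1
  obtain ⟨th, hth⟩ := Fp2_th R
  have hker := Fp2_ker R
  have hR : ∀ x : R.P 0, x ∈ LinearMap.range (R.d 0) ↔ R.eps x = 0 := fun x => by
    rw [LinearMap.mem_range]; exact (R.exact_zero x).symm
  have hj : th p0 - 1 ∈ Fp2_I N := by
    rw [Fp2_mem, map_sub, hth, hp0, map_one, sub_self]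
  let i : Fp2_I N →ₗ[MonoidAlgebra ℤ N]
      (LinearMap.range (R.d 0) × MonoidAlgebra ℤ N) :=
    LinearMap.prod
      (LinearMap.codRestrict (LinearMap.range (R.d 0))
        ((LinearMap.toSpanSingleton (MonoidAlgebra ℤ N) (R.P 0) p0).comp (Fp2_I N).subtype)
        (fun x => by
          rw [hR, LinearMap.comp_apply, LinearMap.toSpanSingleton_apply, Fp2_eps_smul]
          have := (Fp2_mem x.1).1 x.2
          rw [Submodule.subtype_apply, this, zero_mul]))
      (-(Fp2_I N).subtype)
  let p : (LinearMap.range (R.d 0) × MonoidAlgebra ℤ N) →ₗ[MonoidAlgebra ℤ N] Fp2_I N :=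
    LinearMap.coprod
      (LinearMap.codRestrict (Fp2_I N) (th.comp (LinearMap.range (R.d 0)).subtype)
        (fun x => by
          rw [Fp2_mem, LinearMap.comp_apply, hth]
          exact (hR _).1 x.2))
      (LinearMap.toSpanSingleton (MonoidAlgebra ℤ N) (Fp2_I N) ⟨th p0 - 1, hj⟩)
  refine Fp2_retract i p (fun x => ?_)
  apply Subtype.ext
  have h1 : ((p (i x) : Fp2_I N) : MonoidAlgebra ℤ N) =
    th ((x : MonoidAlgebra ℤ N) • p0) + (-(x : MonoidAlgebra ℤ N)) • (th p0 - 1) := rfl
  rw [h1, map_smul, smul_eq_mul, smul_eq_mul]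
  noncomm_ring

/-- elements of the closure -/
theorem Fp2_clos (X : Set N) (W : Submodule (MonoidAlgebra ℤ N) (MonoidAlgebra ℤ N))
    (h : ∀ x ∈ X, MonoidAlgebra.of ℤ N x - 1 ∈ W) (g : N) (hg : g ∈ Subgroup.closure X) :
    MonoidAlgebra.of ℤ N g - 1 ∈ W := by
  induction hg using Subgroup.closure_induction with
  | mem x hx => exact h x hx
  | one => rw [map_one, sub_self]; exact W.zero_mem
  | mul x y _ _ hx hy =>
    have := W.add_mem hx (W.smul_mem (MonoidAlgebra.of ℤ N x) hy)
    convert this using 1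
    rw [map_mul, smul_eq_mul]; noncomm_ring
  | inv x _ hx =>
    have := W.neg_mem (W.smul_mem (MonoidAlgebra.of ℤ N x⁻¹) hx)
    convert this using 1
    rw [smul_eq_mul, mul_sub, ← map_mul, inv_mul_cancel, map_one]; noncomm_ring

theorem Fp2_stab (H : Subgroup N) (g : N)
    (hg : MonoidAlgebra.of ℤ N g - 1 ∈ Submodule.span (MonoidAlgebra ℤ N)
      ((fun x : N => MonoidAlgebra.of ℤ N x - 1) '' (H : Set N))) : g ∈ H := by
  let rho : N →* Module.End ℤ ((N ⧸ H) →₀ ℤ) :=
    { toFun := fun g => Finsupp.lmapDomain ℤ ℤ (fun t => g • t)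
      map_one' := by ext; simp
      map_mul' := fun a b => by ext; simp [mul_smul] }
  have key : ∀ a ∈ Submodule.span (MonoidAlgebra ℤ N)
      ((fun x : N => MonoidAlgebra.of ℤ N x - 1) '' (H : Set N)),
      MonoidAlgebra.lift ℤ (Module.End ℤ ((N ⧸ H) →₀ ℤ)) N rho a
        (Finsupp.single ((1 : N) : N ⧸ H) 1) = 0 := by
    intro a ha
    induction ha using Submodule.span_induction with
    | mem x hx =>
      obtain ⟨y, hy, rfl⟩ := hx
      have h1 : rho y (Finsupp.single ((1 : N) : N ⧸ H) 1) = Finsupp.single ((1 : N) : N ⧸ H) 1 := by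
        have h2 : y • ((1 : N) : N ⧸ H) = ((1 : N) : N ⧸ H) := by
          have h3 : y • ((1 : N) : N ⧸ H) = ((y * 1 : N) : N ⧸ H) := rfl
          rw [h3, mul_one, QuotientGroup.eq]
          simpa using hy
        change Finsupp.lmapDomain ℤ ℤ (fun t => y • t) _ = _
        rw [Finsupp.lmapDomain_apply, Finsupp.mapDomain_single, h2]
      simp only
      rw [map_sub, MonoidAlgebra.lift_of, map_one, LinearMap.sub_apply, h1, Module.End.one_apply,
        sub_self]
    | zero => rw [map_zero]; rfl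
    | add x y _ _ hx hy => rw [map_add, LinearMap.add_apply, hx, hy, add_zero]
    | smul b x _ hx => rw [smul_eq_mul, map_mul, Module.End.mul_apply, hx, map_zero]
  have h := key _ hg
  rw [map_sub, MonoidAlgebra.lift_of, map_one, LinearMap.sub_apply, Module.End.one_apply,
    sub_eq_zero] at h
  change Finsupp.lmapDomain ℤ ℤ (fun t => g • t) _ = _ at h
  rw [Finsupp.lmapDomain_apply, Finsupp.mapDomain_single] at h
  have h2 := Finsupp.single_left_injective (one_ne_zero) h
  have h3 : g • ((1 : N) : N ⧸ H) = ((g * 1 : N) : N ⧸ H) := rfl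
  rw [h3, mul_one, QuotientGroup.eq] at h2
  simpa using h2

theorem fg_of_FPRes (R : FPRes N) : Group.FG N := by
  have h := fp_aug R
  have h2 : (Submodule.span (MonoidAlgebra ℤ N)
      (Set.range (fun g : N => MonoidAlgebra.of ℤ N g - 1))).FG := by
    rw [← Module.Finite.iff_fg]; infer_instance
  rw [Submodule.fg_span_iff_fg_span_finset_subset] at h2
  obtain ⟨s, hs, hs2⟩ := h2
  classical
  choose f hf using fun x : s => hs x.2
  let X : Finset N := Finset.univ.image f
  rw [Group.fg_iff]
  refine ⟨(X : Set N), ?_, X.finite_toSet⟩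
  rw [eq_top_iff]
  intro g _
  apply Fp2_stab
  have h3 : MonoidAlgebra.of ℤ N g - 1 ∈ Submodule.span (MonoidAlgebra ℤ N)
      (Set.range (fun g : N => MonoidAlgebra.of ℤ N g - 1)) := Submodule.subset_span ⟨g, rfl⟩
  rw [hs2] at h3
  refine Submodule.span_mono ?_ h3
  intro x hx
  refine ⟨f ⟨x, hx⟩, Subgroup.subset_closure ?_, hf ⟨x, hx⟩⟩
  simp [X]

/-- the map onto the augmentation ideal -/
noncomputable def Fp2_pi (X : Finset N) : (X → MonoidAlgebra ℤ N) →ₗ[MonoidAlgebra ℤ N] Fp2_I N :=
  LinearMap.codRestrict (Fp2_I N)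
    (∑ x : X, (LinearMap.toSpanSingleton (MonoidAlgebra ℤ N) (MonoidAlgebra ℤ N)
      (MonoidAlgebra.of ℤ N x.1 - 1)).comp (LinearMap.proj x))
    (fun f => by
      rw [LinearMap.sum_apply]
      refine Submodule.sum_mem _ (fun x _ => ?_)
      exact Submodule.smul_mem _ _ (Submodule.subset_span ⟨x.1, rfl⟩))

theorem Fp2_pi_apply (X : Finset N) (f : X → MonoidAlgebra ℤ N) :
    ((Fp2_pi X f : Fp2_I N) : MonoidAlgebra ℤ N) =
      ∑ x : X, f x * (MonoidAlgebra.of ℤ N x.1 - 1) := by
  rw [Fp2_pi, LinearMap.codRestrict_apply, LinearMap.sum_apply]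
  rfl

open Classical in
theorem Fp2_pi_single (X : Finset N) (x : X) :
    ((Fp2_pi X (Pi.single x 1) : Fp2_I N) : MonoidAlgebra ℤ N) =
      MonoidAlgebra.of ℤ N x.1 - 1 := by
  rw [Fp2_pi_apply, Finset.sum_eq_single x]
  · rw [Pi.single_eq_same, one_mul]
  · intro y _ hy
    rw [Pi.single_eq_of_ne hy, zero_mul]
  · intro h; exact absurd (Finset.mem_univ x) h

theorem Fp2_pi_surj (X : Finset N) (hX : Subgroup.closure (X : Set N) = ⊤) :
    Function.Surjective (Fp2_pi X) := by
  classical
  have h : Fp2_I N ≤ LinearMap.range ((Fp2_I N).subtype.comp (Fp2_pi X)) := by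
    rw [Submodule.span_le]
    rintro _ ⟨g, rfl⟩
    refine Fp2_clos (X : Set N) _ (fun x hx => ?_) g (by rw [hX]; trivial)
    exact ⟨Pi.single ⟨x, hx⟩ 1, Fp2_pi_single X ⟨x, hx⟩⟩
  intro y
  obtain ⟨f, hf⟩ := h y.2
  exact ⟨f, Subtype.ext hf⟩

open Classical in
theorem crit (R : FPRes N) (X : Finset N) (hX : Subgroup.closure (X : Set N) = ⊤) :
    ∃ Kap : Finset (N → MonoidAlgebra ℤ N),
      (∀ k ∈ Kap, ∑ x ∈ X, k x * (MonoidAlgebra.of ℤ N x - 1) = 0) ∧
      ∀ (V : Type) [AddCommGroup V] (rho : N →* Module.End ℤ V) (v : N → V),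
        (∀ k ∈ Kap, ∑ x ∈ X, (MonoidAlgebra.lift ℤ (Module.End ℤ V) N rho (k x)) (v x) = 0) →
        ∃ D : N → V, (∀ g h, D (g * h) = D g + rho g (D h)) ∧ ∀ x ∈ X, D x = v x := by
  have hfp := fp_aug R
  obtain ⟨s, hs⟩ := Module.FinitePresentation.fg_ker (Fp2_pi X) (Fp2_pi_surj X hX)
  let ex : (X → MonoidAlgebra ℤ N) → N → MonoidAlgebra ℤ N :=
    fun f x => if h : x ∈ X then f ⟨x, h⟩ else 0
  refine ⟨s.image ex, ?_, ?_⟩
  · intro k hk
    obtain ⟨f, hf, rfl⟩ := Finset.mem_image.1 hk
    have h1 : f ∈ LinearMap.ker (Fp2_pi X) := by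
      rw [← hs]; exact Submodule.subset_span hf
    have h2 := Fp2_pi_apply X f
    rw [LinearMap.mem_ker.1 h1] at h2
    rw [← Finset.sum_coe_sort]
    rw [Submodule.coe_zero] at h2
    rw [h2]
    refine Finset.sum_congr rfl (fun x _ => ?_)
    simp [ex]
  · intro V _ rho v hv
    let L := MonoidAlgebra.lift ℤ (Module.End ℤ V) N rho
    let Psi : (X → MonoidAlgebra ℤ N) → V := fun f => ∑ x : X, (L (f x)) (v x)
    have Psi_add : ∀ f g, Psi (f + g) = Psi f + Psi g := fun f g => by
      simp only [Psi, Pi.add_apply, map_add, LinearMap.add_apply, Finset.sum_add_distrib]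
    have Psi_smul : ∀ (a : MonoidAlgebra ℤ N) f, Psi (a • f) = L a (Psi f) := fun a f => by
      simp only [Psi, Pi.smul_apply, smul_eq_mul, map_mul, Module.End.mul_apply, map_sum]
    have Psi_ker : ∀ f, Fp2_pi X f = 0 → Psi f = 0 := by
      intro f hf
      have h1 : f ∈ Submodule.span (MonoidAlgebra ℤ N) (s : Set (X → MonoidAlgebra ℤ N)) := by
        rw [hs]; exact hf
      clear hf
      induction h1 using Submodule.span_induction with
      | mem f hf =>
        have h2 := hv (ex f) (Finset.mem_image_of_mem _ hf)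
        rw [← Finset.sum_coe_sort] at h2
        rw [← h2]
        refine Finset.sum_congr rfl (fun x _ => ?_)
        simp [ex, L]
      | zero => simp [Psi]
      | add f g _ _ hf hg => rw [Psi_add, hf, hg, add_zero]
      | smul a f _ hf => rw [Psi_smul, hf, map_zero]
    have Psi_eq : ∀ f g, Fp2_pi X f = Fp2_pi X g → Psi f = Psi g := by
      intro f g h
      have h1 : Psi (f - g) = 0 := Psi_ker _ (by rw [map_sub, h, sub_self])
      have h2 := Psi_add (f - g) g
      rw [sub_add_cancel, h1, zero_add] at h2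
      exact h2
    choose F hF using fun g : N => Fp2_pi_surj X hX
      ⟨MonoidAlgebra.of ℤ N g - 1, Submodule.subset_span ⟨g, rfl⟩⟩
    refine ⟨fun g => Psi (F g), fun g h => ?_, fun x hx => ?_⟩
    · have h1 : Psi (F (g * h)) = Psi (F g + MonoidAlgebra.of ℤ N g • F h) := by
        apply Psi_eq
        rw [map_add, map_smul, hF, hF, hF]
        apply Subtype.ext
        simp only [Submodule.coe_add, Submodule.coe_smul, smul_eq_mul]
        rw [map_mul]; noncomm_ring
      simp only
      rw [h1, Psi_add, Psi_smul]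
      congr 2
      exact MonoidAlgebra.lift_of rho g
    · have h1 : Psi (F x) = Psi (Pi.single ⟨x, hx⟩ 1) := by
        apply Psi_eq
        rw [hF]
        apply Subtype.ext
        rw [Fp2_pi_single]
      simp only
      rw [h1]
      simp only [Psi]
      rw [Finset.sum_eq_single ⟨x, hx⟩]
      · rw [Pi.single_eq_same, map_one]; rfl
      · intro y _ hy
        rw [Pi.single_eq_of_ne hy, map_zero]; rfl
      · intro h; exact absurd (Finset.mem_univ _) h

end Pool.Agent.helper81.PD
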