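import Pool.Agent.helper81.PD.Defs3
import Pool.Agent.helper81.PD.Fp2

/-! # PDS-Flux: the flux derivation -/

namespace Pool.Agent.helper81.PD

variable {N : Type} [Group N]

theorem Flux_dg_mul (phi : N →* Multiplicative ℤ) (g h : N) :
    dg phi (g * h) = dg phi g + dg phi h := by
  simp [dg]

theorem Flux_dg_one (phi : N →* Multiplicative ℤ) : dg phi 1 = 0 := by
  simp [dg]

theorem Flux_dg_zpow (phi : N →* Multiplicative ℤ) (g : N) (n : ℤ) :
    dg phi (g ^ n) = n * dg phi g := by
  simp [dg]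

theorem Flux_sgn_add : ∀ x y : ZMod 2, sgn (x + y) = sgn x * sgn y := by
  intro x y
  unfold sgn
  revert x y
  decide

theorem Flux_fold_sh (m : ℕ) (n : ℤ) (a : ℤ →₀ ZMod 2) (i : ZMod m) :
    fold m (sh n a) i = fold m a (i - (n : ZMod m)) := by
  unfold fold sh
  rw [← Finsupp.mapDomain_comp]
  have h : ((fun l : ℤ => (l : ZMod m)) ∘ fun l : ℤ => l + n) =
      (fun x : ZMod m => x + (n : ZMod m)) ∘ fun l : ℤ => (l : ZMod m) := by
    funext l
    simp
  rw [h, Finsupp.mapDomain_comp]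
  have h2 := Finsupp.mapDomain_apply (f := fun x : ZMod m => x + (n : ZMod m))
    (add_left_injective _) (Finsupp.mapDomain (fun l : ℤ => (l : ZMod m)) a) (i - (n : ZMod m))
  simpa using h2

theorem Flux_a_one (phi : N →* Multiplicative ℤ) (a : N → ℤ →₀ ZMod 2) (ha : LDer phi a) :
    a 1 = 0 := by
  have h := ha 1 1
  have h2 : sh (dg phi 1) (a 1) = a 1 := by
    rw [Flux_dg_one]
    unfold sh
    simp only [add_zero]
    exact Finsupp.mapDomain_id
  rw [h2, mul_one] at h
  exact left_eq_add.1 h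

/-- the monomial representation -/
noncomputable def Flux_rho (phi : N →* Multiplicative ℤ) (a : N → ℤ →₀ ZMod 2)
    (ha : LDer phi a) (m : ℕ) : N →* Module.End ℤ (ZMod m → ℤ) where
  toFun g :=
    { toFun := fun f i => sgn (fold m (a g) i) * f (i - (dg phi g : ZMod m))
      map_add' := by
        intro f f'
        funext i
        simp [mul_add]
      map_smul' := by
        intro c f
        funext i
        simp [mul_left_comm] }
  map_one' := by
    apply LinearMap.ext
    intro f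
    funext i
    simp [Flux_a_one phi a ha, Flux_dg_one, fold, sgn]
  map_mul' g h := by
    apply LinearMap.ext
    intro f
    funext i
    have h1 : fold m (a (g * h)) i = fold m (a g) i + fold m (a h) (i - (dg phi g : ZMod m)) := by
      rw [ha g h, ← Flux_fold_sh]
      simp [fold, Finsupp.mapDomain_add]
    simp only [LinearMap.coe_mk, AddHom.coe_mk, Module.End.mul_apply, h1, Flux_sgn_add,
      Flux_dg_mul, Int.cast_add, mul_assoc]
    congr 3
    ring

theorem Flux_rho_apply (phi : N →* Multiplicative ℤ) (a : N → ℤ →₀ ZMod 2)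
    (ha : LDer phi a) (m : ℕ) (g : N) (f : ZMod m → ℤ) (i : ZMod m) :
    Flux_rho phi a ha m g f i = sgn (fold m (a g) i) * f (i - (dg phi g : ZMod m)) := rfl

theorem Flux_rho_single (phi : N →* Multiplicative ℤ) (a : N → ℤ →₀ ZMod 2)
    (ha : LDer phi a) (m : ℕ) (g : N) (s0 : ZMod m)
    (h : fold m (a g) (s0 + (dg phi g : ZMod m)) = 0) :
    Flux_rho phi a ha m g (Pi.single s0 1) = Pi.single (s0 + (dg phi g : ZMod m)) 1 := by
  funext i
  rw [Flux_rho_apply]
  by_cases hi : i = s0 + (dg phi g : ZMod m)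
  · subst hi
    rw [h]
    simp [sgn]
  · have h2 : i - (dg phi g : ZMod m) ≠ s0 := by
      intro h3
      exact hi (by rw [← h3]; ring)
    rw [Pi.single_eq_of_ne h2, Pi.single_eq_of_ne hi, mul_zero]

theorem Flux_zero (c : MonoidAlgebra ℤ (Multiplicative ℤ)) (x : Multiplicative ℤ) (hx : x ≠ 1)
    (h : c * (MonoidAlgebra.of ℤ (Multiplicative ℤ) x - 1) = 0) : c = 0 := by
  rcases mul_eq_zero.1 h with h1 | h1
  · exact h1
  · exfalso
    rw [sub_eq_zero, ← map_one (MonoidAlgebra.of ℤ (Multiplicative ℤ))] at h1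
    exact hx (MonoidAlgebra.of_injective h1)

theorem Flux_lift (phi : N →* Multiplicative ℤ) (a : N → ℤ →₀ ZMod 2)
    (ha : LDer phi a) (m : ℕ) (s0 : ZMod m) (k : MonoidAlgebra ℤ N)
    (hk : MonoidAlgebra.mapDomain phi k = 0)
    (h : ∀ g ∈ k.coeff.support, fold m (a g) (s0 + (dg phi g : ZMod m)) = 0) :
    MonoidAlgebra.lift ℤ (Module.End ℤ (ZMod m → ℤ)) N (Flux_rho phi a ha m) k
      (Pi.single s0 1) = 0 := by
  rw [MonoidAlgebra.lift_apply]
  have h1 : (k.coeff.sum fun g z => z • Flux_rho phi a ha m g) (Pi.single s0 1) =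
      k.coeff.sum fun g z => z • (Pi.single (s0 + (dg phi g : ZMod m)) 1 : ZMod m → ℤ) := by
    unfold Finsupp.sum
    rw [LinearMap.sum_apply]
    refine Finset.sum_congr rfl fun g hg => ?_
    rw [LinearMap.smul_apply, Flux_rho_single phi a ha m g s0 (h g hg)]
  rw [h1]
  have h2 : (Finsupp.mapDomain phi k.coeff).sum (fun n z =>
      z • (Pi.single (s0 + ((Multiplicative.toAdd n : ℤ) : ZMod m)) 1 : ZMod m → ℤ)) =
      k.coeff.sum fun g z => z • (Pi.single (s0 + (dg phi g : ZMod m)) 1 : ZMod m → ℤ) := by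
    rw [Finsupp.sum_mapDomain_index]
    · rfl
    · intro n
      exact zero_smul _ _
    · intro n z z'
      exact add_smul _ _ _
  rw [← h2]
  have h3 : Finsupp.mapDomain phi k.coeff = 0 := by
    have h4 := congrArg MonoidAlgebra.coeff hk
    simpa [MonoidAlgebra.mapDomain] using h4
  rw [h3, Finsupp.sum_zero_index]

theorem Flux_fold_zero (a : ℤ →₀ ZMod 2) (L m : ℕ) (hm : 2 * L < m) (n : ℤ)
    (h : ∀ l ∈ a.support, |l - n| < L) : fold m a ((L : ZMod m) + (n : ZMod m)) = 0 := by
  classical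
  by_contra hne
  have h1 : ((L : ZMod m) + (n : ZMod m)) ∈ (fold m a).support := Finsupp.mem_support_iff.2 hne
  have h2 := Finsupp.mapDomain_support h1
  obtain ⟨l, hl, hl2⟩ := Finset.mem_image.1 h2
  have h3 := h l hl
  have h4 : ((l : ℤ) : ZMod m) = (((L : ℤ) + n : ℤ) : ZMod m) := by
    rw [hl2]
    push_cast
    ring
  rw [ZMod.intCast_eq_intCast_iff_dvd_sub] at h4
  obtain ⟨c, hc⟩ := h4
  rw [abs_lt] at h3
  have h5 : 0 < (m : ℤ) * c := by rw [← hc]; linarith
  have h6 : (m : ℤ) * c < m := by rw [← hc]; omega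
  have hmpos : (0 : ℤ) < m := by omega
  have h7 : 0 < c := by
    by_contra h8
    push Not at h8
    have := mul_nonpos_of_nonneg_of_nonpos hmpos.le h8
    omega
  have h8 : (m : ℤ) ≤ m * c := by
    nlinarith
  omega

theorem Flux_fold_ne (b : ℤ →₀ ZMod 2) (hb : b ≠ 0) (M m : ℕ) (hm : 2 * M < m)
    (h : ∀ l ∈ b.support, |l| ≤ M) : ∃ i, fold m b i ≠ 0 := by
  obtain ⟨l0, hl0⟩ := Finsupp.support_nonempty_iff.2 hb
  refine ⟨(l0 : ZMod m), ?_⟩
  have h1 : fold m b (l0 : ZMod m) = b l0 := by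
    unfold fold
    refine Finsupp.mapDomain_apply' (b.support : Set ℤ) b (le_refl _) ?_ hl0
    intro x hx y hy hxy
    have hx2 := h x hx
    have hy2 := h y hy
    have h4 : ((x : ℤ) : ZMod m) = ((y : ℤ) : ZMod m) := hxy
    rw [ZMod.intCast_eq_intCast_iff_dvd_sub] at h4
    have h5 : y - x = 0 := by
      refine Int.eq_zero_of_abs_lt_dvd h4 ?_
      rw [abs_le] at hx2 hy2
      rw [abs_lt]
      constructor <;> omega
    omega
  rw [h1]
  exact Finsupp.mem_support_iff.1 hl0

theorem exists_flux (R : FPRes N) (phi : N →* Multiplicative ℤ) (t : N) (ht : dg phi t = 1)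
    (a : N → ℤ →₀ ZMod 2) (ha : LDer phi a) (hat : a t = 0) (b : ℤ →₀ ZMod 2) (hb : b ≠ 0) :
    ∃ m : ℕ, 0 < m ∧ (∃ i, fold m b i ≠ 0) ∧
      ∃ (s0 : ZMod m) (D : N → ZMod m → ℤ), Flux phi a m D ∧ D t = Pi.single s0 1 := by
  classical
  obtain ⟨X0, hX0⟩ := (fg_of_FPRes R).1
  set X : Finset N := insert t (X0.image fun x => x * t ^ (-dg phi x)) with hXdef
  have hX : Subgroup.closure (X : Set N) = ⊤ := by
    rw [eq_top_iff, ← hX0, Subgroup.closure_le]
    intro x hx
    have h1 : t ∈ Subgroup.closure (X : Set N) :=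
      Subgroup.subset_closure (by simp [hXdef])
    have h2 : x * t ^ (-dg phi x) ∈ Subgroup.closure (X : Set N) :=
      Subgroup.subset_closure (by
        rw [Finset.mem_coe, hXdef]
        exact Finset.mem_insert_of_mem (Finset.mem_image_of_mem _ hx))
    have h3 := Subgroup.mul_mem _ h2 (Subgroup.zpow_mem _ h1 (dg phi x))
    simpa [mul_assoc] using h3
  have hXdg : ∀ x ∈ X, x ≠ t → dg phi x = 0 := by
    intro x hx hxt
    rw [hXdef, Finset.mem_insert] at hx
    rcases hx with h | h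
    · exact absurd h hxt
    · obtain ⟨y, -, hy⟩ := Finset.mem_image.1 h
      rw [← hy, Flux_dg_mul, Flux_dg_zpow, ht]
      ring
  have htX : t ∈ X := by simp [hXdef]
  obtain ⟨Kap, hK1, hK2⟩ := crit R X hX
  have hphit : phi t ≠ 1 := by
    intro h
    simp [dg, h] at ht
  have hphi0 : ∀ x ∈ X, x ≠ t → phi x = 1 := by
    intro x hx hxt
    have h := hXdg x hx hxt
    exact Multiplicative.toAdd.injective h
  -- the push forward of `k t` is zero
  have hpush : ∀ k ∈ Kap, MonoidAlgebra.mapDomain phi (k t) = 0 := by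
    intro k hk
    have h := congrArg (MonoidAlgebra.mapDomainRingHom ℤ phi) (hK1 k hk)
    rw [map_sum, map_zero] at h
    rw [Finset.sum_eq_single_of_mem t htX] at h
    · rw [map_mul, map_sub, map_one] at h
      refine Flux_zero _ (phi t) hphit ?_
      simpa using h
    · intro x hx hxt
      have h2 : (MonoidAlgebra.mapDomainRingHom ℤ phi)
          (MonoidAlgebra.of ℤ N x - 1) = 0 := by
        rw [map_sub, map_one]
        simp [hphi0 x hx hxt, MonoidAlgebra.one_def]
      rw [map_mul, h2, mul_zero]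
  set G : Finset N := Kap.biUnion fun k => (k t).coeff.support with hG
  set B : Finset ℤ := G.biUnion fun g => (a g).support.image fun l => l - dg phi g with hB
  set L : ℕ := (∑ z ∈ B, z.natAbs) + 1 with hL
  set M : ℕ := ∑ l ∈ b.support, l.natAbs with hM
  have hBL : ∀ z ∈ B, |z| < L := by
    intro z hz
    have h1 : z.natAbs ≤ ∑ z ∈ B, z.natAbs :=
      Finset.single_le_sum (f := fun z : ℤ => z.natAbs) (fun _ _ => Nat.zero_le _) hz
    rw [Int.abs_eq_natAbs]
    omega
  have hbM : ∀ l ∈ b.support, |l| ≤ M := by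
    intro z hz
    have h1 : z.natAbs ≤ ∑ z ∈ b.support, z.natAbs :=
      Finset.single_le_sum (f := fun z : ℤ => z.natAbs) (fun _ _ => Nat.zero_le _) hz
    rw [Int.abs_eq_natAbs]
    omega
  refine ⟨2 * L + 2 * M + 1, by omega, Flux_fold_ne b hb M _ (by omega) hbM, ?_⟩
  refine ⟨((L : ℕ) : ZMod (2 * L + 2 * M + 1)), ?_⟩
  set m : ℕ := 2 * L + 2 * M + 1 with hm
  obtain ⟨D, hD1, hD2⟩ := hK2 (ZMod m → ℤ) (Flux_rho phi a ha m)
    (fun x => if x = t then Pi.single (L : ZMod m) 1 else 0) (by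
      intro k hk
      rw [Finset.sum_eq_single_of_mem t htX]
      · rw [if_pos rfl]
        refine Flux_lift phi a ha m _ (k t) (hpush k hk) ?_
        intro g hg
        refine Flux_fold_zero (a g) L m (by omega) (dg phi g) ?_
        intro l hl
        refine hBL _ ?_
        rw [hB, Finset.mem_biUnion]
        exact ⟨g, by rw [hG, Finset.mem_biUnion]; exact ⟨k, hk, hg⟩,
          Finset.mem_image_of_mem _ hl⟩
      · intro x hx hxt
        rw [if_neg hxt, map_zero])
  refine ⟨D, ?_, ?_⟩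
  · intro g h i
    rw [hD1 g h]
    rfl
  · rw [hD2 t htX, if_pos rfl]

end Pool.Agent.helper81.PD
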