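import Pool.Agent.helper81.PD.Defs3

/-! # PDS-GrpZ: homomorphisms to the integers -/

namespace Pool.Agent.helper81.PD

variable {N : Type} [Group N]

theorem GrpZ_dg_mul (phi : N →* Multiplicative ℤ) (g h : N) :
    dg phi (g * h) = dg phi g + dg phi h := by
  simp [dg]

theorem GrpZ_dg_one (phi : N →* Multiplicative ℤ) : dg phi 1 = 0 := by
  simp [dg]

theorem GrpZ_dg_inv (phi : N →* Multiplicative ℤ) (g : N) : dg phi g⁻¹ = - dg phi g := by
  simp [dg]

theorem GrpZ_dg_zpow (phi : N →* Multiplicative ℤ) (g : N) (n : ℤ) :
    dg phi (g ^ n) = n * dg phi g := by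
  simp [dg]

theorem GrpZ_exists_ne (phi : N →* Multiplicative ℤ) (h : phi ≠ 1) : ∃ g, dg phi g ≠ 0 := by
  by_contra hcon
  apply h
  ext g
  by_contra hg
  exact hcon ⟨g, fun h0 => hg h0⟩

/-- a non-trivial homomorphism to `ℤ` can be divided by the generator of its image -/
theorem exists_surj (phi : N →* Multiplicative ℤ) (h : phi ≠ 1) :
    ∃ psi : N →* Multiplicative ℤ, (∃ t, dg psi t = 1) ∧ ∃ n : ℤ, n ≠ 0 ∧
      ∀ g, dg phi g = n * dg psi g := by
  classical
  have hex : ∃ n : ℕ, 0 < n ∧ ∃ t, dg phi t = n := by
    obtain ⟨g, hg⟩ := GrpZ_exists_ne phi h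
    rcases lt_or_gt_of_ne hg with h1 | h1
    · refine ⟨(- dg phi g).toNat, by omega, g⁻¹, ?_⟩
      rw [GrpZ_dg_inv]
      omega
    · exact ⟨(dg phi g).toNat, by omega, g, by omega⟩
  obtain ⟨hn, t, ht⟩ := Nat.find_spec hex
  set n : ℕ := Nat.find hex with hndef
  have hn' : (0 : ℤ) < n := by exact_mod_cast hn
  have hdvd : ∀ g, (n : ℤ) ∣ dg phi g := by
    intro g
    rw [Int.dvd_iff_emod_eq_zero]
    by_contra hr
    have h0 : 0 ≤ dg phi g % n := Int.emod_nonneg _ (ne_of_gt hn')
    have h1 : dg phi g % n < n := Int.emod_lt_of_pos _ hn'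
    have h2 : dg phi (g * t ^ (-(dg phi g / n))) = dg phi g % n := by
      rw [GrpZ_dg_mul, GrpZ_dg_zpow, ht]
      have := Int.emod_add_mul_ediv (dg phi g) n
      linarith
    have h3 : ¬ (0 < (dg phi g % n).toNat ∧ ∃ t, dg phi t = ((dg phi g % n).toNat : ℤ)) := by
      apply Nat.find_min hex
      rw [← hndef]
      omega
    apply h3
    refine ⟨by omega, _, h2.trans ?_⟩
    omega
  refine ⟨{ toFun := fun g => Multiplicative.ofAdd (dg phi g / n)
            map_one' := ?_
            map_mul' := ?_ }, ⟨t, ?_⟩, n, ne_of_gt hn', ?_⟩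
  · rw [GrpZ_dg_one]; simp
  · intro a b
    rw [GrpZ_dg_mul, Int.add_ediv_of_dvd_left (hdvd a)]
    rfl
  · change dg phi t / (n : ℤ) = 1
    rw [ht]
    exact Int.ediv_self (ne_of_gt hn')
  · intro g
    change dg phi g = n * (dg phi g / (n : ℤ))
    exact (Int.mul_ediv_cancel' (hdvd g)).symm

/-- an infinite finitely generated abelianization has a non-trivial homomorphism to `ℤ` -/
theorem exists_hom (hfg : Group.FG N) (hinf : Infinite (Abelianization N)) :
    ∃ phi : N →* Multiplicative ℤ, phi ≠ 1 := by
  classical
  have h1 : Group.FG (Abelianization N) :=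
    Group.fg_of_surjective (f := Abelianization.of) (QuotientGroup.mk_surjective)
  have h2 : AddGroup.FG (Additive (Abelianization N)) := GroupFG.iff_add_fg.mp h1
  have h3 : Module.Finite ℤ (Additive (Abelianization N)) := Module.Finite.iff_addGroup_fg.mpr h2
  set A := Additive (Abelianization N) with hA
  set Q := A ⧸ Submodule.torsion ℤ A with hQ
  have h4 : Module.Free ℤ Q := inferInstance
  by_cases hs : Subsingleton Q
  · exfalso
    have ht : Module.IsTorsion ℤ A := by
      intro x
      have hx : x ∈ Submodule.torsion ℤ A := by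
        rw [← Submodule.Quotient.mk_eq_zero]
        exact Subsingleton.elim _ _
      exact (Submodule.mem_torsion_iff x).mp hx
    have hfin : Finite A := Module.finite_of_fg_torsion A ht
    have hfin' : Finite (Abelianization N) := Finite.of_equiv A Additive.toMul
    exact not_finite (Abelianization N)
  · rw [not_subsingleton_iff_nontrivial] at hs
    set b := Module.Free.chooseBasis ℤ Q
    have hne : Nonempty (Module.Free.ChooseBasisIndex ℤ Q) := by
      by_contra hcon
      rw [not_nonempty_iff] at hcon
      have : Subsingleton Q := b.repr.toEquiv.subsingleton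
      exact not_subsingleton Q this
    obtain ⟨i⟩ := hne
    obtain ⟨y, hy⟩ := Submodule.Quotient.mk_surjective (Submodule.torsion ℤ A) (b i)
    obtain ⟨g, hg⟩ := QuotientGroup.mk_surjective (Additive.toMul y)
    let L : A →+ ℤ := (b.coord i).toAddMonoidHom.comp
      (Submodule.mkQ (Submodule.torsion ℤ A)).toAddMonoidHom
    let phi : N →* Multiplicative ℤ :=
      { toFun := fun x => Multiplicative.ofAdd (L (Additive.ofMul (Abelianization.of x)))
        map_one' := by
          rw [map_one, ofMul_one, map_zero, ofAdd_zero]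
        map_mul' := fun x z => by
          rw [map_mul, ofMul_mul, map_add, ofAdd_add] }
    refine ⟨phi, fun hphi => ?_⟩
    have e1 : phi g = Multiplicative.ofAdd (1 : ℤ) := by
      change Multiplicative.ofAdd (L (Additive.ofMul (Abelianization.of g))) = _
      have e2 : Additive.ofMul (Abelianization.of g) = y := by
        change Additive.ofMul (Abelianization.of g) = Additive.ofMul (Additive.toMul y)
        exact congrArg Additive.ofMul hg
      rw [e2]
      congr 1
      change b.coord i (Submodule.Quotient.mk y) = 1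
      rw [hy]
      simp
    rw [hphi] at e1
    have e3 : (0 : ℤ) = 1 := congrArg Multiplicative.toAdd e1
    omega

/-- the homomorphism of the abelianization attached to a homomorphism to `ℤ` -/
noncomputable def GrpZ_L (phi : N →* Multiplicative ℤ) : Additive (Abelianization N) →+ ℤ :=
  { toFun := fun x => Multiplicative.toAdd (Abelianization.lift phi (Additive.toMul x))
    map_zero' := by simp
    map_add' := fun x y => by simp }

theorem GrpZ_L_of (phi : N →* Multiplicative ℤ) (g : N) :
    GrpZ_L phi (Additive.ofMul (Abelianization.of g)) = dg phi g := by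
  change Multiplicative.toAdd (Abelianization.lift phi (Abelianization.of g)) = _
  rw [Abelianization.lift_apply_of]
  rfl

/-- two homomorphisms to `ℤ` that are not proportional on two elements give rank at least two -/
theorem GrpZ_rank (phi psi : N →* Multiplicative ℤ) (x y : N)
    (hne : dg phi x * dg psi y ≠ dg phi y * dg psi x) :
    2 ≤ Module.rank ℤ (Additive (Abelianization N)) := by
  have hli : LinearIndependent ℤ
      ![(Additive.ofMul (Abelianization.of x) : Additive (Abelianization N)),
        Additive.ofMul (Abelianization.of y)] := by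
    rw [LinearIndependent.pair_iff]
    intro s t hst
    have e1 := congrArg (GrpZ_L phi) hst
    have e2 := congrArg (GrpZ_L psi) hst
    rw [map_add, map_zsmul, map_zsmul, map_zero, GrpZ_L_of, GrpZ_L_of, smul_eq_mul,
      smul_eq_mul] at e1
    rw [map_add, map_zsmul, map_zsmul, map_zero, GrpZ_L_of, GrpZ_L_of, smul_eq_mul,
      smul_eq_mul] at e2
    have hD : dg phi x * dg psi y - dg phi y * dg psi x ≠ 0 := sub_ne_zero.mpr hne
    constructor
    · have : s * (dg phi x * dg psi y - dg phi y * dg psi x) = 0 := by
        linear_combination dg psi y * e1 - dg phi y * e2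
      exact (mul_eq_zero.mp this).resolve_right hD
    · have : t * (dg phi x * dg psi y - dg phi y * dg psi x) = 0 := by
        linear_combination dg phi x * e2 - dg psi x * e1
      exact (mul_eq_zero.mp this).resolve_right hD
  have := hli.cardinal_le_rank
  simpa using this

/-- if the conclusion fails for `N` itself then every automorphism changes `phi` by a sign -/
theorem sign_of_rank (hr : ¬ 2 ≤ Module.rank ℤ (Additive (Abelianization N)))
    (phi : N →* Multiplicative ℤ) (h : phi ≠ 1) {F : Type} [Group F] [MulDistribMulAction F N] :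
    ∃ f : F →* ℤˣ, ∀ (v : F) (x : N), dg phi (v • x) = (f v : ℤ) * dg phi x := by
  obtain ⟨psi, ⟨t, ht⟩, n, hn, hphi⟩ := exists_surj phi h
  have key : ∀ (v : F) (x : N), dg psi (v • x) = dg psi (v • t) * dg psi x := by
    intro v x
    by_contra hcon
    apply hr
    apply GrpZ_rank psi (psi.comp (MulDistribMulAction.toMonoidHom N v)) t x
    change dg psi t * dg psi (v • x) ≠ dg psi x * dg psi (v • t)
    rw [ht, one_mul, mul_comm]
    exact hcon
  let r : F →* ℤ :=
    { toFun := fun v => dg psi (v • t)
      map_one' := by rw [one_smul, ht]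
      map_mul' := fun v w => by rw [mul_smul, key v (w • t)] }
  refine ⟨MonoidHom.toHomUnits r, fun v x => ?_⟩
  rw [MonoidHom.coe_toHomUnits, hphi, hphi, key v x]
  change n * (dg psi (v • t) * dg psi x) = dg psi (v • t) * (n * dg psi x)
  ring

end Pool.Agent.helper81.PD
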