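import Pool.Agent.helper81.PD.Defs3

/-! # PDS-Lau: from a derivation with values in the field to one with values in the Laurent polynomials -/

namespace Pool.Agent.helper81.PD

variable {N : Type} [Group N]

/-- the unit `T 1` -/
noncomputable def Lau_u : (LaurentPolynomial (ZMod 2))ˣ :=
  ⟨LaurentPolynomial.T 1, LaurentPolynomial.T (-1), by
      rw [← LaurentPolynomial.T_add]; simp, by rw [← LaurentPolynomial.T_add]; simp⟩

theorem Lau_u_zpow (n : ℤ) :
    ((Lau_u ^ n : (LaurentPolynomial (ZMod 2))ˣ) : LaurentPolynomial (ZMod 2)) =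
      LaurentPolynomial.T n := by
  induction n using Int.induction_on with
  | zero => simp
  | succ k ih =>
    rw [zpow_add_one, Units.val_mul, ih, LaurentPolynomial.T_add]
    rfl
  | pred k ih =>
    rw [zpow_sub_one, Units.val_mul, ih, sub_eq_add_neg, LaurentPolynomial.T_add]
    rfl

theorem chiOf_apply (phi : N →* Multiplicative ℤ) (g : N) : (chiOf phi g : KK) =
    algebraMap (LaurentPolynomial (ZMod 2)) KK (LaurentPolynomial.T (dg phi g)) := by
  have h1 : chiOf phi g = uu ^ (dg phi g) := by
    simp [chiOf, dg, zpowersHom_apply]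
  have h2 : uu = Units.map (algebraMap (LaurentPolynomial (ZMod 2)) KK).toMonoidHom Lau_u := rfl
  rw [h1, h2, ← map_zpow, ← Lau_u_zpow]
  rfl

theorem Lau_coeff (n : ℤ) (x : LaurentPolynomial (ZMod 2)) :
    (LaurentPolynomial.T n * x).coeff = sh n x.coeff := by
  induction x using AddMonoidAlgebra.induction_linear with
  | zero => simp [sh]
  | add x y hx hy =>
    rw [mul_add, AddMonoidAlgebra.coeff_add, hx, hy, AddMonoidAlgebra.coeff_add]
    simp only [sh, Finsupp.mapDomain_add]
  | single k r =>
    rw [LaurentPolynomial.T, AddMonoidAlgebra.single_mul_single]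
    simp only [sh, AddMonoidAlgebra.coeff_single, Finsupp.mapDomain_single, one_mul, add_comm]

theorem exists_LDer (hfg : Group.FG N) (phi : N →* Multiplicative ℤ) (t : N) (ht : dg phi t = 1)
    (D : N → KK) (hD : ∀ g h, D (g * h) = D g + (chiOf phi g : KK) * D h)
    (hn : ¬ ∃ v : KK, ∀ g, D g = ((chiOf phi g : KK) - 1) * v) :
    ∃ a : N → ℤ →₀ ZMod 2, LDer phi a ∧ a t = 0 ∧ ∃ g0, dg phi g0 = 0 ∧ a g0 ≠ 0 := by
  classical
  have finj : Function.Injective (algebraMap (LaurentPolynomial (ZMod 2)) KK) :=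
    IsFractionRing.injective (LaurentPolynomial (ZMod 2)) KK
  have hdg : ∀ g h, dg phi (g * h) = dg phi g + dg phi h := by
    intro g h; simp [dg]
  have hdg1 : dg phi 1 = 0 := by simp [dg]
  have hdginv : ∀ g, dg phi g⁻¹ = - dg phi g := by intro g; simp [dg]
  simp only [chiOf_apply] at hD hn
  have hD1 : D 1 = 0 := by
    have h := hD 1 1
    rw [hdg1, LaurentPolynomial.T_zero, map_one, one_mul, one_mul] at h
    exact (left_eq_add.1 h)
  obtain ⟨_, S, _, hS⟩ := Group.fg_iff'.1 hfg
  obtain ⟨b, hb⟩ := IsLocalization.exist_integer_multiples_of_finset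
    (nonZeroDivisors (LaurentPolynomial (ZMod 2))) (S.image D)
  have hb0 : algebraMap (LaurentPolynomial (ZMod 2)) KK (b : LaurentPolynomial (ZMod 2)) ≠ 0 := by
    intro h
    rw [← map_zero (algebraMap (LaurentPolynomial (ZMod 2)) KK)] at h
    exact nonZeroDivisors.ne_zero b.2 (finj h)
  have hint : ∀ g : N, ∃ x : LaurentPolynomial (ZMod 2),
      algebraMap (LaurentPolynomial (ZMod 2)) KK x =
        algebraMap (LaurentPolynomial (ZMod 2)) KK b * D g := by
    intro g
    have hg : g ∈ Subgroup.closure (S : Set N) := by rw [hS]; trivial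
    induction hg using Subgroup.closure_induction with
    | mem x hx =>
      obtain ⟨y, hy⟩ := hb (D x) (Finset.mem_image_of_mem D hx)
      exact ⟨y, by rw [hy, Algebra.smul_def]⟩
    | one => exact ⟨0, by rw [hD1, mul_zero, map_zero]⟩
    | mul x y _ _ hx hy =>
      obtain ⟨p, hp⟩ := hx
      obtain ⟨q, hq⟩ := hy
      refine ⟨p + LaurentPolynomial.T (dg phi x) * q, ?_⟩
      rw [map_add, map_mul, hp, hq, hD]
      ring
    | inv x _ hx =>
      obtain ⟨p, hp⟩ := hx
      refine ⟨- (LaurentPolynomial.T (- dg phi x) * p), ?_⟩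
      have h := hD x⁻¹ x
      rw [inv_mul_cancel, hD1, hdginv] at h
      rw [map_neg, map_mul, hp]
      linear_combination (algebraMap (LaurentPolynomial (ZMod 2)) KK b) * h
  choose E hE using hint
  have hEd : ∀ g h, E (g * h) = E g + LaurentPolynomial.T (dg phi g) * E h := by
    intro g h
    apply finj
    rw [map_add, map_mul, hE, hE, hE, hD]
    ring
  obtain ⟨F, hF⟩ : ∃ F : N → LaurentPolynomial (ZMod 2), ∀ g, F g =
      (LaurentPolynomial.T 1 - 1) * E g - (LaurentPolynomial.T (dg phi g) - 1) * E t :=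
    ⟨_, fun g => rfl⟩
  have hFd : ∀ g h, F (g * h) = F g + LaurentPolynomial.T (dg phi g) * F h := by
    intro g h
    rw [hF, hF, hF, hEd, hdg, LaurentPolynomial.T_add]
    ring
  have hFt : F t = 0 := by
    rw [hF, ht]; ring
  have hF1 : F 1 = 0 := by
    have h := hFd 1 1
    rw [hdg1, LaurentPolynomial.T_zero, one_mul, one_mul] at h
    exact (left_eq_add.1 h)
  have hFinv : ∀ g, F g = 0 → F g⁻¹ = 0 := by
    intro g hg
    have h := hFd g⁻¹ g
    rw [inv_mul_cancel, hF1, hg, mul_zero, add_zero] at h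
    exact h.symm
  have hFmul : ∀ g h, F g = 0 → F h = 0 → F (g * h) = 0 := by
    intro g h hg hh
    rw [hFd, hg, hh, mul_zero, add_zero]
  have hFz : ∀ n : ℤ, F (t ^ n) = 0 := by
    intro n
    induction n using Int.induction_on with
    | zero => rw [zpow_zero, hF1]
    | succ k ih => rw [zpow_add_one]; exact hFmul _ _ ih hFt
    | pred k ih => rw [zpow_sub_one]; exact hFmul _ _ ih (hFinv _ hFt)
  have hdgz : ∀ n : ℤ, dg phi (t ^ n) = n := by
    intro n
    have h : dg phi (t ^ n) = n * dg phi t := by simp [dg]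
    rw [h, ht, mul_one]
  refine ⟨fun g => (F g).coeff, ?_, ?_, ?_⟩
  · intro g h
    show (F (g * h)).coeff = (F g).coeff + sh (dg phi g) (F h).coeff
    rw [hFd, AddMonoidAlgebra.coeff_add, Lau_coeff]
  · show (F t).coeff = 0
    rw [hFt, AddMonoidAlgebra.coeff_zero]
  · by_contra hcon
    push Not at hcon
    apply hn
    have hker : ∀ g, dg phi g = 0 → F g = 0 := by
      intro g hg
      have h := hcon g hg
      apply LaurentPolynomial.ext
      intro a
      rw [h]
      rfl
    have hall : ∀ g, F g = 0 := by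
      intro g
      have h1 : g = (g * t ^ (- dg phi g)) * t ^ (dg phi g) := by
        rw [mul_assoc, ← zpow_add, neg_add_cancel, zpow_zero, mul_one]
      rw [h1]
      apply hFmul _ _ _ (hFz _)
      apply hker
      rw [hdg, hdgz]
      ring
    have hT1 : algebraMap (LaurentPolynomial (ZMod 2)) KK (LaurentPolynomial.T 1 - 1) ≠ 0 := by
      intro h
      rw [← map_zero (algebraMap (LaurentPolynomial (ZMod 2)) KK)] at h
      have h2 := finj h
      have h3 := congrArg (fun f : LaurentPolynomial (ZMod 2) => f.coeff 1) (sub_eq_zero.1 h2)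
      rw [← LaurentPolynomial.T_zero] at h3
      simp only [LaurentPolynomial.T_apply] at h3
      norm_num at h3
    refine ⟨algebraMap (LaurentPolynomial (ZMod 2)) KK (E t) /
      (algebraMap (LaurentPolynomial (ZMod 2)) KK b *
        algebraMap (LaurentPolynomial (ZMod 2)) KK (LaurentPolynomial.T 1 - 1)), ?_⟩
    intro g
    have h1 := hall g
    rw [hF, sub_eq_zero] at h1
    have h2 := congrArg (algebraMap (LaurentPolynomial (ZMod 2)) KK) h1
    rw [map_mul, map_mul, hE g, map_sub _ (LaurentPolynomial.T (dg phi g)) 1, map_one] at h2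
    rw [mul_div_assoc', eq_div_iff (mul_ne_zero hb0 hT1), ← h2]
    ring

end Pool.Agent.helper81.PD
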