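import Pool.Agent.helper81.PD.Defs2

/-! # PDS-Mod2A: the complex modulo 2 -/

namespace Pool.Agent.helper81.PD

variable {N : Type} [Group N]

/-- the doubles in an abelian group -/
def Mod2A_D (A : Type) [AddCommGroup A] : AddSubgroup A where
  carrier := {x | ∃ y, x = y + y}
  zero_mem' := ⟨0, by simp⟩
  add_mem' := by
    rintro a b ⟨x, rfl⟩ ⟨y, rfl⟩
    exact ⟨x + y, by abel⟩
  neg_mem' := by
    rintro a ⟨x, rfl⟩
    exact ⟨-x, by abel⟩

/-- the quotient modulo 2 -/
def Mod2A_Q (A : Type) [AddCommGroup A] : Type := A ⧸ Mod2A_D A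

instance Mod2A_acg (A : Type) [AddCommGroup A] : AddCommGroup (Mod2A_Q A) :=
  inferInstanceAs (AddCommGroup (A ⧸ Mod2A_D A))

/-- the projection -/
def Mod2A_q (A : Type) [AddCommGroup A] : A →+ Mod2A_Q A := QuotientAddGroup.mk' (Mod2A_D A)

section quot

variable {A B : Type} [AddCommGroup A] [AddCommGroup B]

theorem Mod2A_q_surj : Function.Surjective (Mod2A_q A) := QuotientAddGroup.mk'_surjective _

theorem Mod2A_q_ker (x : A) : Mod2A_q A x = 0 ↔ ∃ y, x = y + y := by
  unfold Mod2A_q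
  exact QuotientAddGroup.eq_zero_iff x

theorem Mod2A_q_double (x : A) : Mod2A_q A (x + x) = 0 := (Mod2A_q_ker _).2 ⟨x, rfl⟩

theorem Mod2A_two (x : Mod2A_Q A) : 2 • x = 0 := by
  obtain ⟨y, rfl⟩ := Mod2A_q_surj x
  rw [two_nsmul, ← map_add]
  exact Mod2A_q_double y

instance Mod2A_mod (A : Type) [AddCommGroup A] : Module (ZMod 2) (Mod2A_Q A) :=
  AddCommGroup.zmodModule (fun x => Mod2A_two x)

/-- the lift of an additive map -/
def Mod2A_lift (f : A →+ B) (h : ∀ x, f (x + x) = 0) : Mod2A_Q A →+ B :=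
  QuotientAddGroup.lift (Mod2A_D A) f (by
    rintro x ⟨y, rfl⟩
    exact h y)

theorem Mod2A_lift_q (f : A →+ B) (h : ∀ x, f (x + x) = 0) (x : A) :
    Mod2A_lift f h (Mod2A_q A x) = f x := rfl

/-- the induced linear map -/
def Mod2A_map (f : A →+ B) : Mod2A_Q A →ₗ[ZMod 2] Mod2A_Q B :=
  AddMonoidHom.toZModLinearMap 2 (Mod2A_lift ((Mod2A_q B).comp f) (fun x => by
    simp only [AddMonoidHom.comp_apply, map_add]
    rw [← map_add]
    exact Mod2A_q_double _))

theorem Mod2A_map_q (f : A →+ B) (x : A) :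
    Mod2A_map f (Mod2A_q A x) = Mod2A_q B (f x) := rfl

end quot

section red

/-- reduction modulo 2 of vectors over the group ring -/
noncomputable def Mod2A_red (N : Type) [Group N] (m : ℕ) :
    (Fin m → MonoidAlgebra ℤ N) →+ ((Fin m × N) →₀ ZMod 2) where
  toFun v := ∑ k, Finsupp.mapDomain (fun n => (k, n))
    ((v k).coeff.mapRange (fun c : ℤ => (c : ZMod 2)) (by simp))
  map_zero' := by simp
  map_add' v w := by
    rw [← Finset.sum_add_distrib]
    refine Finset.sum_congr rfl fun k _ => ?_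
    rw [← Finsupp.mapDomain_add]
    congr 1
    ext n
    simp

theorem Mod2A_red_single (m : ℕ) (k : Fin m) (n : N) (c : ℤ) :
    Mod2A_red N m (Pi.single k (MonoidAlgebra.single n c)) =
      Finsupp.single (k, n) (c : ZMod 2) := by
  unfold Mod2A_red
  simp only [AddMonoidHom.coe_mk, ZeroHom.coe_mk]
  rw [Finset.sum_eq_single k]
  · simp [Finsupp.mapDomain_single]
  · intro j _ hj
    simp [Pi.single_eq_of_ne hj]
  · intro h
    exact absurd (Finset.mem_univ k) h

theorem Mod2A_hom_ext {m : ℕ} {B : Type} [AddCommGroup B]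
    {f g : (Fin m → MonoidAlgebra ℤ N) →+ B}
    (h : ∀ k n c, f (Pi.single k (MonoidAlgebra.single n c)) =
      g (Pi.single k (MonoidAlgebra.single n c))) : f = g := by
  apply AddMonoidHom.functions_ext
  intro k x
  have : (f.comp (AddMonoidHom.single (fun _ : Fin m => MonoidAlgebra ℤ N) k)) =
      (g.comp (AddMonoidHom.single (fun _ : Fin m => MonoidAlgebra ℤ N) k)) := by
    apply MonoidAlgebra.addMonoidHom_ext
    intro n c
    exact h k n c
  exact DFunLike.congr_fun this x

theorem Mod2A_of_smul_single (m : ℕ) (g : N) (k : Fin m) (n : N) (c : ℤ) :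
    MonoidAlgebra.of ℤ N g • (Pi.single k (MonoidAlgebra.single n c) :
      Fin m → MonoidAlgebra ℤ N) = Pi.single k (MonoidAlgebra.single (g * n) c) := by
  rw [← Pi.single_smul]
  congr 1
  simp [MonoidAlgebra.of_apply, MonoidAlgebra.single_mul_single]

/-- the free action on `Fin m × N` -/
@[reducible] def Mod2A_mul (N : Type) [Group N] (m : ℕ) : MulAction N (Fin m × N) where
  smul g t := (t.1, g * t.2)
  one_smul t := by
    show (t.1, (1 : N) * t.2) = t
    simp
  mul_smul g h t := by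
    show (t.1, (g * h) * t.2) = (t.1, g * (h * t.2))
    rw [mul_assoc]

theorem Mod2A_red_smul (m : ℕ) (g : N) (v : Fin m → MonoidAlgebra ℤ N) :
    Mod2A_red N m (MonoidAlgebra.of ℤ N g • v) =
      Finsupp.mapDomain (fun t : Fin m × N => (t.1, g * t.2)) (Mod2A_red N m v) := by
  have : ((Mod2A_red N m).comp (DistribSMul.toAddMonoidHom (Fin m → MonoidAlgebra ℤ N)
      (MonoidAlgebra.of ℤ N g))) =
      ((Finsupp.mapDomain.addMonoidHom (fun t : Fin m × N => (t.1, g * t.2))).comp
        (Mod2A_red N m)) := by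
    apply Mod2A_hom_ext
    intro k n c
    rw [AddMonoidHom.comp_apply, AddMonoidHom.comp_apply, DistribSMul.toAddMonoidHom_apply,
      Mod2A_of_smul_single, Mod2A_red_single, Mod2A_red_single]
    show _ = Finsupp.mapDomain (fun t : Fin m × N => (t.1, g * t.2))
      (Finsupp.single (k, n) (c : ZMod 2))
    rw [Finsupp.mapDomain_single]
  exact DFunLike.congr_fun this v

end red

section res

variable (R : FPRes N)

theorem Mod2A_torsion (i : ℕ) (x : R.P i) (h : x + x = 0) : x = 0 := by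
  have := R.fin i
  have := R.proj i
  obtain ⟨m, f, g, -, hg, -⟩ :=
    Module.Finite.exists_comp_eq_id_of_projective (MonoidAlgebra ℤ N) (R.P i)
  apply hg
  have h1 : g x + g x = 0 := by rw [← map_add, h, map_zero]
  rw [map_zero]
  ext k n
  have h2 : (g x k).coeff n + (g x k).coeff n = 0 := by
    have := congrArg (fun v : Fin m → MonoidAlgebra ℤ N => (v k).coeff n) h1
    simpa using this
  show (g x k).coeff n = 0
  omega

/-- the action modulo 2 -/
noncomputable def Mod2A_rho (i : ℕ) : N →* Module.End (ZMod 2) (Mod2A_Q (R.P i)) where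
  toFun g := Mod2A_map
    { toFun := fun x => act R i g x
      map_zero' := by unfold act; simp
      map_add' := fun x y => by unfold act; rw [smul_add] }
  map_one' := by
    ext x
    obtain ⟨y, rfl⟩ := Mod2A_q_surj x
    rw [Mod2A_map_q]
    show Mod2A_q (R.P i) (MonoidAlgebra.of ℤ N 1 • y) = Mod2A_q (R.P i) y
    rw [map_one, one_smul]
  map_mul' g h := by
    ext x
    obtain ⟨y, rfl⟩ := Mod2A_q_surj x
    rw [Module.End.mul_apply, Mod2A_map_q, Mod2A_map_q, Mod2A_map_q]
    show Mod2A_q (R.P i) (MonoidAlgebra.of ℤ N (g * h) • y) =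
      Mod2A_q (R.P i) (MonoidAlgebra.of ℤ N g • MonoidAlgebra.of ℤ N h • y)
    rw [map_mul, mul_smul]

theorem Mod2A_rho_q (i : ℕ) (g : N) (x : R.P i) :
    Mod2A_rho R i g (Mod2A_q (R.P i) x) = Mod2A_q (R.P i) (act R i g x) := rfl

theorem Mod2A_pl (i : ℕ) : PL (Mod2A_rho R i) := by
  have := R.fin i
  have := R.proj i
  obtain ⟨m, f, g, -, hg, hfg⟩ :=
    Module.Finite.exists_comp_eq_id_of_projective (MonoidAlgebra ℤ N) (R.P i)
  refine ⟨Fin m × N, Mod2A_mul N m, ?_, ?_⟩
  · rintro h ⟨k, n⟩ hh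
    have : h * n = n := congrArg Prod.snd hh
    exact mul_eq_right.1 this
  · let ii : Mod2A_Q (R.P i) →ₗ[ZMod 2] ((Fin m × N) →₀ ZMod 2) :=
      AddMonoidHom.toZModLinearMap 2 (Mod2A_lift ((Mod2A_red N m).comp g.toAddMonoidHom)
        (fun x => by
          rw [map_add]
          ext t
          exact CharTwo.add_self_eq_zero (R := ZMod 2) _))
    have hii : ∀ x, ii (Mod2A_q (R.P i) x) = Mod2A_red N m (g x) := fun x => rfl
    let rr : ((Fin m × N) →₀ ZMod 2) →ₗ[ZMod 2] Mod2A_Q (R.P i) :=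
      Finsupp.linearCombination (ZMod 2) (fun t : Fin m × N =>
        Mod2A_q (R.P i) (f (Pi.single t.1 (MonoidAlgebra.single t.2 1))))
    have hrr : ∀ t : Fin m × N, rr (Finsupp.single t 1) =
        Mod2A_q (R.P i) (f (Pi.single t.1 (MonoidAlgebra.single t.2 1))) := by
      intro t
      simp [rr]
    have hrr2 : ∀ v, rr (Mod2A_red N m v) = Mod2A_q (R.P i) (f v) := by
      intro v
      have : (rr.toAddMonoidHom.comp (Mod2A_red N m)) =
          ((Mod2A_q (R.P i)).comp f.toAddMonoidHom) := by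
        apply Mod2A_hom_ext
        intro k n c
        show rr (Mod2A_red N m (Pi.single k (MonoidAlgebra.single n c))) =
          Mod2A_q (R.P i) (f (Pi.single k (MonoidAlgebra.single n c)))
        rw [Mod2A_red_single]
        have e1 : (Pi.single k (MonoidAlgebra.single n c) : Fin m → MonoidAlgebra ℤ N) =
            c • Pi.single k (MonoidAlgebra.single n 1) := by
          rw [← Pi.single_smul]
          congr 1
          simp
        have e2 : (Finsupp.single (k, n) (c : ZMod 2) : (Fin m × N) →₀ ZMod 2) =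
            c • Finsupp.single (k, n) 1 := by
          ext t
          simp
        rw [e1, e2, map_zsmul, map_zsmul, map_zsmul, hrr]
      exact DFunLike.congr_fun this v
    refine ⟨ii, rr, ?_, ?_, ?_⟩
    · intro h x
      obtain ⟨y, rfl⟩ := Mod2A_q_surj x
      rw [Mod2A_rho_q, hii, hii]
      unfold act
      rw [map_smul, Mod2A_red_smul]
      rfl
    · intro h y
      have key : (rr ∘ₗ (Finsupp.lmapDomain (ZMod 2) (ZMod 2)
          (fun t : Fin m × N => (t.1, h * t.2)))) = (Mod2A_rho R i h) ∘ₗ rr := by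
        ext t
        show rr (Finsupp.mapDomain (fun t : Fin m × N => (t.1, h * t.2)) (Finsupp.single t 1)) =
          Mod2A_rho R i h (rr (Finsupp.single t 1))
        rw [Finsupp.mapDomain_single, hrr, hrr, Mod2A_rho_q]
        unfold act
        rw [← map_smul, Mod2A_of_smul_single]
      exact LinearMap.congr_fun key y
    · intro x
      obtain ⟨y, rfl⟩ := Mod2A_q_surj x
      rw [hii, hrr2]
      congr 1
      exact LinearMap.congr_fun hfg y

/-- the augmentation modulo 2 -/
def Mod2A_eps : Mod2A_Q (R.P 0) →ₗ[ZMod 2] ZMod 2 :=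
  AddMonoidHom.toZModLinearMap 2 (Mod2A_lift ((Int.castAddHom (ZMod 2)).comp R.eps) (fun x => by
    simp only [map_add]
    exact CharTwo.add_self_eq_zero _))

theorem Mod2A_eps_q (x : R.P 0) :
    Mod2A_eps R (Mod2A_q (R.P 0) x) = ((R.eps x : ℤ) : ZMod 2) := rfl

theorem Mod2A_exact_zero (x : Mod2A_Q (R.P 0)) (hx : Mod2A_eps R x = 0) :
    ∃ y, Mod2A_map (R.d 0).toAddMonoidHom y = x := by
  obtain ⟨x0, rfl⟩ := Mod2A_q_surj x
  rw [Mod2A_eps_q] at hx
  have h2 : (2 : ℤ) ∣ R.eps x0 := by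
    have := (ZMod.intCast_zmod_eq_zero_iff_dvd (R.eps x0) 2).1 hx
    exact_mod_cast this
  obtain ⟨a, ha⟩ := h2
  obtain ⟨p, hp⟩ := R.eps_surj a
  obtain ⟨y, hy⟩ := (R.exact_zero (x0 - (p + p))).1 (by
    rw [map_sub, map_add, ha, hp]
    ring)
  refine ⟨Mod2A_q (R.P 1) y, ?_⟩
  rw [Mod2A_map_q]
  show Mod2A_q (R.P 0) (R.d 0 y) = Mod2A_q (R.P 0) x0
  rw [hy, map_sub, Mod2A_q_double, sub_zero]

theorem Mod2A_exact_succ (i : ℕ) (x : Mod2A_Q (R.P (i + 1)))
    (hx : Mod2A_map (R.d i).toAddMonoidHom x = 0) :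
    ∃ y, Mod2A_map (R.d (i + 1)).toAddMonoidHom y = x := by
  obtain ⟨x0, rfl⟩ := Mod2A_q_surj x
  rw [Mod2A_map_q] at hx
  obtain ⟨z, hz⟩ := (Mod2A_q_ker _).1 hx
  replace hz : R.d i x0 = z + z := hz
  have hw : ∃ w, R.d i w = z := by
    cases i with
    | zero =>
      apply (R.exact_zero z).1
      have h0 : R.eps (R.d 0 x0) = 0 := (R.exact_zero _).2 ⟨x0, rfl⟩
      rw [hz, map_add] at h0
      omega
    | succ j =>
      apply (R.exact_succ j z).1
      have h0 : R.d j (R.d (j + 1) x0) = 0 := (R.exact_succ j _).2 ⟨x0, rfl⟩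
      rw [hz, map_add] at h0
      exact Mod2A_torsion R j _ h0
  obtain ⟨w, hw⟩ := hw
  obtain ⟨y, hy⟩ := (R.exact_succ i (x0 - (w + w))).1 (by
    rw [map_sub, map_add, hz, hw]
    simp)
  refine ⟨Mod2A_q (R.P (i + 2)) y, ?_⟩
  rw [Mod2A_map_q]
  show Mod2A_q (R.P (i + 1)) (R.d (i + 1) y) = Mod2A_q (R.P (i + 1)) x0
  rw [hy, map_sub, Mod2A_q_double, sub_zero]

end res

theorem exists_GC (R : FPRes N) : Nonempty (GC R) := by
  refine ⟨?_⟩
  exact
    { Q := fun i => Mod2A_Q (R.P i)
      acg := fun i => Mod2A_acg (R.P i)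
      mod := fun i => Mod2A_mod (R.P i)
      q := fun i => Mod2A_q (R.P i)
      q_surj := fun i => Mod2A_q_surj
      q_ker := fun i x => Mod2A_q_ker x
      d := fun i => Mod2A_map (R.d i).toAddMonoidHom
      d_q := fun i x => rfl
      eps := Mod2A_eps R
      eps_q := fun x => rfl
      rho := fun i => Mod2A_rho R i
      rho_q := fun i g x => rfl
      pl := fun i => Mod2A_pl R i
      exact_zero := fun x hx => Mod2A_exact_zero R x hx
      exact_succ := fun i x hx => Mod2A_exact_succ R i x hx }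

end Pool.Agent.helper81.PD
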