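import Pool.Agent.helper81.PD.Defs2
import Pool.Agent.helper81.PD.Contr

/-! # PDS-Mod2B: from the graded complex to the abstract setting -/

namespace Pool.Agent.helper81.PD

variable {N : Type} [Group N]

theorem Mod2B_d_d (R : FPRes N) (M : GC R) (i : ℕ) (x : M.Q (i + 1 + 1)) :
    M.d i (M.d (i + 1) x) = 0 := by
  obtain ⟨y, rfl⟩ := M.q_surj _ x
  rw [M.d_q, M.d_q]
  have h : R.d i (R.d (i + 1) y) = 0 := (R.exact_succ i _).2 ⟨y, rfl⟩
  rw [h, map_zero]

theorem Mod2B_eps_d (R : FPRes N) (M : GC R) (x : M.Q (0 + 1)) :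
    M.eps (M.d 0 x) = 0 := by
  obtain ⟨y, rfl⟩ := M.q_surj _ x
  rw [M.d_q, M.eps_q]
  have h : R.eps (R.d 0 y) = 0 := (R.exact_zero _).2 ⟨y, rfl⟩
  rw [h, Int.cast_zero]

theorem Mod2B_d_rho (R : FPRes N) (M : GC R) (i : ℕ) (g : N) (x : M.Q (i + 1)) :
    M.d i (M.rho (i + 1) g x) = M.rho i g (M.d i x) := by
  obtain ⟨y, rfl⟩ := M.q_surj _ x
  rw [M.rho_q, M.d_q, M.d_q, M.rho_q]
  unfold act
  rw [map_smul]

theorem Mod2B_eps_rho (R : FPRes N) (M : GC R) (g : N) (x : M.Q 0) :
    M.eps (M.rho 0 g x) = M.eps x := by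
  obtain ⟨y, rfl⟩ := M.q_surj _ x
  rw [M.rho_q, M.eps_q, M.eps_q]
  unfold act
  rw [R.eps_smul]

theorem Mod2B_exists_n (R : FPRes N) (M : GC R) :
    ∃ n : ℕ, ∀ i, n ≤ i → ∀ x : M.Q i, x = 0 := by
  obtain ⟨n, hn⟩ := R.bdd
  refine ⟨n, fun i hi x => ?_⟩
  obtain ⟨y, rfl⟩ := M.q_surj _ x
  have := hn i hi
  rw [Subsingleton.elim y 0, map_zero]

theorem Mod2B_exists_pt (R : FPRes N) (M : GC R) : ∃ p : M.Q 0, M.eps p = 1 := by
  obtain ⟨x, hx⟩ := R.eps_surj 1
  exact ⟨M.q 0 x, by rw [M.eps_q, hx, Int.cast_one]⟩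

/-- the boundary on the product -/
def Mod2B_del (R : FPRes N) (M : GC R) : (∀ i, M.Q i) →ₗ[ZMod 2] (∀ i, M.Q i) :=
  LinearMap.pi fun i => (M.d i).comp (LinearMap.proj (i + 1))

theorem Mod2B_del_apply (R : FPRes N) (M : GC R) (x : ∀ i, M.Q i) (i : ℕ) :
    Mod2B_del R M x i = M.d i (x (i + 1)) := rfl

/-- the projections -/
def Mod2B_pi (R : FPRes N) (M : GC R) (q : ℕ) : (∀ i, M.Q i) →ₗ[ZMod 2] (∀ i, M.Q i) :=
  (LinearMap.single (ZMod 2) M.Q q).comp (LinearMap.proj q)

theorem Mod2B_pi_apply (R : FPRes N) (M : GC R) (q : ℕ) (x : ∀ i, M.Q i) :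
    Mod2B_pi R M q x = Pi.single q (x q) := rfl

/-- the augmentation -/
def Mod2B_eps (R : FPRes N) (M : GC R) : (∀ i, M.Q i) →ₗ[ZMod 2] ZMod 2 :=
  M.eps.comp (LinearMap.proj 0)

theorem Mod2B_eps_apply (R : FPRes N) (M : GC R) (x : ∀ i, M.Q i) :
    Mod2B_eps R M x = M.eps (x 0) := rfl

theorem Mod2B_del_single_zero (R : FPRes N) (M : GC R) (p : M.Q 0) :
    Mod2B_del R M (Pi.single 0 p) = 0 := by
  funext i
  rw [Mod2B_del_apply, Pi.single_eq_of_ne (by omega), map_zero]
  rfl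

theorem Mod2B_del_single_succ (R : FPRes N) (M : GC R) (q : ℕ) (p : M.Q (q + 1)) :
    Mod2B_del R M (Pi.single (q + 1) p) = Pi.single q (M.d q p) := by
  funext i
  rw [Mod2B_del_apply]
  by_cases h : i = q
  · subst h
    rw [Pi.single_eq_same, Pi.single_eq_same]
  · rw [Pi.single_eq_of_ne (by omega), Pi.single_eq_of_ne h, map_zero]

/-- the action on the product -/
def Mod2B_rho (R : FPRes N) (M : GC R) : N →* Module.End (ZMod 2) (∀ i, M.Q i) where
  toFun g := LinearMap.pi fun i => (M.rho i g).comp (LinearMap.proj i)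
  map_one' := by
    refine LinearMap.ext fun x => ?_
    funext i
    simp only [LinearMap.pi_apply, LinearMap.comp_apply, LinearMap.proj_apply, map_one,
      Module.End.one_apply]
  map_mul' g h := by
    refine LinearMap.ext fun x => ?_
    funext i
    simp only [LinearMap.pi_apply, LinearMap.comp_apply, LinearMap.proj_apply, map_mul,
      Module.End.mul_apply]

theorem Mod2B_rho_apply (R : FPRes N) (M : GC R) (g : N) (x : ∀ i, M.Q i) (i : ℕ) :
    Mod2B_rho R M g x i = M.rho i g (x i) := rfl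

theorem Mod2B_rho_single (R : FPRes N) (M : GC R) (g : N) (q : ℕ) (p : M.Q q) :
    Mod2B_rho R M g (Pi.single q p) = Pi.single q (M.rho q g p) := by
  funext i
  rw [Mod2B_rho_apply]
  by_cases h : i = q
  · subst h
    rw [Pi.single_eq_same, Pi.single_eq_same]
  · rw [Pi.single_eq_of_ne h, Pi.single_eq_of_ne h, map_zero]

theorem Mod2B_sum (R : FPRes N) (M : GC R) (n : ℕ) (hn : ∀ i, n ≤ i → ∀ x : M.Q i, x = 0)
    (x : ∀ i, M.Q i) : ∑ q ∈ Finset.range n, Mod2B_pi R M q x = x := by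
  funext j
  rw [Finset.sum_apply]
  by_cases h : j < n
  · rw [Finset.sum_eq_single j]
    · rw [Mod2B_pi_apply, Pi.single_eq_same]
    · intro b _ hb
      rw [Mod2B_pi_apply, Pi.single_eq_of_ne (Ne.symm hb)]
    · intro hj
      exact absurd (Finset.mem_range.2 h) hj
  · rw [hn j (not_lt.1 h) (x j)]
    exact hn j (not_lt.1 h) _

theorem Mod2B_mapDomain_smul {T : Type} [MulAction N T] (g : N) (z : T →₀ ZMod 2) (t : T) :
    Finsupp.mapDomain (fun t => g • t) z t = z (g⁻¹ • t) := by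
  have h := Finsupp.mapDomain_apply (MulAction.injective g) z (g⁻¹ • t)
  rw [smul_inv_smul] at h
  exact h

theorem Mod2B_pl (R : FPRes N) (M : GC R) (n : ℕ) (hn : ∀ i, n ≤ i → ∀ x : M.Q i, x = 0) :
    PL (Mod2B_rho R M) := by
  choose T hT hfree ii rr h1 h2 h3 using M.pl
  let _ : MulAction N (Σ i, T i) := Sigma.instMulAction
  refine ⟨Σ i, T i, inferInstance, ?_, ?_⟩
  · rintro g ⟨i, t⟩ h
    have h' : (⟨i, g • t⟩ : Σ i, T i) = ⟨i, t⟩ := h
    have h4 : g • t = t := by
      simpa using h'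
    exact hfree i g t h4
  · refine ⟨∑ i ∈ Finset.range n, (Finsupp.lmapDomain (ZMod 2) (ZMod 2) (Sigma.mk i)) ∘ₗ
      (ii i) ∘ₗ (LinearMap.proj i), LinearMap.pi fun i => (rr i) ∘ₗ
      (Finsupp.lcomapDomain (Sigma.mk i) sigma_mk_injective), ?_, ?_, ?_⟩
    · intro g x
      simp only [LinearMap.sum_apply, LinearMap.comp_apply, LinearMap.proj_apply,
        Finsupp.lmapDomain_apply, Mod2B_rho_apply]
      rw [Finsupp.mapDomain_finsetSum]
      refine Finset.sum_congr rfl fun i _ => ?_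
      rw [h1, ← Finsupp.mapDomain_comp, ← Finsupp.mapDomain_comp]
      rfl
    · intro g y
      funext i
      rw [Mod2B_rho_apply]
      simp only [LinearMap.pi_apply, LinearMap.comp_apply]
      rw [← h2]
      congr 1
      ext t
      rw [Mod2B_mapDomain_smul]
      change (Finsupp.mapDomain (fun t => g • t) y) ⟨i, t⟩ = y ⟨i, g⁻¹ • t⟩
      rw [Mod2B_mapDomain_smul]
      rfl
    · intro x
      funext j
      simp only [LinearMap.sum_apply, LinearMap.pi_apply, LinearMap.comp_apply,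
        LinearMap.proj_apply, Finsupp.lmapDomain_apply]
      by_cases hj : j < n
      · refine Eq.trans (congrArg (rr j) ?_) (h3 j (x j))
        ext t
        change (∑ i ∈ Finset.range n, Finsupp.mapDomain (Sigma.mk i) (ii i (x i))) ⟨j, t⟩ = _
        rw [Finsupp.finsetSum_apply, Finset.sum_eq_single j]
        · exact Finsupp.mapDomain_apply sigma_mk_injective _ _
        · intro b _ hb
          refine Finsupp.mapDomain_of_notMem_range _ _ ?_
          rintro ⟨s, hs⟩
          exact hb (congrArg Sigma.fst hs)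
        · intro h
          exact absurd (Finset.mem_range.2 hj) h
      · rw [hn j (not_lt.1 hj) (x j)]
        exact hn j (not_lt.1 hj) _

theorem Mod2B_exact (R : FPRes N) (M : GC R) (x : ∀ i, M.Q i) (h1 : Mod2B_del R M x = 0)
    (h2 : Mod2B_eps R M x = 0) : ∃ y, Mod2B_del R M y = x := by
  have h : ∀ i : ℕ, ∃ y : M.Q (i + 1), M.d i y = x i := by
    intro i
    cases i with
    | zero => exact M.exact_zero _ h2
    | succ i => exact M.exact_succ i _ (congrFun h1 i)
  choose y hy using h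
  refine ⟨fun i => Nat.casesOn i 0 y, ?_⟩
  funext i
  exact hy i

theorem Mod2B_descend (R : FPRes N) (M : GC R) {K : Type} [Field K] [Algebra (ZMod 2) K] (i : ℕ)
    (b : R.P i →+ K) : ∃ c : M.Q i →ₗ[ZMod 2] K, ∀ x, c (M.q i x) = b x := by
  have h2 : ∀ k : K, k + k = 0 := by
    intro k
    have h : (2 : ZMod 2) = 0 := rfl
    have h' : (2 : K) = 0 := by
      have := congrArg (algebraMap (ZMod 2) K) h
      rwa [map_ofNat, map_zero] at this
    rw [← two_mul, h', zero_mul]
  have hk : (M.q i).ker ≤ b.ker := by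
    intro x hx
    obtain ⟨y, rfl⟩ := (M.q_ker i x).1 hx
    rw [AddMonoidHom.mem_ker, map_add, h2]
  refine ⟨AddMonoidHom.toZModLinearMap 2
    ((M.q i).liftOfSurjective (M.q_surj i) ⟨b, hk⟩), fun x => ?_⟩
  exact AddMonoidHom.liftOfRightInverse_comp_apply (M.q i) (Function.surjInv (M.q_surj i))
    (Function.rightInverse_surjInv (M.q_surj i)) ⟨b, hk⟩ x

theorem exists_Cx (R : FPRes N) (M : GC R) :
    ∃ (P : Type) (_ : AddCommGroup P) (_ : Module (ZMod 2) P) (C : Cx P)
      (rho : N →* Module.End (ZMod 2) P), Act C rho ∧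
      ∀ (K : Type) [Field K] [Algebra (ZMod 2) K] (chi : N →* Kˣ), IEx R chi → Ex C rho chi := by
  obtain ⟨n, hn⟩ := Mod2B_exists_n R M
  obtain ⟨p, hp⟩ := Mod2B_exists_pt R M
  have hdd : ∀ x, Mod2B_del R M (Mod2B_del R M x) = 0 := by
    intro x
    funext i
    rw [Mod2B_del_apply, Mod2B_del_apply, Mod2B_d_d]
    rfl
  have hed : ∀ x, Mod2B_eps R M (Mod2B_del R M x) = 0 := by
    intro x
    rw [Mod2B_eps_apply, Mod2B_del_apply, Mod2B_eps_d]
  have hept : Mod2B_eps R M (Pi.single 0 p) = 1 := by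
    rw [Mod2B_eps_apply, Pi.single_eq_same, hp]
  have hdpt : Mod2B_del R M (Pi.single 0 p) = 0 := Mod2B_del_single_zero R M p
  obtain ⟨s, hs⟩ := exists_contr (Mod2B_del R M) (Mod2B_eps R M) (Pi.single 0 p) hdd hed hept hdpt
    (Mod2B_exact R M)
  refine ⟨∀ i, M.Q i, inferInstance, inferInstance,
    { del := Mod2B_del R M
      eps := Mod2B_eps R M
      s := s
      pt := Pi.single 0 p
      n := n
      pi := Mod2B_pi R M
      del_del := hdd
      eps_del := hed
      eps_pt := hept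
      del_pt := hdpt
      contr := hs
      pi_sum := Mod2B_sum R M n hn
      pi_big := ?_
      pi_pi := ?_
      del_pi_succ := ?_
      del_pi_zero := ?_
      eps_pi := ?_ }, Mod2B_rho R M, ⟨?_, ?_, ?_, Mod2B_pl R M n hn⟩, ?_⟩
  · intro q hq x
    rw [Mod2B_pi_apply, hn q hq (x q), Pi.single_zero]
  · intro q r x
    rw [Mod2B_pi_apply, Mod2B_pi_apply]
    split_ifs with h
    · subst h
      rw [Pi.single_eq_same]
    · rw [Pi.single_eq_of_ne h, Pi.single_zero]
  · intro q x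
    rw [Mod2B_pi_apply, Mod2B_del_single_succ, Mod2B_pi_apply, Mod2B_del_apply]
  · intro x
    rw [Mod2B_pi_apply, Mod2B_del_single_zero]
  · intro q x
    rw [Mod2B_pi_apply, Mod2B_eps_apply, Mod2B_eps_apply]
    split_ifs with h
    · subst h
      rw [Pi.single_eq_same]
    · rw [Pi.single_eq_of_ne (Ne.symm h), map_zero]
  · intro g x
    funext i
    exact Mod2B_d_rho R M i g (x (i + 1))
  · intro g x
    exact Mod2B_eps_rho R M g (x 0)
  · intro q g x
    exact (Mod2B_rho_single R M g q (x q)).symm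
  · intro K _ _ chi hI c hc hcd
    have hca : ∀ (i : ℕ) (g : N) (x : M.Q i),
        c (Pi.single i (M.rho i g x)) = (chi g : K) * c (Pi.single i x) := by
      intro i g x
      rw [← Mod2B_rho_single, hc g]
    have hcs : ∀ (i : ℕ) (x : M.Q (i + 1)), c (Pi.single i (M.d i x)) = 0 := by
      intro i x
      rw [← Mod2B_del_single_succ]
      exact hcd _
    let ci : ∀ i, R.P i →+ K := fun i =>
      (c.toAddMonoidHom.comp (LinearMap.single (ZMod 2) M.Q i).toAddMonoidHom).comp (M.q i)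
    have hci : ∀ i x, ci i x = c (Pi.single i (M.q i x)) := fun i x => rfl
    have hcie : ∀ i, IEqf R chi i (ci i) := by
      intro i g x
      rw [hci, hci, ← M.rho_q, hca]
    have hcid : ∀ i y, ci i (R.d i y) = 0 := by
      intro i y
      rw [hci, ← M.d_q, hcs]
    have hc0 : ∀ x : M.Q 0, c (Pi.single 0 x) = 0 := by
      intro x
      obtain ⟨y, rfl⟩ := M.q_surj _ x
      rw [← hci, hI.1 (ci 0) (hcie 0) (hcid 0)]
      rfl
    choose b hb1 hb2 using fun i => hI.2 i (ci (i + 1)) (hcie (i + 1)) (hcid (i + 1))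
    choose b' hb' using fun i => Mod2B_descend R M i (b i)
    refine ⟨∑ i ∈ Finset.range n, (b' i) ∘ₗ (LinearMap.proj i), ?_, ?_⟩
    · intro g x
      simp only [LinearMap.sum_apply, LinearMap.comp_apply, LinearMap.proj_apply]
      rw [Finset.mul_sum]
      refine Finset.sum_congr rfl fun i _ => ?_
      rw [Mod2B_rho_apply]
      obtain ⟨y, hy⟩ := M.q_surj _ (x i)
      rw [← hy, M.rho_q, hb', hb', hb1 i]
    · intro x
      simp only [LinearMap.sum_apply, LinearMap.comp_apply, LinearMap.proj_apply]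
      have e1 : ∀ i, b' i (Mod2B_del R M x i) = c (Pi.single (i + 1) (x (i + 1))) := by
        intro i
        obtain ⟨y, hy⟩ := M.q_surj _ (x (i + 1))
        rw [Mod2B_del_apply, ← hy, M.d_q, hb', ← hb2, hci]
      have e2 : c x = ∑ q ∈ Finset.range n, c (Pi.single q (x q)) := by
        conv_lhs => rw [← Mod2B_sum R M n hn x]
        rw [map_sum]
        rfl
      rw [e2, Finset.sum_congr rfl fun i _ => e1 i]
      have e3 := Finset.sum_range_succ' (fun i => c (Pi.single i (x i))) n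
      have e4 := Finset.sum_range_succ (fun i => c (Pi.single i (x i))) n
      rw [e4] at e3
      rw [hc0, add_zero, hn n le_rfl (x n), Pi.single_zero, map_zero, add_zero] at e3
      exact e3

end Pool.Agent.helper81.PD
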