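import Pool.Agent.helper81.PD.Red
import Pool.Agent.helper81.PD.Defs

/-! # PDS-NoTors: no 2-torsion -/

namespace Pool.Agent.helper81.PD

variable {G : Type} [Group G] {P : Type} [AddCommGroup P] [Module (ZMod 2) P]

theorem NoTors_aa (a : ZMod 2) : a + a = 0 := CharTwo.add_self_eq_zero a

/-- the coboundary for an involution -/
def NoTors_D (C : Cx P) (R : P →ₗ[ZMod 2] P) :
    (P →ₗ[ZMod 2] ZMod 2) →+ (P →ₗ[ZMod 2] ZMod 2) where
  toFun f := f.comp C.del + f + f.comp R
  map_zero' := by
    ext x
    simp
  map_add' f f' := by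
    ext x
    simp only [LinearMap.add_apply, LinearMap.comp_apply]
    abel

theorem NoTors_D_apply (C : Cx P) (R : P →ₗ[ZMod 2] P) (f : P →ₗ[ZMod 2] ZMod 2) (x : P) :
    NoTors_D C R f x = f (C.del x) + f x + f (R x) := rfl

/-- functionals invariant under a free involution are norms -/
theorem NoTors_norm {rho : G →* Module.End (ZMod 2) P} (h : PL rho) {g : G} (hg : g * g = 1)
    (hg1 : g ≠ 1) (f : P →ₗ[ZMod 2] ZMod 2) (hf : ∀ x, f (rho g x) = f x) :
    ∃ u : P →ₗ[ZMod 2] ZMod 2, ∀ x, f x = u x + u (rho g x) := by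
  classical
  obtain ⟨T, _, hT, i, r, hi, hr, hri⟩ := h
  let _ : LinearOrder T := linearOrderOfSTO WellOrderingRel
  have hgg : ∀ t : T, g • g • t = t := fun t => by rw [smul_smul, hg, one_smul]
  have hne : ∀ t : T, g • t ≠ t := fun t ht => hg1 (hT g t ht)
  have hs : ∀ (t : T) (a : ZMod 2), f (r (Finsupp.single (g • t) a)) =
      f (r (Finsupp.single t a)) := by
    intro t a
    have h1 := hr g (Finsupp.single t a)
    rw [Finsupp.mapDomain_single] at h1
    rw [h1, hf]
  let L : (T →₀ ZMod 2) →ₗ[ZMod 2] ZMod 2 := Finsupp.linearCombination (ZMod 2)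
    (fun t => if t < g • t then f (r (Finsupp.single t 1)) else 0)
  have hL : ∀ (t : T) (a : ZMod 2), L (Finsupp.single t a) =
      if t < g • t then f (r (Finsupp.single t a)) else 0 := by
    intro t a
    have h1 : Finsupp.single t a = a • Finsupp.single t (1 : ZMod 2) := by
      rw [Finsupp.smul_single, smul_eq_mul, mul_one]
    rw [show L (Finsupp.single t a) = a • (if t < g • t then f (r (Finsupp.single t 1)) else 0) from
      Finsupp.linearCombination_single _ _ _]
    split_ifs with h2
    · rw [h1, map_smul, map_smul]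
    · rw [smul_zero]
  have key : ∀ y : T →₀ ZMod 2, f (r y) = L y + L (Finsupp.mapDomain (fun t => g • t) y) := by
    intro y
    induction y using Finsupp.induction_linear with
    | zero => rw [Finsupp.mapDomain_zero, map_zero, map_zero, map_zero, add_zero]
    | add a b ha hb =>
      rw [map_add, map_add, ha, hb, map_add, Finsupp.mapDomain_add, map_add]
      abel
    | single t a =>
      rw [Finsupp.mapDomain_single, hL, hL, hgg, hs]
      rcases lt_trichotomy t (g • t) with h1 | h1 | h1
      · rw [if_pos h1, if_neg (not_lt.2 h1.le), add_zero]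
      · exact absurd h1.symm (hne t)
      · rw [if_neg (not_lt.2 h1.le), if_pos h1, zero_add]
  refine ⟨L.comp i, fun x => ?_⟩
  rw [LinearMap.comp_apply, LinearMap.comp_apply, hi, ← key, hri]

theorem NoTors_pi_del (C : Cx P) {j k : ℕ} (hjk : j ≤ k) (x : P) :
    C.pi k (C.del (C.pi j x)) = 0 := by
  cases j with
  | zero => rw [C.del_pi_zero, map_zero]
  | succ j => rw [C.del_pi_succ, C.pi_pi, if_neg (by omega)]

section

variable {C : Cx P} {rho : G →* Module.End (ZMod 2) P} {g : G}

theorem NoTors_rr (hg : g * g = 1) (x : P) : rho g (rho g x) = x := by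
  have h1 := map_mul rho g g
  rw [hg, map_one] at h1
  exact (LinearMap.congr_fun h1 x).symm

theorem NoTors_DD (hA : Act C rho) (hg : g * g = 1) (f : P →ₗ[ZMod 2] ZMod 2) :
    NoTors_D C (rho g) (NoTors_D C (rho g) f) = 0 := by
  ext x
  simp only [NoTors_D_apply, C.del_del, hA.del, NoTors_rr hg, map_zero, LinearMap.zero_apply]
  have h1 := NoTors_aa (f (C.del x))
  have h2 := NoTors_aa (f (rho g (C.del x)))
  have h3 := NoTors_aa (f x)
  have h4 := NoTors_aa (f (rho g x))
  linear_combination h1 + h2 + h3 + h4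

theorem NoTors_exact (hA : Act C rho) (hg : g * g = 1) (hg1 : g ≠ 1) (m : ℕ) :
    ∀ k, k + m = C.n → ∀ f : P →ₗ[ZMod 2] ZMod 2, NoTors_D C (rho g) f = 0 →
      (∀ j < k, ∀ x, f (C.pi j x) = 0) → ∃ u, f = NoTors_D C (rho g) u := by
  induction m with
  | zero =>
    intro k hk f _ hf
    refine ⟨0, ?_⟩
    rw [map_zero]
    ext x
    rw [← C.pi_sum x, map_sum, LinearMap.zero_apply]
    exact Finset.sum_eq_zero fun q hq => hf q (by rw [Finset.mem_range] at hq; omega) x
  | succ m ih =>
    intro k hk f hD hf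
    have h0 : ∀ x, f (C.del (C.pi k x)) = 0 := by
      intro x
      cases k with
      | zero => rw [C.del_pi_zero, map_zero]
      | succ k => rw [C.del_pi_succ, hf k (by omega)]
    have h1 : ∀ x, (f.comp (C.pi k)) (rho g x) = (f.comp (C.pi k)) x := by
      intro x
      rw [LinearMap.comp_apply, LinearMap.comp_apply, hA.pi]
      have h2 := LinearMap.congr_fun hD (C.pi k x)
      rw [NoTors_D_apply, h0, LinearMap.zero_apply, zero_add] at h2
      have h3 := NoTors_aa (f (C.pi k x))
      linear_combination h2 - h3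
    obtain ⟨u, hu⟩ := NoTors_norm hA.pl hg hg1 _ h1
    have hu' : ∀ x, f (C.pi k x) = u (C.pi k x) + u (C.pi k (rho g x)) := by
      intro x
      have h2 := hu (C.pi k x)
      rw [LinearMap.comp_apply, C.pi_pi, if_pos rfl] at h2
      rw [h2, hA.pi]
    obtain ⟨u1, hu1⟩ := ih (k + 1) (by omega) (f + NoTors_D C (rho g) (u.comp (C.pi k)))
      (by rw [map_add, hD, NoTors_DD hA hg, add_zero]) (by
        intro j hj x
        rw [LinearMap.add_apply, NoTors_D_apply, LinearMap.comp_apply, LinearMap.comp_apply,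
          LinearMap.comp_apply, NoTors_pi_del C (by omega), map_zero, zero_add, ← hu']
        rw [C.pi_pi]
        rcases Nat.lt_or_ge j k with h3 | h3
        · rw [if_neg (by omega), hf j h3, map_zero, add_zero]
        · have h4 : k = j := by omega
          rw [if_pos h4, NoTors_aa])
    refine ⟨u.comp (C.pi k) + u1, ?_⟩
    rw [map_add, ← hu1]
    ext x
    rw [LinearMap.add_apply, LinearMap.add_apply]
    have h3 := NoTors_aa (NoTors_D C (rho g) (u.comp (C.pi k)) x)
    linear_combination -h3

/-- functionals without parts of degree above `q` -/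
def NoTors_F (C : Cx P) (q : ℕ) : AddSubgroup (P →ₗ[ZMod 2] ZMod 2) where
  carrier := {f | ∀ j, q < j → ∀ x, f (C.pi j x) = 0}
  zero_mem' := fun j _ x => rfl
  add_mem' := by
    intro a b ha hb j hj x
    rw [LinearMap.add_apply, ha j hj, hb j hj, add_zero]
  neg_mem' := by
    intro a ha j hj x
    rw [LinearMap.neg_apply, ha j hj, neg_zero]

end

theorem no_two_torsion (C : Cx P) (rho : G →* Module.End (ZMod 2) P) (hA : Act C rho) (g : G)
    (hg : g * g = 1) : g = 1 := by
  by_contra hg1
  obtain ⟨u, hu⟩ := NoTors_exact hA hg hg1 C.n 0 (by omega) C.eps (by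
    ext x
    rw [NoTors_D_apply, C.eps_del, hA.eps, zero_add, NoTors_aa]
    rfl) (fun j hj => absurd hj (by omega))
  obtain ⟨v, -, hv⟩ := reduce (NoTors_D C (rho g)) (NoTors_DD hA hg) ⊤
    (fun _ _ => AddSubgroup.mem_top _) (NoTors_F C)
    (fun q f hf j hj => hf j (by omega))
    (by
      intro q w _ hw hDw
      have h1 : ∀ x, w (C.pi (q + 1) (C.del x)) = 0 := by
        intro x
        have h2 := hDw (q + 2) (by omega) x
        rw [NoTors_D_apply, hw (q + 2) (by omega), ← hA.pi, hw (q + 2) (by omega), add_zero,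
          add_zero, C.del_pi_succ] at h2
        exact h2
      have h3 : ∀ x, w (C.pi (q + 1) x) = w (C.pi (q + 1) (C.s (C.pi q (C.del x)))) := by
        intro x
        have h4 := congrArg (fun y => w (C.pi (q + 1) y)) (C.contr (C.pi (q + 1) x))
        simp only [map_add, C.eps_pi, C.del_pi_succ, C.pi_pi, h1, if_true] at h4
        rw [if_neg (by omega), zero_smul, map_zero, map_zero, add_zero, zero_add] at h4
        exact h4.symm
      refine ⟨(w.comp (C.pi (q + 1))).comp (C.s.comp (C.pi q)), AddSubgroup.mem_top _, ?_⟩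
      intro j hj x
      rw [LinearMap.sub_apply, NoTors_D_apply]
      simp only [LinearMap.comp_apply]
      rw [← h3, ← hA.pi, C.pi_pi, C.pi_pi, C.pi_pi, if_neg (by omega : ¬ q = j),
        if_neg (by omega : ¬ q = j)]
      simp only [map_zero, add_zero]
      rcases eq_or_ne (q + 1) j with h5 | h5
      · rw [if_pos h5, sub_self]
      · rw [if_neg h5, hw j (by omega), map_zero, sub_zero])
    C.n u (AddSubgroup.mem_top _) (fun j hj x => by rw [C.pi_big j hj.le, map_zero])
    (by
      rw [← hu]
      intro j hj x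
      rw [C.eps_pi, if_neg (by omega)])
  set w := u - NoTors_D C (rho g) v with hw
  have hDw : NoTors_D C (rho g) w = C.eps := by
    rw [hw, map_sub, NoTors_DD hA hg, sub_zero, ← hu]
  have h0 : ∀ x, w (C.pi 0 x) = w x := by
    intro x
    have h1 : ∑ q ∈ Finset.range C.n, w (C.pi q x) = w x := by
      rw [← map_sum, C.pi_sum]
    rw [← h1]
    rcases Nat.eq_zero_or_pos C.n with h2 | h2
    · rw [h2, Finset.sum_range_zero, C.pi_big 0 (by omega) x]
      exact map_zero w
    · rw [Finset.sum_eq_single_of_mem (f := fun q => w (C.pi q x)) 0 (Finset.mem_range.2 h2)]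
      intro j _ hj
      exact hv j (by omega) x
  have h1 : ∀ x, w (C.del x) = 0 := by
    intro x
    have h2 := LinearMap.congr_fun hDw (C.pi 1 x)
    rw [NoTors_D_apply, ← hA.pi, hv 1 (by omega), hv 1 (by omega), add_zero, add_zero,
      C.eps_pi, if_neg (by omega), show (1 : ℕ) = 0 + 1 from rfl, C.del_pi_succ, h0] at h2
    exact h2
  have h2 : ∀ x, w x = C.eps x * w C.pt := by
    intro x
    have h3 := congrArg w (C.contr (C.pi 0 x))
    rw [C.del_pi_zero, map_zero, add_zero, h1, map_add, h0, C.eps_pi, if_pos rfl, map_smul,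
      smul_eq_mul] at h3
    have h4 := NoTors_aa (C.eps x * w C.pt)
    linear_combination -h3 - h4
  have h3 := LinearMap.congr_fun hDw C.pt
  rw [NoTors_D_apply, h1, h2 (rho g C.pt), hA.eps, C.eps_pt, one_mul, zero_add, NoTors_aa] at h3
  exact zero_ne_one h3

end Pool.Agent.helper81.PD
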