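import Pool.Agent.helper81.PD.TwoGrp
import Pool.Agent.helper81.PD.NoTors
import Pool.Agent.helper81.PD.Mod2A
import Pool.Agent.helper81.PD.Mod2B
import Pool.Agent.helper81.PD.Dual3
import Pool.Agent.helper81.PD.Flux
import Pool.Agent.helper81.PD.Betti
import Pool.Agent.helper81.PD.Lau
import Pool.Agent.helper81.PD.GrpZ
import Pool.Agent.helper81.PD.ExPrin

/-! # PDS-Fin: the main theorem -/

namespace Pool.Agent.helper81.PD

variable {N : Type} [Group N]

/-- a non-principal derivation gives the conclusion -/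
theorem concl_of_not_prin (R : FPRes N) (phi : N →* Multiplicative ℤ) (t : N)
    (ht : dg phi t = 1) (hn : ¬ Prin (chiOf phi)) : Concl N := by
  unfold Prin at hn
  push Not at hn
  obtain ⟨D, hD, hv⟩ := hn
  obtain ⟨a, ha, hat, g0, hg0, hag0⟩ := exists_LDer (fg_of_FPRes R) phi t ht D hD (by
    rintro ⟨v, h⟩
    obtain ⟨g, hg⟩ := hv v
    exact hg (h g))
  obtain ⟨m, hm, ⟨i0, hi0⟩, s0, D', hD', hDt⟩ := exists_flux R phi t ht a ha hat (a g0) hag0
  exact concl_of_flux phi t ht a ha hat g0 hg0 m hm i0 hi0 s0 D' hD' hDt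

theorem chiOf_inv (phi : N →* Multiplicative ℤ) : (chiOf phi)⁻¹ = chiOf phi⁻¹ := by
  ext g
  simp [chiOf]

theorem main_surj (R : FPRes N) (hR : Dual3 R) {F : Type} [Group F] [MulDistribMulAction F N]
    (V : Subgroup F) [Finite V] (hV : IsPGroup 2 V) (psi : N →* Multiplicative ℤ) (t : N)
    (ht : dg psi t = 1) (hinv : ∀ v ∈ V, ∀ x : N, psi (v • x) = psi x)
    (hfix : (∀ x ∈ fixSub (N := N) V, psi x = 1) ∨
      ¬ Prin ((chiOf psi).comp (fixSub (N := N) V).subtype)) : Concl N := by
  by_contra hcon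
  have h1 : Prin (chiOf psi) := by
    by_contra h
    exact hcon (concl_of_not_prin R psi t ht h)
  have h2 : Prin (chiOf psi)⁻¹ := by
    by_contra h
    rw [chiOf_inv] at h
    refine hcon (concl_of_not_prin R psi⁻¹ t⁻¹ ?_ h)
    simpa [dg] using ht
  have hne : ∃ g, chiOf psi g ≠ 1 := by
    refine ⟨t, fun h => ?_⟩
    have h3 := congrArg (fun u : KKˣ => (u : KK)) h
    simp only [chiOf_apply, ht, Units.val_one] at h3
    have h4 := IsFractionRing.injective (LaurentPolynomial (ZMod 2)) KK
      (h3.trans (map_one _).symm)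
    rw [← LaurentPolynomial.T_zero] at h4
    have h5 : (1 : ℤ) = 0 := by
      by_contra h6
      have h7 := congrArg (fun f : LaurentPolynomial (ZMod 2) => f.coeff 1) h4
      simp only [LaurentPolynomial.T_apply] at h7
      norm_num at h7
    norm_num at h5
  have hI : IEx R (chiOf psi) := dual_exact R hR _ hne h1 h2
  obtain ⟨M⟩ := exists_GC R
  obtain ⟨P, _, _, C, rho, hA, hEx⟩ := exists_Cx R M
  have hE := hEx KK (chiOf psi) hI
  have hE2 := two_group V hV C rho hA (chiOf psi)
    (fun v hv x => by simp only [chiOf, MonoidHom.comp_apply, hinv v hv x])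
    (no_two_torsion C rho hA) hE (fixSub V) (fun x => Iff.rfl)
  rcases hfix with hfix | hfix
  swap
  · exact hfix (prin_of_Ex C _ (hA.res _) _ hE2)
  obtain ⟨b, -, hb⟩ := hE2 ((Algebra.linearMap (ZMod 2) KK).comp C.eps) (by
    intro g x
    have h3 : psi (g : N) = 1 := hfix g g.2
    simp [chiOf, h3, hA.eps]) (by
    intro x
    simp [C.eps_del])
  have h4 := hb C.pt
  simp [C.eps_pt, C.del_pt] at h4

theorem main (hN : IsPD3 N) (phi : N →* Multiplicative ℤ) (hphi : Function.Surjective phi)
    {F : Type} [Group F] [MulDistribMulAction F N] (V : Subgroup F) [Finite V]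
    (hV : IsPGroup 2 V)
    (hinv : (∀ v ∈ V, ∀ x : N, phi (v • x) = phi x) ∨ ∀ f : F →* ℤˣ, ∀ v ∈ V, f v = 1)
    (hfix : (∀ x ∈ fixSub (N := N) V, phi x = 1) ∨
      ¬ Prin ((chiOf phi).comp (fixSub (N := N) V).subtype)) : Concl N := by
  obtain ⟨R, hR⟩ := hN
  obtain ⟨t, ht⟩ := hphi (Multiplicative.ofAdd 1)
  have ht1 : dg phi t = 1 := by simp only [dg, ht, toAdd_ofAdd]
  rcases hinv with hinv | hF
  · exact main_surj R hR V hV phi t ht1 hinv hfix
  · by_cases hr : 2 ≤ Module.rank ℤ (Additive (Abelianization N))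
    · refine ⟨⊤, inferInstance, ?_⟩
      have e : Additive (Abelianization (⊤ : Subgroup N)) ≃+ Additive (Abelianization N) :=
        (Subgroup.topEquiv (G := N)).abelianizationCongr.toAdditive
      rw [e.toIntLinearEquiv.rank_eq]
      exact hr
    · have hne : phi ≠ 1 := by
        rintro rfl
        simp [dg] at ht1
      obtain ⟨f, hf⟩ := sign_of_rank hr phi hne (F := F)
      refine main_surj R hR V hV phi t ht1 ?_ hfix
      intro v hv x
      have h1 := hf v x
      rw [hF f v hv] at h1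
      simp only [dg, Units.val_one, one_mul] at h1
      exact Multiplicative.toAdd.injective h1

end Pool.Agent.helper81.PD
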