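import Pool.Agent.helper81.PD.RestrA

/-! # PDS-Restr: subgroups of finite index of PD_3-groups are PD_3-groups -/

namespace Pool.Agent.helper81.PD

variable {G : Type} [Group G]

section Res

variable (N : Subgroup G) [Fintype (G ⧸ N)] (R : FPRes G)

/-- the resolution with restricted scalars -/
noncomputable def Restr_R : FPRes N where
  P := R.P
  acg := R.acg
  mod := fun i => Module.compHom (R.P i) (Restr_j N)
  fin := fun i => by
    have := R.fin i
    exact Restr_fin N (R.P i)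
  proj := fun i => by
    have := R.proj i
    exact Restr_proj N (R.P i)
  bdd := R.bdd
  d := fun i =>
    letI := Module.compHom (R.P (i + 1)) (Restr_j N)
    letI := Module.compHom (R.P i) (Restr_j N)
    { toFun := R.d i
      map_add' := (R.d i).map_add
      map_smul' := fun a x => (R.d i).map_smul (Restr_j N a) x }
  eps := R.eps
  eps_smul := fun g x => by
    have h1 : Restr_j N (MonoidAlgebra.of ℤ N g) = MonoidAlgebra.of ℤ G (g : G) := by
      rw [MonoidAlgebra.of_apply, Restr_j_single, MonoidAlgebra.of_apply]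
    show R.eps (Restr_j N (MonoidAlgebra.of ℤ N g) • x) = _
    rw [h1]
    exact R.eps_smul (g : G) x
  eps_surj := R.eps_surj
  exact_zero := R.exact_zero
  exact_succ := R.exact_succ

theorem Restr_smul (i : ℕ) (a : MonoidAlgebra ℤ N) (x : R.P i) :
    @HSMul.hSMul _ _ _ (@instHSMul (MonoidAlgebra ℤ N) ((Restr_R N R).P i) _) a x =
      Restr_j N a • x := rfl

/-- restriction of cochains -/
noncomputable def Restr_Phi (i : ℕ) : Coch R i →+ Coch (Restr_R N R) i where
  toFun f :=
    { toFun := fun x => Restr_pr N (f (x : R.P i))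
      map_add' := fun (x : R.P i) (y : R.P i) => by
        have h1 : f (x + y) = f x + f y := f.map_add x y
        have h2 : Restr_pr N (f (x + y)) = Restr_pr N (f x) + Restr_pr N (f y) := by
          rw [h1, map_add]
        exact h2
      map_smul' := fun a (x : R.P i) => by
        have h1 : f (Restr_j N a • x) = Restr_j N a * f x := f.map_smul _ x
        have h2 : Restr_pr N (f (Restr_j N a • x)) = a * Restr_pr N (f x) := by
          rw [h1, Restr_pr_j_mul]
        exact h2 }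
  map_zero' := by
    refine LinearMap.ext fun x => ?_
    exact map_zero (Restr_pr N)
  map_add' f g := by
    refine LinearMap.ext fun x => ?_
    exact map_add (Restr_pr N) _ _

theorem Restr_Phi_apply (i : ℕ) (f : Coch R i) (x : R.P i) :
    Restr_Phi N R i f x = Restr_pr N (f x) := rfl

theorem Restr_cob (i : ℕ) (f : Coch R i) :
    cob (Restr_R N R) i (Restr_Phi N R i f) = Restr_Phi N R (i + 1) (cob R i f) := rfl

theorem Restr_Phi_inj (i : ℕ) : Function.Injective (Restr_Phi N R i) := by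
  rw [injective_iff_map_eq_zero]
  intro f hf
  refine LinearMap.ext fun x => ?_
  ext g
  have h1 : f (MonoidAlgebra.of ℤ G g⁻¹ • x) = MonoidAlgebra.of ℤ G g⁻¹ * f x := f.map_smul _ x
  have h2 : Restr_pr N (f (MonoidAlgebra.of ℤ G g⁻¹ • x)) = 0 := by
    rw [← Restr_Phi_apply, hf]
    rfl
  have h3 := Restr_pr_coeff N (f (MonoidAlgebra.of ℤ G g⁻¹ • x)) 1
  rw [h2, h1, MonoidAlgebra.of_apply] at h3
  simpa using h3.symm

theorem Restr_sum {A : Type*} [AddCommMonoid A] (f : G → A)
    (hf : ∀ (g : G) (n : N), f (g * n) = f g) (k : G) :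
    ∑ q : G ⧸ N, f (k * q.out) = ∑ q : G ⧸ N, f q.out := by
  have h1 : ∀ g : G, f (QuotientGroup.mk g : G ⧸ N).out = f g := by
    intro g
    obtain ⟨h, hh⟩ := QuotientGroup.mk_out_eq_mul N g
    rw [hh, hf]
  rw [← Equiv.sum_comp (MulAction.toPerm k : Equiv.Perm (G ⧸ N)) fun q => f q.out]
  refine Finset.sum_congr rfl fun q _ => ?_
  have h2 : (MulAction.toPerm k : Equiv.Perm (G ⧸ N)) q = QuotientGroup.mk (k * q.out) := by
    conv_lhs => rw [← QuotientGroup.out_eq' q]
    rfl
  rw [h2, h1]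

theorem Restr_pr_of_mul_j_not (t : G) (ht : t ∉ N) (b : MonoidAlgebra ℤ N) :
    Restr_pr N (MonoidAlgebra.of ℤ G t * Restr_j N b) = 0 := by
  induction b using MonoidAlgebra.induction_linear with
  | zero => simp
  | add f g hf hg => rw [map_add, mul_add, map_add, hf, hg, add_zero]
  | single n z =>
    rw [Restr_j_single, MonoidAlgebra.of_apply, MonoidAlgebra.single_mul_single,
      Restr_pr_single_not]
    exact fun h => ht ((N.mul_mem_cancel_right n.2).1 h)

theorem Restr_j_of (n : N) :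
    Restr_j N (MonoidAlgebra.of ℤ N n) = MonoidAlgebra.of ℤ G (n : G) := by
  rw [MonoidAlgebra.of_apply, Restr_j_single, MonoidAlgebra.of_apply]

/-- one term of the extension of a cochain -/
noncomputable def Restr_F (i : ℕ) (h : Coch (Restr_R N R) i) (x : R.P i) (g : G) :
    MonoidAlgebra ℤ G :=
  MonoidAlgebra.of ℤ G g * Restr_j N (h (MonoidAlgebra.of ℤ G g⁻¹ • x : R.P i))

theorem Restr_h_smul (i : ℕ) (h : Coch (Restr_R N R) i) (a : MonoidAlgebra ℤ N) (x : R.P i) :
    h (Restr_j N a • x : R.P i) = a * h x := h.map_smul a x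

theorem Restr_F_mul (i : ℕ) (h : Coch (Restr_R N R) i) (x : R.P i) (g : G) (n : N) :
    Restr_F N R i h x (g * n) = Restr_F N R i h x g := by
  unfold Restr_F
  have h1 : (MonoidAlgebra.of ℤ G (g * n)⁻¹ • x : R.P i) =
      Restr_j N (MonoidAlgebra.of ℤ N n⁻¹) • (MonoidAlgebra.of ℤ G g⁻¹ • x : R.P i) := by
    rw [Restr_j_of, smul_smul, ← map_mul]
    simp
  rw [h1, Restr_h_smul, map_mul (Restr_j N), Restr_j_of, ← mul_assoc, ← map_mul]
  simp

theorem Restr_F_smul (i : ℕ) (h : Coch (Restr_R N R) i) (x : R.P i) (k g : G) :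
    Restr_F N R i h (MonoidAlgebra.of ℤ G k • x) g =
      MonoidAlgebra.of ℤ G k * Restr_F N R i h x (k⁻¹ * g) := by
  unfold Restr_F
  have h1 : (MonoidAlgebra.of ℤ G g⁻¹ • (MonoidAlgebra.of ℤ G k • x : R.P i) : R.P i) =
      MonoidAlgebra.of ℤ G (k⁻¹ * g)⁻¹ • x := by
    rw [smul_smul, ← map_mul]
    simp
  rw [h1, ← mul_assoc, ← map_mul]
  simp

theorem Restr_F_add (i : ℕ) (h : Coch (Restr_R N R) i) (x y : R.P i) (g : G) :
    Restr_F N R i h (x + y) g = Restr_F N R i h x g + Restr_F N R i h y g := by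
  unfold Restr_F
  have h1 : h ((MonoidAlgebra.of ℤ G g⁻¹ • x : R.P i) + (MonoidAlgebra.of ℤ G g⁻¹ • y : R.P i)) =
      h (MonoidAlgebra.of ℤ G g⁻¹ • x : R.P i) + h (MonoidAlgebra.of ℤ G g⁻¹ • y : R.P i) :=
    h.map_add _ _
  rw [smul_add, h1, map_add, mul_add]

/-- extension of cochains, as an additive map -/
noncomputable def Restr_Psi0 (i : ℕ) (h : Coch (Restr_R N R) i) : R.P i →+ MonoidAlgebra ℤ G where
  toFun x := ∑ q : G ⧸ N, Restr_F N R i h x q.out
  map_zero' := by
    refine Finset.sum_eq_zero fun q _ => ?_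
    unfold Restr_F
    have h1 : h (0 : R.P i) = 0 := h.map_zero
    rw [smul_zero, h1, map_zero, mul_zero]
  map_add' x y := by
    rw [← Finset.sum_add_distrib]
    exact Finset.sum_congr rfl fun q _ => Restr_F_add N R i h x y q.out

theorem Restr_Psi0_of (i : ℕ) (h : Coch (Restr_R N R) i) (k : G) (x : R.P i) :
    Restr_Psi0 N R i h (MonoidAlgebra.of ℤ G k • x) =
      MonoidAlgebra.of ℤ G k * Restr_Psi0 N R i h x := by
  show ∑ q : G ⧸ N, Restr_F N R i h (MonoidAlgebra.of ℤ G k • x) q.out =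
    MonoidAlgebra.of ℤ G k * ∑ q : G ⧸ N, Restr_F N R i h x q.out
  rw [← Restr_sum N (Restr_F N R i h x) (Restr_F_mul N R i h x) k⁻¹, Finset.mul_sum]
  exact Finset.sum_congr rfl fun q _ => Restr_F_smul N R i h x k q.out

theorem Restr_Psi0_smul (i : ℕ) (h : Coch (Restr_R N R) i) (a : MonoidAlgebra ℤ G) (x : R.P i) :
    Restr_Psi0 N R i h (a • x) = a * Restr_Psi0 N R i h x := by
  induction a using MonoidAlgebra.induction_on with
  | of k => exact Restr_Psi0_of N R i h k x
  | add a b ha hb => rw [add_smul, map_add, ha, hb, add_mul]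
  | smul r a ha =>
    have h1 : (r • a) • x = r • (a • x) := by
      rw [← smul_assoc]
    rw [h1, map_zsmul, ha, smul_mul_assoc]

/-- extension of cochains -/
noncomputable def Restr_Psi (i : ℕ) (h : Coch (Restr_R N R) i) : Coch R i where
  toFun := Restr_Psi0 N R i h
  map_add' := map_add _
  map_smul' := Restr_Psi0_smul N R i h

theorem Restr_Phi_Psi (i : ℕ) (h : Coch (Restr_R N R) i) :
    Restr_Phi N R i (Restr_Psi N R i h) = h := by
  classical
  refine LinearMap.ext fun (x : R.P i) => ?_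
  show Restr_pr N (∑ q : G ⧸ N, Restr_F N R i h x q.out) = h x
  rw [map_sum, Finset.sum_eq_single (QuotientGroup.mk 1 : G ⧸ N)]
  · have h1 : (QuotientGroup.mk 1 : G ⧸ N).out ∈ N := by
      obtain ⟨n, hn⟩ := QuotientGroup.mk_out_eq_mul N 1
      rw [hn, one_mul]
      exact n.2
    set t : N := ⟨_, h1⟩ with ht
    have h2 : (QuotientGroup.mk 1 : G ⧸ N).out = (t : G) := rfl
    rw [h2]
    unfold Restr_F
    rw [← Restr_j_of, Restr_pr_j_mul, Restr_pr_j]
    have h3 : (MonoidAlgebra.of ℤ G (t : G)⁻¹ • x : R.P i) =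
        Restr_j N (MonoidAlgebra.of ℤ N t⁻¹) • x := by
      rw [Restr_j_of]
      rfl
    rw [h3, Restr_h_smul, ← mul_assoc, ← map_mul, mul_inv_cancel, map_one, one_mul]
  · intro q _ hq
    refine Restr_pr_of_mul_j_not N _ ?_ _
    intro h1
    apply hq
    rw [← QuotientGroup.out_eq' q, QuotientGroup.eq]
    simpa using h1
  · intro h1
    exact absurd (Finset.mem_univ _) h1

/-- the isomorphism of cochains -/
noncomputable def Restr_E (i : ℕ) : Coch R i ≃+ Coch (Restr_R N R) i :=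
  AddEquiv.ofBijective (Restr_Phi N R i)
    ⟨Restr_Phi_inj N R i, fun h => ⟨Restr_Psi N R i h, Restr_Phi_Psi N R i h⟩⟩

theorem Restr_E_cob (i : ℕ) (f : Coch R i) :
    cob (Restr_R N R) i (Restr_E N R i f) = Restr_E N R (i + 1) (cob R i f) := rfl

end Res

theorem Restr_quot {A B C A' B' C' : Type*} [AddCommGroup A] [AddCommGroup B] [AddCommGroup C]
    [AddCommGroup A'] [AddCommGroup B'] [AddCommGroup C'] (a : A →+ B) (b : B →+ C)
    (a' : A' →+ B') (b' : B' →+ C') (eA : A ≃+ A') (eB : B ≃+ B') (eC : C ≃+ C')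
    (ha : ∀ x, a' (eA x) = eB (a x)) (hb : ∀ x, b' (eB x) = eC (b x)) :
    Nonempty ((b.ker ⧸ (a.range.addSubgroupOf b.ker)) ≃+
      (b'.ker ⧸ (a'.range.addSubgroupOf b'.ker))) := by
  have hk : ∀ x, x ∈ b.ker ↔ eB x ∈ b'.ker := by
    intro x
    rw [AddMonoidHom.mem_ker, AddMonoidHom.mem_ker, hb]
    exact (map_eq_zero_iff eC eC.injective).symm
  let e : b.ker ≃+ b'.ker :=
    { toFun := fun x => ⟨eB x, (hk x).1 x.2⟩
      invFun := fun y => ⟨eB.symm y, (hk _).2 (by rw [AddEquiv.apply_symm_apply]; exact y.2)⟩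
      left_inv := fun x => Subtype.ext (eB.symm_apply_apply _)
      right_inv := fun y => Subtype.ext (eB.apply_symm_apply _)
      map_add' := fun x y => Subtype.ext (map_add eB _ _) }
  refine ⟨QuotientAddGroup.congr _ _ e ?_⟩
  ext y
  rw [AddSubgroup.mem_map, AddSubgroup.mem_addSubgroupOf]
  constructor
  · rintro ⟨x, hx, rfl⟩
    rw [AddSubgroup.mem_addSubgroupOf] at hx
    obtain ⟨z, hz⟩ := hx
    refine ⟨eA z, ?_⟩
    rw [ha, hz]
    rfl
  · rintro ⟨z', hz'⟩
    refine ⟨e.symm y, ?_, e.apply_symm_apply y⟩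
    rw [AddSubgroup.mem_addSubgroupOf]
    refine ⟨eA.symm z', ?_⟩
    apply eB.injective
    rw [← ha, AddEquiv.apply_symm_apply, hz']
    exact (eB.apply_symm_apply _).symm

theorem IsPD3.subgroup {G : Type} [Group G] (hG : IsPD3 G) (N : Subgroup G) [N.FiniteIndex] :
    IsPD3 N := by
  obtain ⟨R, h0, h1, ⟨h3⟩⟩ := hG
  letI : Fintype (G ⧸ N) := N.fintypeQuotientOfFiniteIndex
  refine ⟨Restr_R N R, ?_, ?_, ?_⟩
  · intro f hf
    obtain ⟨f', rfl⟩ := (Restr_E N R 0).surjective f
    rw [Restr_E_cob, map_eq_zero_iff _ (Restr_E N R 1).injective] at hf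
    rw [h0 f' hf, map_zero]
  · intro i hi f hf
    obtain ⟨f', rfl⟩ := (Restr_E N R (i + 1)).surjective f
    rw [Restr_E_cob, map_eq_zero_iff _ (Restr_E N R (i + 1 + 1)).injective] at hf
    obtain ⟨g, hg⟩ := h1 i hi f' hf
    exact ⟨Restr_E N R i g, by rw [Restr_E_cob, hg]⟩
  · obtain ⟨e⟩ := Restr_quot (cob R 2) (cob R 3) (cob (Restr_R N R) 2) (cob (Restr_R N R) 3)
      (Restr_E N R 2) (Restr_E N R 3) (Restr_E N R 4) (Restr_E_cob N R 2) (Restr_E_cob N R 3)
    exact ⟨e.symm.trans h3⟩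

end Pool.Agent.helper81.PD
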