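import Pool.Agent.helper81.PD.Fin
import Pool.Agent.helper81.PD.Restr

/-! # PDS-Fin2: the theorem for subgroups of finite index -/

namespace Pool.Agent.helper81.PD

theorem Concl.of_subgroup {G : Type} [Group G] (N : Subgroup G) [N.FiniteIndex]
    (h : Concl N) : Concl G := by
  obtain ⟨H, hH, h2⟩ := h
  have e : H ≃* H.map N.subtype := H.equivMapOfInjective _ N.subtype_injective
  refine ⟨H.map N.subtype, ?_, ?_⟩
  · constructor
    have h3 : (H.map N.subtype).index = H.index * N.index := by
      have h4 := Subgroup.relIndex_mul_index (H := H.map N.subtype) (K := N)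
        (Subgroup.map_subtype_le _)
      rw [← h4]
      congr 1
      rw [Subgroup.relIndex, Subgroup.subgroupOf, Subgroup.comap_map_eq_self_of_injective
        N.subtype_injective]
    rw [h3]
    exact mul_ne_zero hH.index_ne_zero (Subgroup.FiniteIndex.index_ne_zero)
  · have e2 : Additive (Abelianization (H.map N.subtype)) ≃+ Additive (Abelianization H) :=
      e.symm.abelianizationCongr.toAdditive
    rw [e2.toIntLinearEquiv.rank_eq]
    exact h2

theorem main3 {G : Type} [Group G] (hG : IsPD3 G) (N : Subgroup G) [N.FiniteIndex]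
    (phi : N →* Multiplicative ℤ) (hphi : Function.Surjective phi) {F : Type} [Group F]
    [MulDistribMulAction F N] (V : Subgroup F) [Finite V] (hV : IsPGroup 2 V)
    (hinv : (∀ v ∈ V, ∀ x : N, phi (v • x) = phi x) ∨ ∀ f : F →* ℤˣ, ∀ v ∈ V, f v = 1)
    (hfix : (∀ x ∈ fixSub (N := N) V, phi x = 1) ∨
      ¬ Prin ((chiOf phi).comp (fixSub (N := N) V).subtype)) : Concl G :=
  Concl.of_subgroup N (main (hG.subgroup N) phi hphi V hV hinv hfix)

end Pool.Agent.helper81.PD
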