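import Pool.Agent.helper81.PD.Fin2
import Pool.Agent.helper81.PD.Ans

/-!
# Project PDS (MP_64196d_al): the main theorem with the definitions of the statement
-/

namespace Pool.Agent.helper81.PD

variable {G : Type} [Group G]

/-- the resolution of the statement -/
def Fin3_res (R : Ans.FRes G) : FPRes G where
  P := R.P
  acg := R.acg
  mod := R.mod
  fin := R.fin
  proj := R.proj
  bdd := R.bdd
  d := R.d
  eps := R.eps
  eps_smul := R.eps_smul
  eps_surj := R.eps_surj
  exact_zero := R.exact_zero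
  exact_succ := R.exact_succ

theorem Fin3_cocycle (R : Ans.FRes G) (i : ℕ) (f : Ans.Cochain R i) :
    Ans.IsCocycle R i f ↔ cob (Fin3_res R) i f = 0 := by
  constructor
  · intro h
    exact LinearMap.ext fun y => h y
  · intro h y
    exact LinearMap.congr_fun h y

theorem Fin3_cobdry (R : Ans.FRes G) (i : ℕ) (f : Ans.Cochain R (i + 1)) :
    Ans.IsCobdry R i f ↔ ∃ g, cob (Fin3_res R) i g = f := by
  constructor
  · rintro ⟨g, hg⟩
    exact ⟨g, LinearMap.ext fun y => (hg y).symm⟩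
  · rintro ⟨g, hg⟩
    exact ⟨g, fun y => (LinearMap.congr_fun hg y).symm⟩

theorem Fin3_dual (R : Ans.FRes G) (h : Ans.Dual3 R) : Dual3 (Fin3_res R) := by
  obtain ⟨h0, h1, e, he, hs, hk⟩ := h
  refine ⟨?_, ?_, ?_⟩
  · intro f hf
    exact h0 f ((Fin3_cocycle R 0 f).2 hf)
  · intro i hi f hf
    exact (Fin3_cobdry R i f).1 (h1 i hi f ((Fin3_cocycle R (i + 1) f).2 hf))
  · let e' : (cob (Fin3_res R) 3).ker →+ ℤ := AddMonoidHom.mk' (fun x => e x.1) (by
      intro x y
      exact he x.1 y.1 ((Fin3_cocycle R 3 _).2 x.2) ((Fin3_cocycle R 3 _).2 y.2))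
    have he' : ∀ x, e' x = e x.1 := fun x => rfl
    have hsurj : Function.Surjective e' := by
      intro n
      obtain ⟨f, hf, hn⟩ := hs n
      exact ⟨⟨f, (Fin3_cocycle R 3 f).1 hf⟩, hn⟩
    have hker : (cob (Fin3_res R) 2).range.addSubgroupOf (cob (Fin3_res R) 3).ker = e'.ker := by
      ext x
      rw [AddSubgroup.mem_addSubgroupOf, AddMonoidHom.mem_ker, he', AddMonoidHom.mem_range,
        hk x.1 ((Fin3_cocycle R 3 _).2 x.2), Fin3_cobdry]
    exact ⟨(QuotientAddGroup.quotientAddEquivOfEq hker).trans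
      (QuotientAddGroup.quotientKerEquivOfSurjective e' hsurj)⟩

theorem Fin3_pd (h : Ans.IsPD3 G) : IsPD3 G := by
  obtain ⟨R, hR⟩ := h
  exact ⟨Fin3_res R, Fin3_dual R hR⟩

/-- the units `T n` -/
noncomputable def Fin3_T : Multiplicative ℤ →* (LaurentPolynomial (ZMod 2))ˣ where
  toFun n := ⟨LaurentPolynomial.T n.toAdd, LaurentPolynomial.T (-n.toAdd), by
    rw [← LaurentPolynomial.T_add]; simp, by rw [← LaurentPolynomial.T_add]; simp⟩
  map_one' := by
    ext1
    exact LaurentPolynomial.T_zero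
  map_mul' m n := by
    ext1
    exact LaurentPolynomial.T_add _ _

theorem Fin3_uu : zpowersHom KKˣ uu =
    (Units.map (algebraMap (LaurentPolynomial (ZMod 2)) KK).toMonoidHom).comp Fin3_T := by
  apply MonoidHom.ext_mint
  rw [zpowersHom_apply, toAdd_ofAdd, zpow_one]
  ext1
  rfl

theorem Fin3_chi {L : Type} [Group L] (phi : L →* Multiplicative ℤ) (g : L) :
    (Ans.spow (phi g).toAdd : KK) = ((zpowersHom KKˣ uu (phi g) : KKˣ) : KK) := by
  rw [Fin3_uu]
  rfl

theorem Fin3_prin {N : Type} [Group N] (phi : N →* Multiplicative ℤ) (L : Subgroup N)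
    (h : Ans.HasH1 (phi.comp L.subtype)) : ¬ Prin ((chiOf phi).comp L.subtype) := by
  obtain ⟨D, hD, hn⟩ := h
  intro hP
  apply hn
  obtain ⟨v, hv⟩ := hP D (by
    intro g h
    refine (hD g h).trans ?_
    have h1 := Fin3_chi (phi.comp L.subtype) g
    exact congrArg (fun c : Ans.K2 => D g + c * D h) h1)
  refine ⟨v, fun g => (hv g).trans ?_⟩
  have h1 := Fin3_chi (phi.comp L.subtype) g
  exact congrArg (fun c : KK => (c - 1) * v) h1.symm

end Pool.Agent.helper81.PD
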