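import Pool.Agent.helper81.PD.Defs

/-! # PDS-Lift: lifting equivariant maps -/

namespace Pool.Agent.helper81.PD

variable {G : Type} [Group G] {P : Type} [AddCommGroup P] [Module (ZMod 2) P]

/-- representatives of the orbits of a free action -/
theorem Lift_rep {T : Type} [MulAction G T] (hfree : ∀ (g : G) (t : T), g • t = t → g = 1) :
    ∃ (p : T → T) (c : T → G), (∀ t, c t • p t = t) ∧ (∀ (g : G) (t : T), p (g • t) = p t) ∧
      ∀ (g : G) (t : T), c (g • t) = g * c t := by
  let p : T → T := fun t => (Quotient.mk (MulAction.orbitRel G T) t).out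
  have hp : ∀ (g : G) (t : T), p (g • t) = p t := by
    intro g t
    have h : Quotient.mk (MulAction.orbitRel G T) (g • t) =
        Quotient.mk (MulAction.orbitRel G T) t :=
      Quotient.sound (MulAction.orbitRel_apply.2 ⟨g, rfl⟩)
    change (Quotient.mk (MulAction.orbitRel G T) (g • t)).out =
      (Quotient.mk (MulAction.orbitRel G T) t).out
    rw [h]
  have hc : ∀ t : T, ∃ g : G, g • p t = t := by
    intro t
    have h : (MulAction.orbitRel G T).r (p t) t := Quotient.mk_out (s := MulAction.orbitRel G T) t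
    have h1 : p t ∈ MulAction.orbit G t := MulAction.orbitRel_apply.1 h
    obtain ⟨g, hg⟩ := h1
    have hg' : g • t = p t := hg
    refine ⟨g⁻¹, ?_⟩
    rw [← hg', inv_smul_smul]
  choose c hc using hc
  refine ⟨p, c, hc, hp, ?_⟩
  intro g t
  have h1 : c (g • t) • p t = g • t := by
    have h2 := hc (g • t)
    rw [hp] at h2
    exact h2
  have h3 : ((g * c t)⁻¹ * c (g • t)) • p t = p t := by
    rw [mul_smul, h1, mul_inv_rev, mul_smul, inv_smul_smul]
    rw [inv_smul_eq_iff]
    exact (hc t).symm
  have h4 := hfree _ _ h3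
  rw [inv_mul_eq_one] at h4
  exact h4.symm

/-- projectivity of `P`: an equivariant map with values in the image of `l` lifts along `l` -/
theorem lift {rho : G →* Module.End (ZMod 2) P} (hpl : PL rho) {A B : Type} [AddCommGroup A]
    [Module (ZMod 2) A] [AddCommGroup B] [Module (ZMod 2) B] (a : G →* Module.End (ZMod 2) A)
    (b : G →* Module.End (ZMod 2) B) (l : A →ₗ[ZMod 2] B) (hl : ∀ g x, l (a g x) = b g (l x))
    (f : P →ₗ[ZMod 2] B) (hf : ∀ g x, f (rho g x) = b g (f x)) (him : ∀ x, ∃ y, l y = f x) :
    ∃ f' : P →ₗ[ZMod 2] A, (∀ g x, f' (rho g x) = a g (f' x)) ∧ ∀ x, l (f' x) = f x := by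
  obtain ⟨T, inst, hfree, i, r, hi, hr, hri⟩ := hpl
  obtain ⟨p, c, hc, hp, hcg⟩ := Lift_rep (G := G) hfree
  choose y hy using fun t : T => him (r (Finsupp.single t 1))
  let φ : T → A := fun t => a (c t) (y (p t))
  let Φ : (T →₀ ZMod 2) →ₗ[ZMod 2] A := Finsupp.linearCombination (ZMod 2) φ
  have hφ : ∀ (g : G) (t : T), φ (g • t) = a g (φ t) := by
    intro g t
    change a (c (g • t)) (y (p (g • t))) = a g (a (c t) (y (p t)))
    rw [hp, hcg, map_mul]
    rfl
  have hΦ : ∀ (g : G) (z : T →₀ ZMod 2),
      Φ (Finsupp.mapDomain (fun t => g • t) z) = a g (Φ z) := by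
    intro g z
    induction z using Finsupp.induction_linear with
    | zero => rw [Finsupp.mapDomain_zero, map_zero, map_zero]
    | add z w hz hw => rw [Finsupp.mapDomain_add, map_add, hz, hw, map_add, map_add]
    | single t k =>
      rw [Finsupp.mapDomain_single]
      change Finsupp.linearCombination (ZMod 2) φ (Finsupp.single (g • t) k) =
        a g (Finsupp.linearCombination (ZMod 2) φ (Finsupp.single t k))
      rw [Finsupp.linearCombination_single, Finsupp.linearCombination_single, hφ, map_smul]
  have hφl : ∀ t : T, l (φ t) = f (r (Finsupp.single t 1)) := by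
    intro t
    change l (a (c t) (y (p t))) = _
    rw [hl, hy, ← hf, ← hr, Finsupp.mapDomain_single, hc]
  have hΦl : ∀ z : T →₀ ZMod 2, l (Φ z) = f (r z) := by
    intro z
    induction z using Finsupp.induction_linear with
    | zero => rw [map_zero, map_zero, map_zero, map_zero]
    | add z w hz hw => rw [map_add, map_add, hz, hw, map_add, map_add]
    | single t k =>
      change l (Finsupp.linearCombination (ZMod 2) φ (Finsupp.single t k)) = _
      rw [Finsupp.linearCombination_single, map_smul, hφl, ← map_smul, ← map_smul,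
        Finsupp.smul_single, smul_eq_mul, mul_one]
  refine ⟨Φ.comp i, ?_, ?_⟩
  · intro g x
    rw [LinearMap.comp_apply, LinearMap.comp_apply, hi, hΦ]
  · intro x
    rw [LinearMap.comp_apply, hΦl, hri]

end Pool.Agent.helper81.PD
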