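import Mathlib

/-! # PDS-Red: reduction along a filtration -/

namespace Pool.Agent.helper81.PD

/-- if the top part of every element of `E` whose coboundary has no higher part can be removed by
a coboundary, then every element with coboundary in `F 0` can be moved to `F 0` -/
theorem reduce {W : Type} [AddCommGroup W] (D : W →+ W) (hDD : ∀ w, D (D w) = 0)
    (E : AddSubgroup W) (hDE : ∀ w ∈ E, D w ∈ E) (F : ℕ → AddSubgroup W)
    (hF : ∀ q, F q ≤ F (q + 1))
    (h1 : ∀ q, ∀ w ∈ E, w ∈ F (q + 1) → D w ∈ F (q + 1) → ∃ u ∈ E, w - D u ∈ F q)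
    (m : ℕ) (w : W) (hw : w ∈ E) (hm : w ∈ F m) (hD : D w ∈ F 0) :
    ∃ u ∈ E, w - D u ∈ F 0 := by
  have hmono : ∀ q, F 0 ≤ F q := by
    intro q
    induction q with
    | zero => exact le_rfl
    | succ q ih => exact ih.trans (hF q)
  induction m generalizing w with
  | zero => exact ⟨0, E.zero_mem, by simpa using hm⟩
  | succ m ih =>
    obtain ⟨u, hu, hwu⟩ := h1 m w hw hm (hmono _ hD)
    obtain ⟨u', hu', h2⟩ := ih (w - D u) (E.sub_mem hw (hDE u hu)) hwu (by
      rw [map_sub, hDD, sub_zero]
      exact hD)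
    refine ⟨u + u', E.add_mem hu hu', ?_⟩
    have h3 : w - D (u + u') = w - D u - D u' := by
      rw [map_add]
      abel
    rw [h3]
    exact h2

end Pool.Agent.helper81.PD
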