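import Pool.Agent.helper81.PD.RestrD

/-! # PDS-Restr: finitely generated and projective modules over a subgroup of finite index -/

namespace Pool.Agent.helper81.PD

variable {G : Type} [Group G] (N : Subgroup G) (P : Type) [AddCommGroup P]
  [Module (MonoidAlgebra ℤ G) P] [Fintype (G ⧸ N)]

theorem Restr_fin [Module.Finite (MonoidAlgebra ℤ G) P] :
    @Module.Finite (MonoidAlgebra ℤ N) P _ _ (Module.compHom P (Restr_j N)) := by
  classical
  let _inst : Module (MonoidAlgebra ℤ N) P := Module.compHom P (Restr_j N)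
  have hsm : ∀ (b : MonoidAlgebra ℤ N) (x : P), b • x = Restr_j N b • x := fun _ _ => rfl
  obtain ⟨S, hS⟩ := (Module.Finite.fg_top : (⊤ : Submodule (MonoidAlgebra ℤ G) P).FG)
  refine ⟨⟨(Finset.univ ×ˢ S).image
    (fun t : (G ⧸ N) × P => MonoidAlgebra.of ℤ G (t.1.out)⁻¹ • t.2), ?_⟩⟩
  set W : Submodule (MonoidAlgebra ℤ N) P := Submodule.span (MonoidAlgebra ℤ N)
    (((Finset.univ ×ˢ S).image
      (fun t : (G ⧸ N) × P => MonoidAlgebra.of ℤ G (t.1.out)⁻¹ • t.2) : Finset P) : Set P) with hW
  let W' : Submodule (MonoidAlgebra ℤ G) P :=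
    { carrier := {x | ∀ a : MonoidAlgebra ℤ G, a • x ∈ W}
      zero_mem' := fun a => by rw [smul_zero]; exact W.zero_mem
      add_mem' := fun {x y} hx hy a => by rw [smul_add]; exact W.add_mem (hx a) (hy a)
      smul_mem' := fun c x hx a => by rw [smul_smul]; exact hx _ }
  have hSW : (S : Set P) ⊆ W' := by
    intro s hs a
    rw [Restr_decomp N a, Finset.sum_smul]
    refine W.sum_mem fun q _ => ?_
    rw [mul_smul, ← hsm]
    refine W.smul_mem _ (Submodule.subset_span ?_)
    rw [Finset.coe_image]
    exact ⟨(q, s), by simpa using hs, rfl⟩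
  rw [eq_top_iff]
  intro x _
  have hx : x ∈ W' := by
    have h1 : Submodule.span (MonoidAlgebra ℤ G) (S : Set P) ≤ W' := Submodule.span_le.2 hSW
    apply h1
    rw [hS]
    trivial
  have := hx 1
  rwa [one_smul] at this

theorem Restr_proj [Module.Projective (MonoidAlgebra ℤ G) P] :
    @Module.Projective (MonoidAlgebra ℤ N) _ P _ (Module.compHom P (Restr_j N)) := by
  classical
  let _inst : Module (MonoidAlgebra ℤ N) P := Module.compHom P (Restr_j N)
  have hsm : ∀ (b : MonoidAlgebra ℤ N) (x : P), b • x = Restr_j N b • x := fun _ _ => rfl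
  obtain ⟨s, hs⟩ := (Module.projective_def (R := MonoidAlgebra ℤ G) (P := P)).1 inferInstance
  let c : (G ⧸ N) → MonoidAlgebra ℤ G →+ MonoidAlgebra ℤ N := fun q =>
    (Restr_pr N).comp (AddMonoidHom.mulRight (MonoidAlgebra.of ℤ G q.out))
  have hc : ∀ q a, c q a = Restr_pr N (a * MonoidAlgebra.of ℤ G q.out) := fun _ _ => rfl
  let F : (G ⧸ N) → (P →₀ MonoidAlgebra ℤ G) →+ (P →₀ MonoidAlgebra ℤ N) := fun q =>
    (Finsupp.mapDomain.addMonoidHom (fun y : P => MonoidAlgebra.of ℤ G (q.out)⁻¹ • y)).comp
      (Finsupp.mapRange.addMonoidHom (c q))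
  have hF : ∀ q y a, F q (Finsupp.single y a) =
      Finsupp.single (MonoidAlgebra.of ℤ G (q.out)⁻¹ • y)
        (Restr_pr N (a * MonoidAlgebra.of ℤ G q.out)) := by
    intro q y a
    show Finsupp.mapDomain (fun y : P => MonoidAlgebra.of ℤ G (q.out)⁻¹ • y)
      (Finsupp.mapRange (c q) (map_zero _) (Finsupp.single y a)) = _
    rw [Finsupp.mapRange_single, Finsupp.mapDomain_single, hc]
  have hFs : ∀ q (b : MonoidAlgebra ℤ N) (f : P →₀ MonoidAlgebra ℤ G),
      F q (Restr_j N b • f) = b • F q f := by
    intro q b f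
    induction f using Finsupp.induction_linear with
    | zero => simp
    | add f g hf hg => rw [smul_add, map_add, map_add, hf, hg, smul_add]
    | single y a =>
      rw [Finsupp.smul_single, hF, hF, Finsupp.smul_single, smul_eq_mul, smul_eq_mul, mul_assoc,
        Restr_pr_j_mul]
  let s' : P →ₗ[MonoidAlgebra ℤ N] (P →₀ MonoidAlgebra ℤ N) :=
    { toFun := fun x => ∑ q : G ⧸ N, F q (s x)
      map_add' := fun x y => by
        rw [← Finset.sum_add_distrib]
        exact Finset.sum_congr rfl fun q _ => by rw [map_add, map_add]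
      map_smul' := fun b x => by
        rw [RingHom.id_apply, Finset.smul_sum]
        exact Finset.sum_congr rfl fun q _ => by rw [hsm, map_smul, hFs] }
  apply (Module.projective_def (R := MonoidAlgebra ℤ N) (P := P)).2
  refine ⟨s', fun x => ?_⟩
  have key : ∀ f : P →₀ MonoidAlgebra ℤ G,
      Finsupp.linearCombination (MonoidAlgebra ℤ N) id (∑ q : G ⧸ N, F q f) =
        Finsupp.linearCombination (MonoidAlgebra ℤ G) id f := by
    intro f
    induction f using Finsupp.induction_linear with
    | zero => simp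
    | add f g hf hg =>
      rw [map_add, ← hf, ← hg, ← map_add, ← Finset.sum_add_distrib]
      congr 1
      exact Finset.sum_congr rfl fun q _ => map_add _ _ _
    | single y a =>
      rw [map_sum, Finsupp.linearCombination_single]
      conv_rhs => rw [Restr_decomp N a, Finset.sum_smul]
      refine Finset.sum_congr rfl fun q _ => ?_
      rw [hF, Finsupp.linearCombination_single, hsm, mul_smul]
      rfl
  show Finsupp.linearCombination (MonoidAlgebra ℤ N) id (∑ q : G ⧸ N, F q (s x)) = x
  rw [key]
  exact hs x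

end Pool.Agent.helper81.PD
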