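import Pool.Agent.helper81.PD.Stmt

/-! # PDS-Restr: the maps `ℤ[N] → ℤ[G] → ℤ[N]` -/

namespace Pool.Agent.helper81.PD

variable {G : Type} [Group G] (N : Subgroup G)

/-- the inclusion of group rings -/
noncomputable def Restr_j : MonoidAlgebra ℤ N →+* MonoidAlgebra ℤ G :=
  MonoidAlgebra.mapDomainRingHom ℤ N.subtype

/-- restriction of the support to the subgroup -/
noncomputable def Restr_pr : MonoidAlgebra ℤ G →+ MonoidAlgebra ℤ N :=
  MonoidAlgebra.comapDomainAddMonoidHom N.subtype N.subtype_injective

theorem Restr_j_single (n : N) (z : ℤ) :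
    Restr_j N (MonoidAlgebra.single n z) = MonoidAlgebra.single (n : G) z := by
  simp [Restr_j]

theorem Restr_pr_single (g : G) (z : ℤ) (hg : g ∈ N) :
    Restr_pr N (MonoidAlgebra.single g z) = MonoidAlgebra.single (⟨g, hg⟩ : N) z :=
  MonoidAlgebra.comapDomain_single_map (f := (N.subtype : N → G)) (hf := N.subtype_injective)
    (⟨g, hg⟩ : N) z

theorem Restr_pr_single_not (g : G) (z : ℤ) (hg : g ∉ N) :
    Restr_pr N (MonoidAlgebra.single g z) = 0 :=
  MonoidAlgebra.comapDomain_single_of_not_mem_range (by simpa using hg) N.subtype_injective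

theorem Restr_pr_coeff (a : MonoidAlgebra ℤ G) (n : N) :
    (Restr_pr N a).coeff n = a.coeff (n : G) := by
  simp [Restr_pr]

theorem Restr_pr_j (b : MonoidAlgebra ℤ N) : Restr_pr N (Restr_j N b) = b := by
  induction b using MonoidAlgebra.induction_linear with
  | zero => simp
  | add f g hf hg => rw [map_add, map_add, hf, hg]
  | single n z => rw [Restr_j_single, Restr_pr_single _ _ _ n.2]

theorem Restr_pr_j_mul (b : MonoidAlgebra ℤ N) (a : MonoidAlgebra ℤ G) :
    Restr_pr N (Restr_j N b * a) = b * Restr_pr N a := by
  induction b using MonoidAlgebra.induction_linear with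
  | zero => simp
  | add f g hf hg => rw [map_add, add_mul, map_add, hf, hg, add_mul]
  | single n z =>
    induction a using MonoidAlgebra.induction_linear with
    | zero => simp
    | add f g hf hg => rw [mul_add, map_add, hf, hg, map_add, mul_add]
    | single g w =>
      rw [Restr_j_single, MonoidAlgebra.single_mul_single]
      by_cases hg : g ∈ N
      · rw [Restr_pr_single _ _ _ (N.mul_mem n.2 hg), Restr_pr_single _ _ _ hg,
          MonoidAlgebra.single_mul_single]
        rfl
      · rw [Restr_pr_single_not _ _ _ (fun h => hg ((N.mul_mem_cancel_left n.2).1 h)),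
          Restr_pr_single_not _ _ _ hg, mul_zero]

theorem Restr_decomp [Fintype (G ⧸ N)] (a : MonoidAlgebra ℤ G) :
    a = ∑ q : G ⧸ N, Restr_j N (Restr_pr N (a * MonoidAlgebra.of ℤ G q.out)) *
      MonoidAlgebra.of ℤ G q.out⁻¹ := by
  classical
  induction a using MonoidAlgebra.induction_linear with
  | zero => simp
  | add f g hf hg =>
    simp only [add_mul, map_add, Finset.sum_add_distrib]
    rw [← hf, ← hg]
  | single g z =>
    rw [Finset.sum_eq_single (QuotientGroup.mk g⁻¹ : G ⧸ N)]
    · have h1 : g * (QuotientGroup.mk g⁻¹ : G ⧸ N).out ∈ N := by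
        have := QuotientGroup.mk_out_eq_mul N g⁻¹
        obtain ⟨h, hh⟩ := this
        rw [hh]
        simp
      rw [MonoidAlgebra.of_apply, MonoidAlgebra.single_mul_single, Restr_pr_single _ _ _ h1,
        Restr_j_single, MonoidAlgebra.of_apply, MonoidAlgebra.single_mul_single]
      simp
    · intro q _ hq
      have h1 : g * q.out ∉ N := by
        intro h
        apply hq
        rw [← QuotientGroup.out_eq' q, QuotientGroup.eq]
        have := N.inv_mem h
        rwa [mul_inv_rev] at this
      rw [MonoidAlgebra.of_apply, MonoidAlgebra.single_mul_single, Restr_pr_single_not _ _ _ h1]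
      simp
    · intro h
      exact absurd (Finset.mem_univ _) h

end Pool.Agent.helper81.PD
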