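import Pool.Agent.helper81.PD.Defs
import Pool.Agent.helper81.PD.Red

/-! # PDS-RowD: exactness for the total coboundary -/

namespace Pool.Agent.helper81.PD

variable {G : Type} [Group G] {P : Type} [AddCommGroup P] [Module (ZMod 2) P]
  {K : Type} [Field K] [Algebra (ZMod 2) K]

theorem RowD_add_self (a : K) : a + a = 0 := by
  have h : ((2 : ZMod 2)) • a = a + a := two_smul (ZMod 2) a
  have h2 : (2 : ZMod 2) = 0 := rfl
  rw [← h, h2, zero_smul]

theorem RowD_neg (a : K) : -a = a := by
  rw [neg_eq_iff_add_eq_zero, RowD_add_self]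

/-- the projection to the part of total degree `q` -/
noncomputable def RowD_Pr (C : Cx P) (q : ℕ) : Bil P K →+ Bil P K where
  toFun B := ∑ p ∈ Finset.HasAntidiagonal.antidiagonal q, B.compl₁₂ (C.pi p.1) (C.pi p.2)
  map_zero' := by
    refine Finset.sum_eq_zero ?_
    intro p _
    ext x y
    simp
  map_add' A B := by
    rw [← Finset.sum_add_distrib]
    refine Finset.sum_congr rfl ?_
    intro p _
    ext x y
    simp

theorem RowD_Pr_apply (C : Cx P) (q : ℕ) (B : Bil P K) (x y : P) :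
    RowD_Pr C q B x y = ∑ p ∈ Finset.HasAntidiagonal.antidiagonal q, B (C.pi p.1 x) (C.pi p.2 y) := by
  simp [RowD_Pr, LinearMap.sum_apply]

theorem RowD_Pr_sub (C : Cx P) (q : ℕ) (A B : Bil P K) :
    RowD_Pr C q (A - B) = RowD_Pr C q A - RowD_Pr C q B := by
  refine LinearMap.ext₂ ?_
  intro x y
  rw [LinearMap.sub_apply, LinearMap.sub_apply, RowD_Pr_apply, RowD_Pr_apply, RowD_Pr_apply,
    ← Finset.sum_sub_distrib]
  refine Finset.sum_congr rfl ?_
  intro p _
  rw [LinearMap.sub_apply, LinearMap.sub_apply]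

theorem RowD_Pr_neg (C : Cx P) (q : ℕ) (A : Bil P K) :
    RowD_Pr C q (-A) = -RowD_Pr C q A := by
  refine LinearMap.ext₂ ?_
  intro x y
  rw [LinearMap.neg_apply, LinearMap.neg_apply, RowD_Pr_apply, RowD_Pr_apply,
    ← Finset.sum_neg_distrib]
  refine Finset.sum_congr rfl ?_
  intro p _
  rw [LinearMap.neg_apply, LinearMap.neg_apply]

theorem RowD_DB_sub (C : Cx P) (A B : Bil P K) : DB C (A - B) = DB C A - DB C B := by
  refine LinearMap.ext₂ ?_
  intro x y
  rw [LinearMap.sub_apply, LinearMap.sub_apply, DB_apply, DB_apply, DB_apply]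
  simp only [LinearMap.sub_apply]
  ring

/-- the total coboundary as an additive map -/
def RowD_D (K : Type) [Field K] [Algebra (ZMod 2) K] (C : Cx P) : Bil P K →+ Bil P K where
  toFun B := DB C B
  map_zero' := map_zero (DB C)
  map_add' A B := map_add (DB C) A B

theorem RowD_D_apply (C : Cx P) (B : Bil P K) : RowD_D K C B = DB C B := rfl

theorem RowD_Pr_flip (C : Cx P) (q : ℕ) (B : Bil P K) :
    RowD_Pr C q B.flip = (RowD_Pr C q B).flip := by
  refine LinearMap.ext₂ ?_
  intro x y
  rw [LinearMap.flip_apply, RowD_Pr_apply, RowD_Pr_apply, ← Finset.Nat.sum_antidiagonal_swap]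
  rfl

theorem RowD_flip_eqB (rho : G →* Module.End (ZMod 2) P) (al : G →* G)
    (hal : ∀ g, al (al g) = g) (chi : G →* Kˣ) (hchi : ∀ g, chi (al g) = chi g)
    (B : Bil P K) (hB : EqB rho al chi B) : EqB rho al chi B.flip := by
  intro g x y
  have h := hB (al g) y x
  rw [hal, hchi] at h
  exact h

theorem RowD_Pr_eqB (C : Cx P) (rho : G →* Module.End (ZMod 2) P) (hA : Act C rho) (al : G →* G)
    (chi : G →* Kˣ) (q : ℕ) (B : Bil P K) (hB : EqB rho al chi B) :
    EqB rho al chi (RowD_Pr C q B) := by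
  intro g x y
  rw [RowD_Pr_apply, RowD_Pr_apply, Finset.mul_sum]
  refine Finset.sum_congr rfl ?_
  intro p _
  rw [hA.pi, hA.pi, hB]

theorem RowD_dB_Pr (C : Cx P) (q : ℕ) (B : Bil P K) :
    RowD_Pr C (q + 1) (dB C B) = dB C (RowD_Pr C q B) := by
  refine LinearMap.ext₂ ?_
  intro x y
  rw [dB_apply, RowD_Pr_apply, RowD_Pr_apply, RowD_Pr_apply]
  simp only [dB_apply]
  rw [Finset.sum_add_distrib, Finset.Nat.sum_antidiagonal_succ, Finset.Nat.sum_antidiagonal_succ']
  simp only [C.del_pi_succ, C.del_pi_zero, map_zero, LinearMap.zero_apply, zero_add]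

theorem RowD_dB_Pr_zero (C : Cx P) (B : Bil P K) : RowD_Pr C 0 (dB C B) = 0 := by
  refine LinearMap.ext₂ ?_
  intro x y
  rw [RowD_Pr_apply]
  simp [dB_apply, C.del_pi_zero]

theorem RowD_Pr_pi (C : Cx P) (q i j : ℕ) (B : Bil P K) (x y : P) :
    RowD_Pr C q B (C.pi i x) (C.pi j y) = if i + j = q then B (C.pi i x) (C.pi j y) else 0 := by
  rw [RowD_Pr_apply]
  simp only [C.pi_pi]
  split_ifs with h
  · rw [Finset.sum_eq_single (i, j)]
    · simp
    · rintro ⟨a, b⟩ hab hne
      have h1 : a ≠ i ∨ b ≠ j := by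
        by_contra hcon
        push Not at hcon
        exact hne (by rw [hcon.1, hcon.2])
      rcases h1 with h1 | h1
      · simp [h1]
      · simp [h1]
    · intro hn
      exact absurd (Finset.HasAntidiagonal.mem_antidiagonal.2 h) hn
  · refine Finset.sum_eq_zero ?_
    rintro ⟨a, b⟩ hab
    rw [Finset.HasAntidiagonal.mem_antidiagonal] at hab
    have h1 : a ≠ i ∨ b ≠ j := by
      by_contra hcon
      push Not at hcon
      exact h (by rw [← hcon.1, ← hcon.2]; exact hab)
    rcases h1 with h1 | h1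
    · simp [h1]
    · simp [h1]

theorem RowD_Pr_Pr (C : Cx P) (q r : ℕ) (B : Bil P K) :
    RowD_Pr C q (RowD_Pr C r B) = if q = r then RowD_Pr C r B else 0 := by
  refine LinearMap.ext₂ ?_
  intro x y
  rw [RowD_Pr_apply]
  simp only [RowD_Pr_pi]
  split_ifs with h
  · subst h
    rw [RowD_Pr_apply]
    refine Finset.sum_congr rfl ?_
    intro p hp
    rw [Finset.HasAntidiagonal.mem_antidiagonal] at hp
    rw [if_pos hp]
  · rw [LinearMap.zero_apply, LinearMap.zero_apply]
    refine Finset.sum_eq_zero ?_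
    intro p hp
    rw [Finset.HasAntidiagonal.mem_antidiagonal] at hp
    rw [if_neg (by rw [hp]; exact h)]

theorem RowD_ext (C : Cx P) (B : Bil P K) (h : ∀ q, RowD_Pr C q B = 0) : B = 0 := by
  refine LinearMap.ext₂ ?_
  intro x y
  have h1 : ∀ i j, B (C.pi i x) (C.pi j y) = 0 := by
    intro i j
    have h2 := RowD_Pr_pi C (i + j) i j B x y
    rw [h, if_pos rfl] at h2
    simpa using h2.symm
  calc B x y = B (∑ i ∈ Finset.range C.n, C.pi i x) (∑ j ∈ Finset.range C.n, C.pi j y) := by
        rw [C.pi_sum, C.pi_sum]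
    _ = 0 := by
        rw [map_sum]
        refine Finset.sum_eq_zero ?_
        intro j _
        rw [map_sum, LinearMap.sum_apply]
        exact Finset.sum_eq_zero fun i _ => h1 i j

theorem RowD_DB_DB (C : Cx P) (B : Bil P K) : DB C (DB C B) = 0 := by
  refine LinearMap.ext₂ ?_
  intro x y
  simp only [DB_apply, C.del_del, map_zero, LinearMap.zero_apply]
  have e1 := RowD_add_self (B (C.del x) (C.del y))
  have e2 := RowD_add_self (B (C.del x) y)
  have e3 := RowD_add_self (B x (C.del y))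
  have e4 := RowD_add_self (B y (C.del x))
  have e5 := RowD_add_self (B (C.del y) x)
  have e6 := RowD_add_self (B x y)
  have e7 := RowD_add_self (B y x)
  linear_combination e1 + e2 + e3 + e4 + e5 + e6 + e7

theorem RowD_DB_eq (C : Cx P) (B : Bil P K) : DB C B = dB C B + B + B.flip := rfl

theorem RowD_DB_eqB (C : Cx P) (rho : G →* Module.End (ZMod 2) P) (hA : Act C rho) (al : G →* G)
    (hal : ∀ g, al (al g) = g) (chi : G →* Kˣ) (hchi : ∀ g, chi (al g) = chi g)
    (B : Bil P K) (hB : EqB rho al chi B) : EqB rho al chi (DB C B) := by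
  intro g x y
  have h4 : B (rho (al g) y) (rho g x) = (chi g : K) * B y x :=
    RowD_flip_eqB rho al hal chi hchi B hB g x y
  rw [DB_apply, DB_apply, hA.del, hA.del, hB, hB, hB, h4]
  ring

theorem RowD_Pr_DB (C : Cx P) (q : ℕ) (B : Bil P K) :
    RowD_Pr C (q + 1) (DB C B) =
      dB C (RowD_Pr C q B) + RowD_Pr C (q + 1) B + (RowD_Pr C (q + 1) B).flip := by
  rw [RowD_DB_eq, map_add, map_add, RowD_dB_Pr, RowD_Pr_flip]

theorem RowD_flip_zero : (0 : Bil P K).flip = 0 := by
  refine LinearMap.ext₂ ?_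
  intro x y
  simp

/-- the equivariant forms as a subgroup -/
def RowD_E (rho : G →* Module.End (ZMod 2) P) (al : G →* G) (chi : G →* Kˣ) :
    AddSubgroup (Bil P K) where
  carrier := {B | EqB rho al chi B}
  zero_mem' := by
    intro g x y
    simp
  add_mem' := by
    intro A B hA hB g x y
    rw [LinearMap.add_apply, LinearMap.add_apply, LinearMap.add_apply, LinearMap.add_apply,
      hA g x y, hB g x y, mul_add]
  neg_mem' := by
    intro A hA g x y
    rw [LinearMap.neg_apply, LinearMap.neg_apply, LinearMap.neg_apply, LinearMap.neg_apply,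
      hA g x y, mul_neg]

/-- the forms without parts of degree above `q` -/
noncomputable def RowD_F (K : Type) [Field K] [Algebra (ZMod 2) K] (C : Cx P) (q : ℕ) :
    AddSubgroup (Bil P K) where
  carrier := {B | ∀ j, q < j → RowD_Pr C j B = 0}
  zero_mem' := by
    intro j _
    rw [map_zero]
  add_mem' := by
    intro A B hA hB j hj
    rw [map_add, hA j hj, hB j hj, add_zero]
  neg_mem' := by
    intro A hA j hj
    rw [RowD_Pr_neg, hA j hj]
    exact neg_zero (G := Bil P K)

theorem E_D_exact (C : Cx P) (rho : G →* Module.End (ZMod 2) P) (hA : Act C rho) (al : G →* G)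
    (hal : ∀ g, al (al g) = g) (chi : G →* Kˣ) (hchi : ∀ g, chi (al g) = chi g)
    (hd : ∀ B : Bil P K, EqB rho al chi B → dB C B = 0 →
      ∃ U : Bil P K, EqB rho al chi U ∧ B = dB C U)
    (B : Bil P K) (hB : EqB rho al chi B) (h : DB C B = 0) :
    ∃ U : Bil P K, EqB rho al chi U ∧ B = DB C U := by
  have hDD : ∀ w : Bil P K, RowD_D K C (RowD_D K C w) = 0 := RowD_DB_DB C
  have hDE : ∀ w ∈ RowD_E (K := K) rho al chi, RowD_D K C w ∈ RowD_E (K := K) rho al chi :=
    fun w hw => RowD_DB_eqB C rho hA al hal chi hchi w hw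
  obtain ⟨u, hu, h1⟩ := reduce (W := Bil P K) (RowD_D K C) hDD (RowD_E rho al chi)
    hDE (RowD_F K C)
    (fun q w hw j hj => hw j (by omega))
    (by
      intro q w hw hwF hDF
      have a1 : RowD_Pr C (q + 1 + 1) (DB C w) = 0 := hDF (q + 1 + 1) (by omega)
      rw [RowD_Pr_DB, hwF (q + 1 + 1) (by omega), RowD_flip_zero, add_zero, add_zero] at a1
      obtain ⟨U, hU, a2⟩ := hd _ (RowD_Pr_eqB C rho hA al chi (q + 1) w hw) a1
      have a3 : RowD_Pr C (q + 1) w = dB C (RowD_Pr C q U) := by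
        have a4 := congrArg (RowD_Pr C (q + 1)) a2
        rw [RowD_Pr_Pr, if_pos rfl, RowD_dB_Pr] at a4
        exact a4
      refine ⟨RowD_Pr C q U, RowD_Pr_eqB C rho hA al chi q U hU, ?_⟩
      intro j hj
      obtain ⟨k, rfl⟩ : ∃ k, j = k + 1 := ⟨j - 1, by omega⟩
      have a5 : RowD_Pr C (k + 1) (DB C (RowD_Pr C q U)) = dB C (RowD_Pr C k (RowD_Pr C q U)) := by
        rw [RowD_Pr_DB, RowD_Pr_Pr C (k + 1) q, if_neg (by omega), RowD_flip_zero, add_zero,
          add_zero]
      have a6 : RowD_Pr C (k + 1) (w - DB C (RowD_Pr C q U)) = 0 := by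
        rw [RowD_Pr_sub, a5, RowD_Pr_Pr]
        by_cases hk : k = q
        · rw [if_pos hk, hk, a3]
          exact sub_self (dB C (RowD_Pr C q U))
        · rw [if_neg hk, map_zero, hwF (k + 1) (by omega)]
          exact sub_zero (0 : Bil P K)
      exact a6)
    (2 * C.n) B hB
    (by
      intro j hj
      refine LinearMap.ext₂ ?_
      intro x y
      rw [RowD_Pr_apply, LinearMap.zero_apply, LinearMap.zero_apply]
      refine Finset.sum_eq_zero ?_
      intro p hp
      rw [Finset.HasAntidiagonal.mem_antidiagonal] at hp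
      by_cases hp1 : C.n ≤ p.1
      · rw [C.pi_big p.1 hp1, map_zero, LinearMap.zero_apply]
      · rw [C.pi_big p.2 (by omega), map_zero])
    (by
      have a1 : RowD_D K C B = 0 := h
      rw [a1]
      exact AddSubgroup.zero_mem _)
  refine ⟨u, hu, ?_⟩
  have hw : EqB rho al chi (B - DB C u) :=
    (RowD_E rho al chi).sub_mem hB (RowD_DB_eqB C rho hA al hal chi hchi u hu)
  have h2 : DB C (B - DB C u) = 0 := by
    rw [RowD_DB_sub, h, RowD_DB_DB]
    exact sub_zero (0 : Bil P K)
  have h3 : ∀ j, 0 < j → RowD_Pr C j (B - DB C u) = 0 := h1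
  have h4 : dB C (RowD_Pr C 0 (B - DB C u)) = 0 := by
    have a1 := congrArg (RowD_Pr C (0 + 1)) h2
    rw [RowD_Pr_DB, map_zero, h3 (0 + 1) (by omega), RowD_flip_zero, add_zero, add_zero] at a1
    exact a1
  obtain ⟨U, -, h5⟩ := hd _ (RowD_Pr_eqB C rho hA al chi 0 _ hw) h4
  have h6 : RowD_Pr C 0 (B - DB C u) = 0 := by
    have a1 := congrArg (RowD_Pr C 0) h5
    rw [RowD_Pr_Pr, if_pos rfl, RowD_dB_Pr_zero] at a1
    exact a1
  have h7 : B - DB C u = 0 := by
    refine RowD_ext C _ ?_
    intro q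
    rcases Nat.eq_zero_or_pos q with hq | hq
    · rw [hq]
      exact h6
    · exact h3 q hq
  exact sub_eq_zero.1 h7

end Pool.Agent.helper81.PD
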