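import Pool.Agent.helper81.PD.Lift
import Pool.Agent.helper81.PD.Red

/-! # PDS-RowE: exactness of the complex of equivariant bilinear forms -/

namespace Pool.Agent.helper81.PD

variable {G : Type} [Group G] {P : Type} [AddCommGroup P] [Module (ZMod 2) P]
  {K : Type} [Field K] [Algebra (ZMod 2) K]

theorem RowE_addself {M : Type} [AddCommGroup M] [Module (ZMod 2) M] (x : M) : x + x = 0 := by
  have h : ((2 : ZMod 2)) • x = 0 := by
    rw [show (2 : ZMod 2) = 0 from rfl, zero_smul]
  rwa [two_smul] at h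

theorem RowE_neg {M : Type} [AddCommGroup M] [Module (ZMod 2) M] (x : M) : -x = x :=
  neg_eq_of_add_eq_zero_left (RowE_addself x)

theorem RowE_sub {M : Type} [AddCommGroup M] [Module (ZMod 2) M] (x y : M) : x - y = x + y := by
  rw [sub_eq_add_neg, RowE_neg]

/-- scaling by a unit of `K` -/
noncomputable def RowE_sc (k : K) : K →ₗ[ZMod 2] K := LinearMap.mulLeft (ZMod 2) k

/-- the action on functionals -/
noncomputable def RowE_b (rho : G →* Module.End (ZMod 2) P) (al : G →* G) (chi : G →* Kˣ) :
    G →* Module.End (ZMod 2) (P →ₗ[ZMod 2] K) where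
  toFun g :=
    { toFun := fun h => (LinearMap.mulLeft (ZMod 2) (chi g : K)).comp (h.comp (rho (al g)⁻¹))
      map_add' := by
        intro h h'
        ext x
        simp [mul_add]
      map_smul' := by
        intro c h
        ext x
        simp }
  map_one' := by
    ext h x
    simp
  map_mul' g g' := by
    ext h x
    simp only [LinearMap.coe_mk, AddHom.coe_mk, LinearMap.comp_apply, LinearMap.mulLeft_apply,
      Module.End.mul_apply, map_mul, Units.val_mul, mul_inv_rev, mul_assoc]

theorem RowE_b_apply (rho : G →* Module.End (ZMod 2) P) (al : G →* G) (chi : G →* Kˣ) (g : G)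
    (h : P →ₗ[ZMod 2] K) (y : P) :
    RowE_b rho al chi g h y = (chi g : K) * h (rho (al g)⁻¹ y) := rfl

/-- the action on pairs -/
noncomputable def RowE_a (rho : G →* Module.End (ZMod 2) P) (al : G →* G) (chi : G →* Kˣ) :
    G →* Module.End (ZMod 2) ((P →ₗ[ZMod 2] K) × K) where
  toFun g := LinearMap.prodMap (RowE_b rho al chi g) (LinearMap.mulLeft (ZMod 2) (chi g : K))
  map_one' := by
    refine LinearMap.ext fun x => ?_
    obtain ⟨h, k⟩ := x
    simp
  map_mul' g g' := by
    refine LinearMap.ext fun x => ?_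
    obtain ⟨h, k⟩ := x
    simp

/-- the map `(h, k) ↦ h ∘ d + k e` -/
noncomputable def RowE_l (C : Cx P) : ((P →ₗ[ZMod 2] K) × K) →ₗ[ZMod 2] (P →ₗ[ZMod 2] K) where
  toFun x := x.1.comp C.del + C.eps.smulRight x.2
  map_add' x y := by
    ext z
    simp only [Prod.fst_add, Prod.snd_add, LinearMap.add_apply, LinearMap.comp_apply,
      LinearMap.smulRight_apply, smul_add]
    abel
  map_smul' c x := by
    ext z
    simp only [Prod.smul_fst, Prod.smul_snd, LinearMap.add_apply, LinearMap.comp_apply,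
      LinearMap.smulRight_apply, LinearMap.smul_apply, smul_add, RingHom.id_apply]
    rw [smul_comm]

theorem RowE_l_apply (C : Cx P) (x : (P →ₗ[ZMod 2] K) × K) (y : P) :
    RowE_l C x y = x.1 (C.del y) + C.eps y • x.2 := rfl

theorem RowE_eqb (rho : G →* Module.End (ZMod 2) P) (al : G →* G) (chi : G →* Kˣ)
    {B : Bil P K} (hB : EqB rho al chi B) (g : G) (x : P) :
    B (rho g x) = RowE_b rho al chi g (B x) := by
  ext y
  rw [RowE_b_apply]
  have h := hB g x (rho (al g)⁻¹ y)
  rwa [← Module.End.mul_apply, ← map_mul, mul_inv_cancel, map_one, Module.End.one_apply] at h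

theorem RowE_eqb' (rho : G →* Module.End (ZMod 2) P) (al : G →* G) (chi : G →* Kˣ)
    {B : Bil P K} (hB : ∀ g x, B (rho g x) = RowE_b rho al chi g (B x)) : EqB rho al chi B := by
  intro g x y
  rw [hB, RowE_b_apply, ← Module.End.mul_apply, ← map_mul, inv_mul_cancel, map_one,
    Module.End.one_apply]

/-- a row: a form vanishing on boundaries in the second variable -/
theorem RowE_row (C : Cx P) (rho : G →* Module.End (ZMod 2) P) (hA : Act C rho) (al : G →* G)
    (chi : G →* Kˣ) (B : Bil P K) (hB : EqB rho al chi B) (h : ∀ x y, B x (C.del y) = 0) :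
    ∃ (U : Bil P K) (c : P →ₗ[ZMod 2] K), EqB rho al chi U ∧ Eqf rho chi c ∧
      ∀ x y, B x y = U x (C.del y) + C.eps y • c x := by
  obtain ⟨f', hf', hl'⟩ := lift hA.pl (RowE_a rho al chi) (RowE_b rho al chi) (RowE_l C)
    (by
      rintro g ⟨u, k⟩
      ext y
      rw [RowE_b_apply, RowE_l_apply, RowE_l_apply, hA.del, hA.eps, mul_add, mul_smul_comm]
      rfl)
    B (fun g x => RowE_eqb rho al chi hB g x)
    (by
      intro x
      refine ⟨((B x).comp C.s, B x C.pt), ?_⟩
      ext y
      rw [RowE_l_apply]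
      have h1 := congrArg (B x) (C.contr y)
      rw [map_add, map_add, map_smul, h x] at h1
      have h2 : B x (C.s (C.del y)) + (B x y + C.eps y • B x C.pt) = 0 := by
        rw [← h1, zero_add]
        exact RowE_addself _
      have h3 : B x (C.s (C.del y)) + C.eps y • B x C.pt = B x y := by
        have h4 : B x (C.s (C.del y)) + C.eps y • B x C.pt + B x y = 0 := by
          rw [← h2]
          abel
        rw [eq_comm, ← sub_eq_zero, RowE_sub, add_comm]
        exact h4
      exact h3)
  refine ⟨(LinearMap.fst (ZMod 2) _ _).comp f', (LinearMap.snd (ZMod 2) _ _).comp f', ?_, ?_, ?_⟩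
  · apply RowE_eqb'
    intro g x
    rw [LinearMap.comp_apply, hf']
    rfl
  · intro g x
    rw [LinearMap.comp_apply, hf']
    rfl
  · intro x y
    rw [← hl' x, RowE_l_apply]
    rfl

theorem RowE_dd (C : Cx P) (B : Bil P K) : dB C (dB C B) = 0 := by
  ext x y
  rw [dB_apply, dB_apply, dB_apply, C.del_del, C.del_del, map_zero, map_zero,
    LinearMap.zero_apply, zero_add, add_zero]
  exact RowE_addself _

theorem RowE_eq_dB (C : Cx P) {rho : G →* Module.End (ZMod 2) P} (hA : Act C rho) {al : G →* G}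
    {chi : G →* Kˣ} {B : Bil P K} (hB : EqB rho al chi B) : EqB rho al chi (dB C B) := by
  intro g x y
  rw [dB_apply, dB_apply, hA.del, hA.del, hB, hB, mul_add]

theorem RowE_eq_pi (C : Cx P) {rho : G →* Module.End (ZMod 2) P} (hA : Act C rho) {al : G →* G}
    {chi : G →* Kˣ} {B : Bil P K} (hB : EqB rho al chi B) (q : ℕ) :
    EqB rho al chi (B.compl₂ (C.pi q)) := by
  intro g x y
  rw [LinearMap.compl₂_apply, LinearMap.compl₂_apply, hA.pi, hB]

/-- the equivariant forms -/
def RowE_E (rho : G →* Module.End (ZMod 2) P) (al : G →* G) (chi : G →* Kˣ) :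
    AddSubgroup (Bil P K) where
  carrier := {B | EqB rho al chi B}
  add_mem' := by
    intro A B hA hB g x y
    rw [LinearMap.add_apply, LinearMap.add_apply, hA, hB, LinearMap.add_apply,
      LinearMap.add_apply, mul_add]
  zero_mem' := by
    intro g x y
    simp
  neg_mem' := by
    intro A hA g x y
    rw [LinearMap.neg_apply, LinearMap.neg_apply, hA, LinearMap.neg_apply, LinearMap.neg_apply,
      mul_neg]

/-- the filtration by the degree in the second variable -/
def RowE_F (C : Cx P) (q : ℕ) : AddSubgroup (Bil P K) where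
  carrier := {B | ∀ j, q < j → ∀ x y, B x (C.pi j y) = 0}
  add_mem' := by
    intro A B hA hB j hj x y
    rw [LinearMap.add_apply, LinearMap.add_apply, hA j hj, hB j hj, add_zero]
  zero_mem' := by
    intro j hj x y
    simp
  neg_mem' := by
    intro A hA j hj x y
    rw [LinearMap.neg_apply, LinearMap.neg_apply, hA j hj, neg_zero]

theorem RowE_step (C : Cx P) (rho : G →* Module.End (ZMod 2) P) (hA : Act C rho) (al : G →* G)
    (chi : G →* Kˣ) (q : ℕ) (w : Bil P K) (hw : EqB rho al chi w)
    (hq : ∀ j, q + 1 < j → ∀ x y, w x (C.pi j y) = 0)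
    (hD : ∀ j, q + 1 < j → ∀ x y, dB C w x (C.pi j y) = 0) :
    ∃ u : Bil P K, EqB rho al chi u ∧ ∀ j, q < j → ∀ x y, (w - dB C u) x (C.pi j y) = 0 := by
  obtain ⟨U, c, hU, hc, hUc⟩ := RowE_row C rho hA al chi (w.compl₂ (C.pi (q + 1)))
    (RowE_eq_pi C hA hw (q + 1)) (by
      intro x y
      rw [LinearMap.compl₂_apply, ← C.del_pi_succ]
      have h := hD (q + 2) (by omega) x y
      rw [dB_apply, hq (q + 2) (by omega), zero_add] at h
      exact h)
  have key : ∀ x y, w x (C.pi (q + 1) y) = U x (C.pi q (C.del y)) := by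
    intro x y
    have h := hUc x (C.pi (q + 1) y)
    rw [LinearMap.compl₂_apply, C.pi_pi, if_pos rfl, C.del_pi_succ, C.eps_pi,
      if_neg (Nat.succ_ne_zero q), zero_smul, add_zero] at h
    exact h
  refine ⟨U.compl₂ (C.pi q), RowE_eq_pi C hA hU q, ?_⟩
  intro j hj x y
  rw [LinearMap.sub_apply, LinearMap.sub_apply, dB_apply, LinearMap.compl₂_apply,
    LinearMap.compl₂_apply, C.pi_pi, if_neg (by omega), map_zero, zero_add]
  obtain ⟨i, rfl⟩ : ∃ i, j = i + 1 := ⟨j - 1, by omega⟩
  rw [C.del_pi_succ, C.pi_pi]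
  by_cases hi : q = i
  · subst hi
    rw [if_pos rfl, key, sub_self]
  · rw [if_neg hi, map_zero, sub_zero]
    exact hq (i + 1) (by omega) x y

theorem E_d_exact (C : Cx P) (rho : G →* Module.End (ZMod 2) P) (hA : Act C rho) (al : G →* G)
    (chi : G →* Kˣ) (hE : Ex C rho chi) (B : Bil P K) (hB : EqB rho al chi B)
    (h : dB C B = 0) : ∃ U : Bil P K, EqB rho al chi U ∧ B = dB C U := by
  obtain ⟨u, hu, hF⟩ := reduce (dB C : Bil P K →ₗ[ZMod 2] Bil P K).toAddMonoidHom
    (fun w => RowE_dd C w) (RowE_E rho al chi)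
    (fun w hw => RowE_eq_dB C hA hw) (RowE_F C)
    (fun q B hB j hj x y => hB j (by omega) x y)
    (fun q w hw hq hD => by
      obtain ⟨u, hu, hr⟩ := RowE_step C rho hA al chi q w hw hq hD
      exact ⟨u, hu, hr⟩)
    C.n B hB
    (fun j hj x y => by rw [C.pi_big j hj.le, map_zero])
    (by
      change dB C B ∈ RowE_F C 0
      rw [h]
      exact (RowE_F C 0).zero_mem)
  change EqB rho al chi u at hu
  obtain ⟨B1, hB1⟩ : ∃ B1 : Bil P K, B1 = B + dB C u := ⟨_, rfl⟩
  have hF' : ∀ j, 0 < j → ∀ x y, B1 x (C.pi j y) = 0 := by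
    intro j hj x y
    have h1 : B x (C.pi j y) - dB C u x (C.pi j y) = 0 := hF j hj x y
    rw [hB1, LinearMap.add_apply, LinearMap.add_apply, sub_eq_zero.1 h1]
    exact RowE_addself _
  have hd : dB C B1 = 0 := by
    rw [hB1, map_add, h, RowE_dd, add_zero]
  have hB1E : EqB rho al chi B1 := by
    rw [hB1]
    exact (RowE_E rho al chi).add_mem hB (RowE_eq_dB C hA hu)
  have hsum : ∀ x y, B1 x y = B1 x (C.pi 0 y) := by
    intro x y
    conv_lhs => rw [← C.pi_sum y]
    rw [map_sum]
    by_cases hn : C.n = 0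
    · rw [hn, Finset.sum_range_zero, C.pi_big 0 (by omega), map_zero]
    · refine Finset.sum_eq_single_of_mem 0 (Finset.mem_range.2 (by omega)) ?_
      intro j _ hj
      exact hF' j (by omega) x y
  have hz : ∀ x y, B1 x (C.del y) = 0 := by
    intro x y
    rw [hsum, ← C.del_pi_succ]
    have h1 : dB C B1 x (C.pi 1 y) = 0 := by rw [hd]; rfl
    rw [dB_apply, hF' 1 (by omega), zero_add] at h1
    exact h1
  obtain ⟨U, c, hU, hc, hUc⟩ := RowE_row C rho hA al chi B1 hB1E hz
  have key : ∀ x y, B1 x y = C.eps y • c x := by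
    intro x y
    rw [hsum, hUc, C.del_pi_zero, map_zero, zero_add, C.eps_pi, if_pos rfl]
  obtain ⟨b, hb, hcb⟩ := hE c hc (by
    intro x
    have h1 : dB C B1 x C.pt = 0 := by rw [hd]; rfl
    rw [dB_apply, C.del_pt, map_zero, add_zero, key, C.eps_pt, one_smul] at h1
    exact h1)
  let W : Bil P K := LinearMap.mk₂ (ZMod 2) (fun x y => C.eps y • b x)
    (fun x x' y => by rw [map_add, smul_add])
    (fun a x y => by rw [map_smul, smul_comm])
    (fun x y y' => by rw [map_add, add_smul])
    (fun a x y => by rw [map_smul, smul_assoc])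
  have hW : ∀ x y, W x y = C.eps y • b x := fun x y => rfl
  refine ⟨u + W, ?_, ?_⟩
  · refine (RowE_E rho al chi).add_mem hu ?_
    intro g x y
    rw [hW, hW, hA.eps, hb, mul_smul_comm]
  · have h2 : dB C W = B1 := by
      ext x y
      rw [dB_apply, hW, hW, C.eps_del, zero_smul, add_zero, key, hcb]
    rw [map_add, h2, hB1]
    ext x y
    rw [LinearMap.add_apply, LinearMap.add_apply, LinearMap.add_apply, LinearMap.add_apply,
      add_comm (B x y), ← add_assoc, RowE_addself, zero_add]

end Pool.Agent.helper81.PD
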