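import Pool.Agent.helper81.PD.Lift
import Pool.Agent.helper81.PD.Red

/-! # PDS-T2: trilinear forms: exactness -/

namespace Pool.Agent.helper81.PD

variable {G : Type} [Group G] {P : Type} [AddCommGroup P] [Module (ZMod 2) P]
  {K : Type} [Field K] [Algebra (ZMod 2) K]

theorem T2_char (V : Type) [AddCommGroup V] [Module (ZMod 2) V] (v : V) : v + v = 0 := by
  have h : ((1 : ZMod 2) + 1) • v = 0 := by
    have : (1 : ZMod 2) + 1 = 0 := by decide
    rw [this, zero_smul]
  rwa [add_smul, one_smul] at h

theorem T2_eq_of_add {V : Type} [AddCommGroup V] [Module (ZMod 2) V] {v w : V} (h : v + w = 0) :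
    v = w := by
  have h1 : v + w + w = w := by rw [h, zero_add]
  rwa [add_assoc, T2_char V w, add_zero] at h1

/-- the action on functionals -/
def T2_c (rho : G →* Module.End (ZMod 2) P) (chi : G →* Kˣ) :
    G →* Module.End (ZMod 2) (P →ₗ[ZMod 2] K) where
  toFun g :=
    { toFun := fun b => (chi g : K) • b.comp (rho g⁻¹)
      map_add' := fun a b => by
        ext x
        simp only [LinearMap.smul_apply, LinearMap.comp_apply, LinearMap.add_apply, smul_add]
      map_smul' := fun a b => by
        ext x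
        simp only [LinearMap.smul_apply, LinearMap.comp_apply, RingHom.id_apply]
        exact smul_comm _ _ _ }
  map_one' := by
    ext b x
    simp
  map_mul' g h := by
    ext b x
    simp only [LinearMap.coe_mk, AddHom.coe_mk, LinearMap.smul_apply, LinearMap.comp_apply,
      Module.End.mul_apply, mul_inv_rev, map_mul, Units.val_mul, smul_eq_mul, mul_assoc]

theorem T2_c_apply (rho : G →* Module.End (ZMod 2) P) (chi : G →* Kˣ) (g : G)
    (b : P →ₗ[ZMod 2] K) (x : P) : T2_c rho chi g b x = (chi g : K) * b (rho g⁻¹ x) := rfl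

/-- the action on bilinear forms -/
def T2_b (rho : G →* Module.End (ZMod 2) P) (chi : G →* Kˣ) :
    G →* Module.End (ZMod 2) (Bil P K) where
  toFun g :=
    { toFun := fun B => (chi g : K) • B.compl₁₂ (rho g⁻¹) (rho g⁻¹)
      map_add' := fun a b => by
        ext x y
        simp only [LinearMap.smul_apply, LinearMap.compl₁₂_apply, LinearMap.add_apply, smul_add]
      map_smul' := fun a b => by
        ext x y
        simp only [LinearMap.smul_apply, LinearMap.compl₁₂_apply, RingHom.id_apply]
        exact smul_comm _ _ _ }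
  map_one' := by
    ext B x y
    simp
  map_mul' g h := by
    ext B x y
    simp only [LinearMap.coe_mk, AddHom.coe_mk, LinearMap.smul_apply, LinearMap.compl₁₂_apply,
      Module.End.mul_apply, mul_inv_rev, map_mul, Units.val_mul, smul_eq_mul, mul_assoc]

theorem T2_b_apply (rho : G →* Module.End (ZMod 2) P) (chi : G →* Kˣ) (g : G)
    (B : Bil P K) (x y : P) : T2_b rho chi g B x y = (chi g : K) * B (rho g⁻¹ x) (rho g⁻¹ y) := rfl

/-- the action on pairs -/
def T2_a (rho : G →* Module.End (ZMod 2) P) (chi : G →* Kˣ) :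
    G →* Module.End (ZMod 2) (Bil P K × (P →ₗ[ZMod 2] K)) where
  toFun g := LinearMap.prodMap (T2_b rho chi g) (T2_c rho chi g)
  map_one' := by
    rw [map_one, map_one]
    rfl
  map_mul' g h := by
    rw [map_mul, map_mul]
    rfl

/-- the map `(h, k) ↦ ((x, z) ↦ h (d x) z + e x * k z)` -/
def T2_l (C : Cx P) : (Bil P K × (P →ₗ[ZMod 2] K)) →ₗ[ZMod 2] Bil P K where
  toFun p := p.1.comp C.del + LinearMap.smulRight C.eps p.2
  map_add' p q := by
    ext x y
    simp only [LinearMap.add_apply, LinearMap.comp_apply, LinearMap.smulRight_apply, Prod.fst_add,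
      Prod.snd_add, LinearMap.smul_apply, smul_add]
    abel
  map_smul' a p := by
    ext x y
    simp only [LinearMap.add_apply, LinearMap.comp_apply, LinearMap.smulRight_apply, Prod.smul_fst,
      Prod.smul_snd, LinearMap.smul_apply, smul_add, RingHom.id_apply]
    rw [smul_comm (C.eps x) a]

theorem T2_l_apply (C : Cx P) (p : Bil P K × (P →ₗ[ZMod 2] K)) (x z : P) :
    T2_l C p x z = p.1 (C.del x) z + C.eps x • p.2 z := rfl

theorem T2_contr (C : Cx P) (x : P) : x = C.del (C.s x) + C.s (C.del x) + C.eps x • C.pt := by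
  rw [C.contr x, add_assoc, T2_char P, add_zero]

theorem T2_inv (rho : G →* Module.End (ZMod 2) P) (g : G) (x : P) : rho g (rho g⁻¹ x) = x := by
  rw [← Module.End.mul_apply, ← map_mul, mul_inv_cancel, map_one]
  rfl

theorem T2_inv' (rho : G →* Module.End (ZMod 2) P) (g : G) (x : P) : rho g⁻¹ (rho g x) = x := by
  rw [← Module.End.mul_apply, ← map_mul, inv_mul_cancel, map_one]
  rfl

/-- the row step -/
theorem T2_row (C : Cx P) (rho : G →* Module.End (ZMod 2) P) (hA : Act C rho) (chi : G →* Kˣ)
    (t : F3 P K) (ht : EqT rho chi t) (h : ∀ x y z, t (C.del x) y z = 0) :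
    ∃ (U : F3 P K) (B : Bil P K), EqT rho chi U ∧ EqB rho (MonoidHom.id G) chi B ∧
      ∀ x y z, t x y z = U (C.del x) y z + C.eps x • B y z := by
  obtain ⟨f', hf', hl'⟩ := lift (A := Bil P K × (P →ₗ[ZMod 2] K)) (B := Bil P K) hA.pl (T2_a rho chi) (T2_b rho chi) (T2_l C)
    (by
      rintro g ⟨B, b⟩
      ext x z
      have e1 : C.del (rho g⁻¹ x) = rho g⁻¹ (C.del x) := hA.del _ _
      have e2 : C.eps (rho g⁻¹ x) = C.eps x := hA.eps _ _
      rw [T2_b_apply, T2_l_apply, T2_l_apply, e1, e2]
      show (chi g : K) * B (rho g⁻¹ (C.del x)) (rho g⁻¹ z) +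
        C.eps x • ((chi g : K) * b (rho g⁻¹ z)) = _
      rw [mul_add, mul_smul_comm])
    (t.flip)
    (by
      intro g y
      ext x z
      rw [T2_b_apply, LinearMap.flip_apply, LinearMap.flip_apply]
      have := ht g (rho g⁻¹ x) y (rho g⁻¹ z)
      rw [T2_inv, T2_inv] at this
      exact this)
    (by
      intro y
      refine ⟨((t.comp C.s).flip y, t C.pt y), ?_⟩
      ext x z
      rw [T2_l_apply]
      show t (C.s (C.del x)) y z + C.eps x • t C.pt y z = t x y z
      conv_rhs => rw [T2_contr C x]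
      simp only [map_add, LinearMap.add_apply, h, zero_add, map_smul, LinearMap.smul_apply])
  refine ⟨((LinearMap.fst (ZMod 2) (Bil P K) (P →ₗ[ZMod 2] K)).comp f').flip,
    (LinearMap.snd (ZMod 2) (Bil P K) (P →ₗ[ZMod 2] K)).comp f', ?_, ?_, ?_⟩
  · intro g x y z
    show (f' (rho g y)).1 (rho g x) (rho g z) = (chi g : K) * (f' y).1 x z
    rw [hf']
    show (chi g : K) * (f' y).1 (rho g⁻¹ (rho g x)) (rho g⁻¹ (rho g z)) = _
    rw [T2_inv', T2_inv']
  · intro g y z
    show (f' (rho g y)).2 (rho g z) = (chi g : K) * (f' y).2 z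
    rw [hf']
    show (chi g : K) * (f' y).2 (rho g⁻¹ (rho g z)) = _
    rw [T2_inv']
  · intro x y z
    have h1 := congrArg (fun B : Bil P K => B x z) (hl' y)
    exact h1.symm

theorem T2_DT_DT (C : Cx P) (t : F3 P K) : DT C (DT C t) = 0 := by
  ext x y z
  simp only [DT_apply, C.del_del, map_zero, LinearMap.zero_apply]
  have h2 := T2_char K (1 : K)
  linear_combination (t (C.del x) (C.del y) z + t (C.del x) y (C.del z) + t (C.del x) y z +
    t (C.del x) z y + t x (C.del y) (C.del z) + t x (C.del y) z + t x z (C.del y) +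
    t x y (C.del z) + t x (C.del z) y + t x y z + t x z y) * h2

/-- the additive group of the trilinear forms (Lean does not find it) -/
@[reducible] def T2_grp (P K : Type) [AddCommGroup P] [Module (ZMod 2) P] [Field K]
    [Algebra (ZMod 2) K] : AddCommGroup (F3 P K) :=
  Module.addCommMonoidToAddCommGroup (ZMod 2)

attribute [local instance] T2_grp

theorem T2_neg (t : F3 P K) : -t = t :=
  neg_eq_of_add_eq_zero_left (T2_char (F3 P K) t)

theorem T2_sub (t u : F3 P K) : t - u = t + u := by
  rw [sub_eq_add_neg, T2_neg]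

/-- the subgroup of equivariant forms -/
def T2_E (rho : G →* Module.End (ZMod 2) P) (chi : G →* Kˣ) : AddSubgroup (F3 P K) where
  carrier := {t | EqT rho chi t}
  add_mem' := by
    intro a b ha hb g x y z
    simp only [LinearMap.add_apply]
    rw [ha g x y z, hb g x y z, mul_add]
  zero_mem' := by
    intro g x y z
    simp
  neg_mem' := by
    intro a ha
    rw [T2_neg]
    exact ha

/-- the filtration -/
def T2_F (C : Cx P) (q : ℕ) : AddSubgroup (F3 P K) where
  carrier := {t | ∀ i, q < i → ∀ x y z, t (C.pi i x) y z = 0}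
  add_mem' := by
    intro a b ha hb i hi x y z
    simp only [LinearMap.add_apply]
    rw [ha i hi x y z, hb i hi x y z, add_zero]
  zero_mem' := by
    intro i _ x y z
    simp
  neg_mem' := by
    intro a ha
    rw [T2_neg]
    exact ha

theorem T2_DT_mem (C : Cx P) (rho : G →* Module.End (ZMod 2) P) (hA : Act C rho) (chi : G →* Kˣ)
    (t : F3 P K) (ht : EqT rho chi t) : EqT rho chi (DT C t) := by
  intro g x y z
  rw [DT_apply, DT_apply, hA.del, hA.del, hA.del, ht, ht, ht, ht, ht]
  ring

theorem T2_row_zero (C : Cx P) (t : F3 P K) {q : ℕ} (h0 : t ∈ T2_F C q) (h1 : DT C t ∈ T2_F C q)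
    (x y z : P) : t (C.pi q (C.del x)) y z = 0 := by
  have h2 := h1 (q + 1) (Nat.lt_succ_self q) x y z
  have h3 : t (C.pi (q + 1) x) = 0 := by
    ext y z
    exact h0 (q + 1) (Nat.lt_succ_self q) x y z
  rw [DT_apply, h3, C.del_pi_succ] at h2
  simpa using h2

/-- PDS-T2 -/
theorem T_exact (C : Cx P) (rho : G →* Module.End (ZMod 2) P) (hA : Act C rho) (chi : G →* Kˣ)
    (hY : ∀ B : Bil P K, EqB rho (MonoidHom.id G) chi B → DB C B = 0 →
      ∃ U : Bil P K, EqB rho (MonoidHom.id G) chi U ∧ B = DB C U)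
    (t : F3 P K) (ht : EqT rho chi t) (h : DT C t = 0) :
    ∃ u : F3 P K, EqT rho chi u ∧ t = DT C u := by
  have hred := reduce (W := F3 P K) (DT C).toAddMonoidHom (fun w => T2_DT_DT C w)
    (T2_E rho chi) (fun w hw => T2_DT_mem C rho hA chi w hw) (T2_F C)
    (fun q w hw i hi => hw i (by omega))
    (by
      intro q w hw hwF hDw
      have hrow := T2_row_zero C w hwF hDw
      obtain ⟨U, B, hU, hB, hUB⟩ := T2_row C rho hA chi (w.comp (C.pi (q + 1)))
        (by
          intro g x y z
          show w (C.pi (q + 1) (rho g x)) (rho g y) (rho g z) = _ * w (C.pi (q + 1) x) y z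
          rw [hA.pi]
          exact hw g _ y z)
        (fun x y z => hrow x y z)
      refine ⟨U.comp (C.pi q), ?_, ?_⟩
      · intro g x y z
        show U (C.pi q (rho g x)) (rho g y) (rho g z) = _ * U (C.pi q x) y z
        rw [hA.pi]
        exact hU g _ y z
      · rw [T2_sub]
        intro i hi x y z
        show w (C.pi i x) y z + DT C (U.comp (C.pi q)) (C.pi i x) y z = 0
        have e0 : C.pi q (C.pi i x) = 0 := by
          rw [C.pi_pi, if_neg (by omega)]
        rw [DT_apply]
        simp only [LinearMap.comp_apply, e0, map_zero, LinearMap.zero_apply, add_zero]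
        obtain ⟨j, rfl⟩ : ∃ j, i = j + 1 := ⟨i - 1, by omega⟩
        rw [C.del_pi_succ, C.pi_pi]
        rcases Nat.lt_or_ge q j with hj | hj
        · rw [if_neg (by omega), map_zero, LinearMap.zero_apply, LinearMap.zero_apply, add_zero]
          exact hwF (j + 1) (by omega) x y z
        · obtain rfl : j = q := by omega
          rw [if_pos rfl]
          have h1 := hUB (C.pi (j + 1) x) y z
          rw [C.eps_pi, if_neg (by omega), zero_smul, add_zero, LinearMap.comp_apply,
            C.pi_pi, if_pos rfl, C.del_pi_succ] at h1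
          rw [h1]
          exact T2_char K _)
    C.n t ht
    (by
      intro i hi x y z
      rw [C.pi_big i hi.le, map_zero]
      rfl)
    (by
      show DT C t ∈ T2_F C 0
      rw [h]
      exact (T2_F C 0).zero_mem)
  obtain ⟨u, hu, hu0⟩ := hred
  have hu0' : t - DT C u ∈ T2_F C 0 := hu0
  rw [T2_sub] at hu0'
  set t1 : F3 P K := t + DT C u with ht1
  have ht1E : EqT rho chi t1 := (T2_E rho chi).add_mem ht (T2_DT_mem C rho hA chi u hu)
  have hDt1 : DT C t1 = 0 := by
    rw [ht1, map_add, h, T2_DT_DT, add_zero]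
  have hpi0 : ∀ x y z, t1 x y z = t1 (C.pi 0 x) y z := by
    intro x y z
    have e1 : t1 x y z = ∑ q ∈ Finset.range C.n, t1 (C.pi q x) y z := by
      conv_lhs => rw [← C.pi_sum x]
      rw [map_sum, LinearMap.sum_apply, LinearMap.sum_apply]
    rw [e1]
    rcases Nat.eq_zero_or_pos C.n with hn | hn
    · rw [hn, Finset.sum_range_zero, C.pi_big 0 (by omega), map_zero]
      rfl
    · rw [Finset.sum_eq_single_of_mem 0 (Finset.mem_range.2 hn)]
      intro i _ hi
      exact hu0' i (by omega) x y z
  have hrow : ∀ x y z, t1 (C.del x) y z = 0 := by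
    intro x y z
    rw [hpi0]
    exact T2_row_zero C t1 hu0' (by rw [hDt1]; exact (T2_F C 0).zero_mem) x y z
  obtain ⟨U, B, hU, hB, hUB⟩ := T2_row C rho hA chi t1 ht1E hrow
  have hUB' : ∀ x y z, t1 x y z = C.eps x • B y z := by
    intro x y z
    rw [hpi0, hUB, C.del_pi_zero, map_zero, C.eps_pi, if_pos rfl]
    simp
  have hDB : DB C B = 0 := by
    ext y z
    have h1 : DT C t1 C.pt y z = 0 := by rw [hDt1]; rfl
    rw [DT_apply, C.del_pt, map_zero, hUB', hUB', hUB', hUB', C.eps_pt] at h1
    simp only [LinearMap.zero_apply, zero_add, one_smul] at h1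
    rw [DB_apply]
    exact h1
  obtain ⟨W, hW, hBW⟩ := hY B hB hDB
  have hWC : ∀ x y z, (LinearMap.smulRight C.eps W : F3 P K) x y z = C.eps x • W y z :=
    fun x y z => rfl
  refine ⟨LinearMap.smulRight C.eps W + u, ?_, ?_⟩
  · refine (T2_E rho chi).add_mem ?_ hu
    intro g x y z
    rw [hWC, hWC, hA.eps]
    have := hW g y z
    rw [MonoidHom.id_apply] at this
    rw [this, mul_smul_comm]
  · have h2 : t1 = DT C (LinearMap.smulRight C.eps W : F3 P K) := by
      ext x y z
      rw [hUB', DT_apply, hWC, hWC, hWC, hWC, hWC, C.eps_del, zero_smul, zero_add, hBW, DB_apply,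
        smul_add, smul_add, smul_add]
    rw [map_add, ← h2, ht1, add_assoc, T2_char (F3 P K), add_zero]

end Pool.Agent.helper81.PD
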