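import Pool.Agent.helper81.PD.Lift
import Pool.Agent.helper81.PD.Red

/-! # PDS-T3: from trilinear forms back to functionals -/

namespace Pool.Agent.helper81.PD

variable {G : Type} [Group G] {P : Type} [AddCommGroup P] [Module (ZMod 2) P]
  {K : Type} [Field K] [Algebra (ZMod 2) K]

theorem T3_two {M : Type} [AddCommGroup M] [Module (ZMod 2) M] (a : M) : a + a = 0 := by
  have h : (1 : ZMod 2) + 1 = 0 := by decide
  calc a + a = ((1 : ZMod 2) + 1) • a := by rw [add_smul, one_smul]
    _ = 0 := by rw [h, zero_smul]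

theorem T3_neg {M : Type} [AddCommGroup M] [Module (ZMod 2) M] (a : M) : -a = a :=
  neg_eq_of_add_eq_zero_left (T3_two a)

theorem T3_sub {M : Type} [AddCommGroup M] [Module (ZMod 2) M] (a b : M) : a - b = a + b := by
  rw [sub_eq_add_neg, T3_neg]

theorem T3_eq {M : Type} [AddCommGroup M] [Module (ZMod 2) M] {a b : M} (h : a + b = 0) :
    a = b := by
  rw [← T3_sub] at h
  exact sub_eq_zero.1 h

/-- the part of degree `r` of a bilinear form -/
def T3_cmp (C : Cx P) (r : ℕ) : Bil P K →ₗ[ZMod 2] Bil P K where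
  toFun B := ∑ p ∈ Finset.HasAntidiagonal.antidiagonal r, (B.comp (C.pi p.1)).compl₂ (C.pi p.2)
  map_add' A B := by
    ext x y
    simp only [LinearMap.add_apply, LinearMap.sum_apply, LinearMap.compl₂_apply,
      LinearMap.comp_apply, Finset.sum_add_distrib]
  map_smul' a B := by
    ext x y
    simp only [LinearMap.smul_apply, LinearMap.sum_apply, LinearMap.compl₂_apply,
      LinearMap.comp_apply, Finset.smul_sum, RingHom.id_apply]

theorem T3_cmp_apply (C : Cx P) (r : ℕ) (B : Bil P K) (y z : P) :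
    T3_cmp C r B y z = ∑ p ∈ Finset.HasAntidiagonal.antidiagonal r, B (C.pi p.1 y) (C.pi p.2 z) := by
  simp only [T3_cmp, LinearMap.coe_mk, AddHom.coe_mk, LinearMap.sum_apply,
    LinearMap.compl₂_apply, LinearMap.comp_apply]

theorem T3_cmp_dB (C : Cx P) (r : ℕ) (B : Bil P K) :
    T3_cmp C (r + 1) (dB C B) = dB C (T3_cmp C r B) := by
  ext y z
  rw [T3_cmp_apply, dB_apply, T3_cmp_apply, T3_cmp_apply]
  simp only [dB_apply, Finset.sum_add_distrib]
  congr 1
  · rw [Finset.Nat.sum_antidiagonal_succ]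
    simp only [C.del_pi_zero, map_zero, LinearMap.zero_apply, zero_add, C.del_pi_succ]
  · rw [Finset.Nat.sum_antidiagonal_succ']
    simp only [C.del_pi_zero, map_zero, zero_add, C.del_pi_succ]

theorem T3_cmp_dB_zero (C : Cx P) (B : Bil P K) : T3_cmp C 0 (dB C B) = 0 := by
  ext y z
  rw [T3_cmp_apply]
  simp [dB_apply, C.del_pi_zero]

theorem T3_cmp_flip (C : Cx P) (r : ℕ) (B : Bil P K) :
    T3_cmp C r B.flip = (T3_cmp C r B).flip := by
  ext y z
  rw [LinearMap.flip_apply, T3_cmp_apply, T3_cmp_apply, ← Finset.Nat.sum_antidiagonal_swap]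
  rfl

theorem T3_cmp_pi (C : Cx P) (r j l : ℕ) (B : Bil P K) (y z : P) :
    T3_cmp C r B (C.pi j y) (C.pi l z) =
      if j + l = r then B (C.pi j y) (C.pi l z) else 0 := by
  rw [T3_cmp_apply]
  by_cases h : j + l = r
  · rw [if_pos h, Finset.sum_eq_single (j, l)]
    · rw [C.pi_pi, C.pi_pi, if_pos rfl, if_pos rfl]
    · rintro ⟨a, b⟩ _ hab
      rw [C.pi_pi, C.pi_pi]
      by_cases ha : a = j
      · have hb : b ≠ l := fun hb => hab (by rw [ha, hb])
        rw [if_neg hb, map_zero]
      · rw [if_neg ha, map_zero, LinearMap.zero_apply]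
    · intro h2
      exact absurd (Finset.HasAntidiagonal.mem_antidiagonal.2 h) h2
  · rw [if_neg h]
    refine Finset.sum_eq_zero ?_
    rintro ⟨a, b⟩ hab
    rw [Finset.HasAntidiagonal.mem_antidiagonal] at hab
    rw [C.pi_pi, C.pi_pi]
    by_cases ha : a = j
    · have hb : b ≠ l := by
        rintro rfl
        subst ha
        exact h hab
      rw [if_neg hb, map_zero]
    · rw [if_neg ha, map_zero, LinearMap.zero_apply]

theorem T3_cmp_cmp (C : Cx P) (r q : ℕ) (B : Bil P K) :
    T3_cmp C r (T3_cmp C q B) = if r = q then T3_cmp C r B else 0 := by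
  ext y z
  rw [T3_cmp_apply]
  simp only [T3_cmp_pi]
  by_cases h : r = q
  · subst h
    rw [if_pos rfl, T3_cmp_apply]
    refine Finset.sum_congr rfl ?_
    rintro ⟨a, b⟩ hab
    rw [if_pos (Finset.HasAntidiagonal.mem_antidiagonal.1 hab)]
  · rw [if_neg h, LinearMap.zero_apply, LinearMap.zero_apply]
    refine Finset.sum_eq_zero ?_
    rintro ⟨a, b⟩ hab
    rw [if_neg]
    rw [Finset.HasAntidiagonal.mem_antidiagonal.1 hab]
    exact h

/-- a form with parts in degree zero only -/
theorem T3_cmp_zero (C : Cx P) (B : Bil P K) (h : ∀ r, 0 < r → T3_cmp C r B = 0) :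
    T3_cmp C 0 B = B := by
  ext y z
  have h1 : ∀ j l : ℕ, ¬ (j = 0 ∧ l = 0) → B (C.pi j y) (C.pi l z) = 0 := by
    intro j l hjl
    have h2 := T3_cmp_pi C (j + l) j l B y z
    rw [if_pos rfl, h (j + l) (by omega)] at h2
    exact h2.symm
  have h3 : B y z = ∑ j ∈ Finset.range C.n, ∑ l ∈ Finset.range C.n, B (C.pi j y) (C.pi l z) := by
    have h4 : B y = ∑ j ∈ Finset.range C.n, B (C.pi j y) := by
      conv_lhs => rw [← C.pi_sum y]
      exact map_sum B _ _
    rw [h4, LinearMap.sum_apply]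
    refine Finset.sum_congr rfl fun j _ => ?_
    conv_lhs => rw [← C.pi_sum z]
    exact map_sum _ _ _
  rw [h3, T3_cmp_apply, Finset.Nat.antidiagonal_zero, Finset.sum_singleton]
  symm
  rw [Finset.sum_eq_single 0, Finset.sum_eq_single 0]
  · intro l _ hl
    exact h1 0 l fun h => hl h.2
  · intro hn
    rw [C.pi_big 0 (by simpa using hn) z, map_zero]
  · intro j _ hj
    refine Finset.sum_eq_zero fun l _ => h1 j l fun h => hj h.1
  · intro hn
    refine Finset.sum_eq_zero fun l _ => ?_
    rw [C.pi_big 0 (by simpa using hn), map_zero, LinearMap.zero_apply]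

theorem T3_cmp_big (C : Cx P) (r : ℕ) (hr : 2 * C.n ≤ r) (B : Bil P K) : T3_cmp C r B = 0 := by
  ext y z
  rw [T3_cmp_apply]
  refine Finset.sum_eq_zero ?_
  rintro ⟨a, b⟩ hab
  rw [Finset.HasAntidiagonal.mem_antidiagonal] at hab
  simp only at hab
  by_cases ha : C.n ≤ a
  · rw [C.pi_big a ha, map_zero, LinearMap.zero_apply]
  · rw [C.pi_big b (by omega), map_zero]

/-- the form `k e(y) e(z)` -/
def T3_ee (C : Cx P) : K →ₗ[ZMod 2] Bil P K where
  toFun k := (C.eps.smulRight (C.eps.smulRight k))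
  map_add' a b := by
    ext x y
    simp only [LinearMap.add_apply, LinearMap.smulRight_apply, LinearMap.smul_apply, smul_add]
  map_smul' a b := by
    ext x y
    simp only [LinearMap.smul_apply, LinearMap.smulRight_apply, RingHom.id_apply]
    rw [smul_comm (C.eps y) a, smul_comm (C.eps x) a]

theorem T3_ee_apply (C : Cx P) (k : K) (y z : P) : T3_ee C k y z = C.eps y • C.eps z • k := rfl

theorem T3_cmp_ee (C : Cx P) (r : ℕ) (k : K) :
    T3_cmp C r (T3_ee C k) = if r = 0 then T3_ee C k else 0 := by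
  ext y z
  rw [T3_cmp_apply]
  simp only [T3_ee_apply, C.eps_pi]
  by_cases h : r = 0
  · subst h
    rw [if_pos rfl, Finset.Nat.antidiagonal_zero, Finset.sum_singleton, if_pos rfl, if_pos rfl,
      T3_ee_apply]
  · rw [if_neg h, LinearMap.zero_apply, LinearMap.zero_apply]
    refine Finset.sum_eq_zero ?_
    rintro ⟨a, b⟩ hab
    rw [Finset.HasAntidiagonal.mem_antidiagonal] at hab
    simp only at hab
    by_cases ha : a = 0
    · have hb : b ≠ 0 := by omega
      rw [if_neg hb, zero_smul, smul_zero]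
    · rw [if_neg ha, zero_smul]

/-- exactness of the complex of bilinear forms -/
theorem T3_exact (C : Cx P) (h : Bil P K) (hd : dB C h = 0) :
    ∃ (h' : Bil P K) (k : K), dB C h' + T3_ee C k = h := by
  have hh : ∀ y z, h (C.del y) z = h y (C.del z) := by
    intro y z
    have h1 := LinearMap.congr_fun (LinearMap.congr_fun hd y) z
    rw [dB_apply] at h1
    exact T3_eq h1
  refine ⟨h.comp C.s + C.eps.smulRight ((h C.pt).comp C.s), h C.pt C.pt, ?_⟩
  ext y z
  simp only [LinearMap.add_apply, dB_apply, T3_ee_apply, LinearMap.comp_apply,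
    LinearMap.smulRight_apply, LinearMap.smul_apply, C.eps_del, zero_smul, add_zero]
  have h2 : h C.pt z = h C.pt (C.s (C.del z)) + C.eps z • h C.pt C.pt := by
    have h3 : z = C.del (C.s z) + C.s (C.del z) + C.eps z • C.pt := by
      rw [C.contr z, add_assoc, T3_two, add_zero]
    conv_lhs => rw [h3]
    rw [map_add, map_add, map_smul, ← hh, C.del_pt, map_zero, LinearMap.zero_apply, zero_add]
  have h4 : h (C.s (C.del y)) z + h (C.s y) (C.del z) = h y z + C.eps y • h C.pt z := by
    rw [← hh, ← LinearMap.add_apply, ← map_add, add_comm (C.s (C.del y)), C.contr y, map_add,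
      map_smul, LinearMap.add_apply, LinearMap.smul_apply]
  calc h (C.s (C.del y)) z + (h (C.s y) (C.del z) + C.eps y • h C.pt (C.s (C.del z))) +
        C.eps y • C.eps z • h C.pt C.pt
      = (h (C.s (C.del y)) z + h (C.s y) (C.del z)) +
        C.eps y • (h C.pt (C.s (C.del z)) + C.eps z • h C.pt C.pt) := by
        rw [smul_add]; abel
    _ = h y z + (C.eps y • h C.pt z + C.eps y • h C.pt z) := by rw [h4, ← h2, add_assoc]
    _ = h y z := by rw [T3_two, add_zero]

/-- the action on bilinear forms -/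
def T3_actB (rho : G →* Module.End (ZMod 2) P) (chi : G →* Kˣ) :
    G →* Module.End (ZMod 2) (Bil P K) where
  toFun g :=
    { toFun := fun h => LinearMap.mk₂ (ZMod 2)
        (fun y z => (chi g : K) * h (rho g⁻¹ y) (rho g⁻¹ z))
        (fun y y' z => by rw [map_add, map_add, LinearMap.add_apply, mul_add])
        (fun c y z => by rw [map_smul, map_smul, LinearMap.smul_apply, mul_smul_comm])
        (fun y z z' => by rw [map_add, map_add, mul_add])
        (fun c y z => by rw [map_smul, map_smul, mul_smul_comm])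
      map_add' := fun h h' => by
        ext y z
        simp only [LinearMap.mk₂_apply, LinearMap.add_apply, mul_add]
      map_smul' := fun c h => by
        ext y z
        simp only [LinearMap.mk₂_apply, LinearMap.smul_apply, mul_smul_comm, RingHom.id_apply] }
  map_one' := by
    refine LinearMap.ext fun h => ?_
    ext y z
    simp
  map_mul' g g' := by
    refine LinearMap.ext fun h => ?_
    ext y z
    simp [mul_assoc]

theorem T3_actB_apply (rho : G →* Module.End (ZMod 2) P) (chi : G →* Kˣ) (g : G) (h : Bil P K)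
    (y z : P) : T3_actB rho chi g h y z = (chi g : K) * h (rho g⁻¹ y) (rho g⁻¹ z) := rfl

/-- the action on the coefficients -/
def T3_actK (chi : G →* Kˣ) : G →* Module.End (ZMod 2) K where
  toFun g :=
    { toFun := fun k => (chi g : K) * k
      map_add' := fun k k' => mul_add _ _ _
      map_smul' := fun c k => mul_smul_comm _ _ _ }
  map_one' := by
    refine LinearMap.ext fun k => ?_
    simp
  map_mul' g g' := by
    refine LinearMap.ext fun k => ?_
    simp [mul_assoc]

theorem T3_actK_apply (chi : G →* Kˣ) (g : G) (k : K) : T3_actK chi g k = (chi g : K) * k := rfl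

/-- trilinear forms are a group; instance search does not find this by itself -/
noncomputable abbrev T3_grp : AddCommGroup (F3 P K) :=
  Module.addCommMonoidToAddCommGroup (ZMod 2)

attribute [local instance] T3_grp

/-- parts of trilinear forms -/
def T3_cmp3 (C : Cx P) (r : ℕ) (w : F3 P K) : F3 P K := (T3_cmp C r).comp w

theorem T3_cmp3_apply (C : Cx P) (r : ℕ) (w : F3 P K) (x : P) :
    T3_cmp3 C r w x = T3_cmp C r (w x) := rfl

theorem T3_eqT_cmp3 {C : Cx P} {rho : G →* Module.End (ZMod 2) P} (hA : Act C rho)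
    {chi : G →* Kˣ} (r : ℕ) {w : F3 P K} (hw : EqT rho chi w) :
    EqT rho chi (T3_cmp3 C r w) := by
  intro g x y z
  rw [T3_cmp3_apply, T3_cmp3_apply, T3_cmp_apply, T3_cmp_apply, Finset.mul_sum]
  refine Finset.sum_congr rfl fun p _ => ?_
  rw [hA.pi, hA.pi, hw]

theorem T3_eqT_DT {C : Cx P} {rho : G →* Module.End (ZMod 2) P} (hA : Act C rho)
    {chi : G →* Kˣ} {w : F3 P K} (hw : EqT rho chi w) : EqT rho chi (DT C w) := by
  intro g x y z
  rw [DT_apply, DT_apply, hA.del, hA.del, hA.del, hw, hw, hw, hw, hw]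
  ring

theorem T3_DT_DT (C : Cx P) (w : F3 P K) : DT C (DT C w) = 0 := by
  ext x y z
  simp only [DT_apply, C.del_del, map_zero, LinearMap.zero_apply]
  have h2 : ∀ a : K, a + a = 0 := T3_two
  linear_combination (h2 (w (C.del x) (C.del y) z)) + h2 (w (C.del x) y (C.del z))
    + h2 (w (C.del x) y z) + h2 (w (C.del x) z y)
    + h2 (w x (C.del y) (C.del z)) + h2 (w x (C.del y) z) + h2 (w x y (C.del z))
    + h2 (w x z (C.del y)) + h2 (w x (C.del z) y) + h2 (w x y z) + h2 (w x z y)

theorem T3_row (C : Cx P) (rho : G →* Module.End (ZMod 2) P) (hA : Act C rho) (chi : G →* Kˣ)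
    (v : F3 P K) (hv : EqT rho chi v) (hd : ∀ x, dB C (v x) = 0) :
    ∃ (U : F3 P K) (b : P →ₗ[ZMod 2] K), EqT rho chi U ∧ Eqf rho chi b ∧
      ∀ x, v x = dB C (U x) + T3_ee C (b x) := by
  have hinv : ∀ g x, rho g⁻¹ (rho g x) = x := by
    intro g x
    rw [← Module.End.mul_apply, ← map_mul, inv_mul_cancel, map_one, Module.End.one_apply]
  have hinv' : ∀ g x, rho g (rho g⁻¹ x) = x := by
    intro g x
    rw [← Module.End.mul_apply, ← map_mul, mul_inv_cancel, map_one, Module.End.one_apply]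
  let l : (Bil P K × K) →ₗ[ZMod 2] Bil P K := (dB C).coprod (T3_ee C)
  let a : G →* Module.End (ZMod 2) (Bil P K × K) :=
    { toFun := fun g => LinearMap.prodMap (T3_actB rho chi g) (T3_actK chi g)
      map_one' := by
        rw [map_one, map_one]
        exact LinearMap.prodMap_one
      map_mul' := fun g g' => by
        rw [map_mul, map_mul]
        exact (LinearMap.prodMap_mul _ _ _ _).symm }
  have hla : ∀ h : Bil P K, ∀ k : K, l (h, k) = dB C h + T3_ee C k := fun h k => rfl
  have haa : ∀ (g : G) (h : Bil P K) (k : K),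
      a g (h, k) = (T3_actB rho chi g h, T3_actK chi g k) := fun g h k => rfl
  have hl : ∀ g x, l (a g x) = T3_actB rho chi g (l x) := by
    rintro g ⟨h, k⟩
    rw [haa, hla, hla]
    ext y z
    rw [T3_actB_apply, LinearMap.add_apply, LinearMap.add_apply, dB_apply, T3_ee_apply,
      LinearMap.add_apply, LinearMap.add_apply, dB_apply, T3_ee_apply, T3_actB_apply,
      T3_actB_apply, T3_actK_apply, hA.eps, hA.eps, hA.del, hA.del]
    simp only [mul_add, mul_smul_comm]
  have hv2 : ∀ g x, v (rho g x) = T3_actB rho chi g (v x) := by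
    intro g x
    ext y z
    rw [T3_actB_apply, ← hv, hinv', hinv']
  have him : ∀ x, ∃ y, l y = v x := by
    intro x
    obtain ⟨h', k, hk⟩ := T3_exact C (v x) (hd x)
    exact ⟨(h', k), hk⟩
  obtain ⟨f', hf1, hf2⟩ := lift (A := Bil P K × K) (B := Bil P K) hA.pl a
    (T3_actB rho chi) l hl v hv2 him
  refine ⟨(LinearMap.fst _ _ _).comp f', (LinearMap.snd _ _ _).comp f', ?_, ?_, ?_⟩
  · intro g x y z
    have h1 : ((LinearMap.fst (ZMod 2) (Bil P K) K).comp f') (rho g x) =
        T3_actB rho chi g (f' x).1 := by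
      rw [LinearMap.comp_apply, hf1]
      rfl
    rw [h1, T3_actB_apply, hinv, hinv]
    rfl
  · intro g x
    have h1 : ((LinearMap.snd (ZMod 2) (Bil P K) K).comp f') (rho g x) =
        T3_actK chi g (f' x).2 := by
      rw [LinearMap.comp_apply, hf1]
      rfl
    rw [h1, T3_actK_apply]
    rfl
  · intro x
    exact (hf2 x).symm

/-- the filtration by degree -/
def T3_F (C : Cx P) (q : ℕ) : AddSubgroup (F3 P K) where
  carrier := {w | ∀ r, q < r → ∀ x, T3_cmp C r (w x) = 0}
  zero_mem' := fun r _ x => by rw [LinearMap.zero_apply, map_zero]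
  add_mem' := fun {a b} ha hb r hr x => by
    rw [LinearMap.add_apply, map_add, ha r hr x, hb r hr x, add_zero]
  neg_mem' := fun {a} ha => by
    rw [T3_neg]
    exact ha

theorem T3_mem_F (C : Cx P) (q : ℕ) (w : F3 P K) :
    w ∈ T3_F C q ↔ ∀ r, q < r → ∀ x, T3_cmp C r (w x) = 0 := Iff.rfl

/-- the equivariant forms -/
def T3_E (rho : G →* Module.End (ZMod 2) P) (chi : G →* Kˣ) : AddSubgroup (F3 P K) where
  carrier := {w | EqT rho chi w}
  zero_mem' := fun g x y z => by simp
  add_mem' := fun {a b} ha hb g x y z => by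
    rw [LinearMap.add_apply, LinearMap.add_apply, LinearMap.add_apply, LinearMap.add_apply,
      LinearMap.add_apply, LinearMap.add_apply, ha g x y z, hb g x y z, mul_add]
  neg_mem' := fun {a} ha => by
    rw [T3_neg]
    exact ha

theorem T3_mem_E (rho : G →* Module.End (ZMod 2) P) (chi : G →* Kˣ) (w : F3 P K) :
    w ∈ T3_E rho chi ↔ EqT rho chi w := Iff.rfl

theorem T3_DT_apply' (C : Cx P) (w : F3 P K) (x : P) :
    DT C w x = w (C.del x) + (dB C (w x) + w x + (w x).flip) := rfl

theorem T3_step (C : Cx P) (rho : G →* Module.End (ZMod 2) P) (hA : Act C rho) (chi : G →* Kˣ)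
    (q : ℕ) (w : F3 P K) (hw : w ∈ T3_E rho chi) (hw1 : w ∈ T3_F C (q + 1))
    (hw2 : DT C w ∈ T3_F C (q + 1)) : ∃ u ∈ T3_E rho chi, w - DT C u ∈ T3_F C q := by
  have hv : ∀ x, dB C (T3_cmp3 C (q + 1) w x) = 0 := by
    intro x
    have h1 := hw2 (q + 2) (by omega) x
    rw [T3_DT_apply', map_add, map_add, map_add, T3_cmp_flip, hw1 (q + 2) (by omega),
      hw1 (q + 2) (by omega), T3_cmp_dB, zero_add, add_zero] at h1
    rw [T3_cmp3_apply]
    rw [← h1]
    ext y z
    simp
  obtain ⟨U, b, hU, hb, hUb⟩ := T3_row C rho hA chi _ (T3_eqT_cmp3 hA (q + 1) hw) hv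
  refine ⟨T3_cmp3 C q U, T3_eqT_cmp3 hA q hU, ?_⟩
  have hu : ∀ x, T3_cmp C (q + 1) (w x) = dB C (T3_cmp3 C q U x) := by
    intro x
    have h1 := congrArg (T3_cmp C (q + 1)) (hUb x)
    rw [T3_cmp3_apply, T3_cmp_cmp, if_pos rfl, map_add, T3_cmp_dB, T3_cmp_ee,
      if_neg (by omega), add_zero] at h1
    exact h1
  intro r hr x
  obtain ⟨r, rfl⟩ : ∃ r', r = r' + 1 := ⟨r - 1, by omega⟩
  have h0 : ∀ x, T3_cmp C (r + 1) (T3_cmp3 C q U x) = 0 := by
    intro x
    rw [T3_cmp3_apply, T3_cmp_cmp, if_neg (by omega)]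
  rw [T3_sub, LinearMap.add_apply, map_add, T3_DT_apply', map_add, map_add, map_add,
    T3_cmp_flip, h0, h0, T3_cmp_dB]
  by_cases hrq : r = q
  · subst hrq
    rw [hu, T3_cmp3_apply, T3_cmp_cmp, if_pos rfl, zero_add, add_zero]
    ext y z
    simp only [LinearMap.add_apply, LinearMap.flip_apply, LinearMap.zero_apply, add_zero]
    exact T3_two _
  · rw [hw1 (r + 1) (by omega), T3_cmp3_apply, T3_cmp_cmp, if_neg hrq]
    ext y z
    simp

theorem Ex_of_T_exact (C : Cx P) (rho : G →* Module.End (ZMod 2) P) (hA : Act C rho)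
    (chi : G →* Kˣ)
    (hT : ∀ t : F3 P K, EqT rho chi t → DT C t = 0 → ∃ u : F3 P K, EqT rho chi u ∧ t = DT C u) :
    Ex C rho chi := by
  intro c hc hcd
  have ht1 : EqT rho chi ((T3_ee C).comp c) := by
    intro g x y z
    rw [LinearMap.comp_apply, LinearMap.comp_apply, T3_ee_apply, T3_ee_apply, hA.eps, hA.eps, hc]
    simp only [mul_smul_comm]
  have hee : ∀ (b : P →ₗ[ZMod 2] K) (x y z : P),
      DT C ((T3_ee C).comp b) x y z = C.eps y • C.eps z • b (C.del x) := by
    intro b x y z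
    rw [DT_apply]
    simp only [LinearMap.comp_apply, T3_ee_apply, C.eps_del, zero_smul, smul_zero, zero_add]
    rw [smul_comm (C.eps z) (C.eps y) (b x), T3_two, add_zero]
  have ht2 : DT C ((T3_ee C).comp c) = 0 := by
    ext x y z
    rw [hee, hcd, smul_zero, smul_zero]
    rfl
  obtain ⟨w, hw, hwt⟩ := hT _ ht1 ht2
  have ht0 : ((T3_ee C).comp c : F3 P K) ∈ T3_F C 0 := by
    intro r hr x
    rw [LinearMap.comp_apply, T3_cmp_ee, if_neg (by omega)]
  obtain ⟨u, hu, hwu⟩ := reduce (DT C).toAddMonoidHom (fun w => T3_DT_DT C w) (T3_E rho chi)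
    (fun w hw => T3_eqT_DT hA hw) (T3_F C) (fun q w hw r hr x => hw r (by omega) x)
    (fun q w hw h1 h2 => T3_step C rho hA chi q w hw h1 h2) (2 * C.n) w hw
    (fun r hr x => T3_cmp_big C r (by omega) _) (by
      change DT C w ∈ T3_F C 0
      rw [← hwt]
      exact ht0)
  set w1 : F3 P K := w - DT C u with hw1
  have hw1E : EqT rho chi w1 := (T3_E rho chi).sub_mem hw (T3_eqT_DT hA hu)
  have hDw1 : DT C w1 = (T3_ee C).comp c := by
    rw [hw1, T3_sub, map_add, T3_DT_DT, add_zero, ← hwt]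
  have hwF : w1 ∈ T3_F C 0 := hwu
  have hz : ∀ x, T3_cmp C 0 (w1 x) = w1 x := fun x =>
    T3_cmp_zero C _ fun r hr => hwF r hr x
  have hd : ∀ x, dB C (w1 x) = 0 := by
    intro x
    have h1 : T3_cmp C 1 (DT C w1 x) = 0 := by
      rw [hDw1, LinearMap.comp_apply, T3_cmp_ee, if_neg (by omega)]
    rw [T3_DT_apply', map_add, map_add, map_add, T3_cmp_flip, hwF 1 (by omega),
      hwF 1 (by omega), T3_cmp_dB, hz, zero_add, add_zero] at h1
    rw [← h1]
    ext y z
    simp
  obtain ⟨U, b, hU, hb, hUb⟩ := T3_row C rho hA chi w1 hw1E hd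
  have hw1b : w1 = (T3_ee C).comp b := by
    refine LinearMap.ext fun x => ?_
    rw [← hz, hUb, map_add, T3_cmp_dB_zero, T3_cmp_ee, if_pos rfl, zero_add]
    rfl
  refine ⟨b, hb, fun x => ?_⟩
  have h1 := hee b x C.pt C.pt
  rw [← hw1b, hDw1, LinearMap.comp_apply, T3_ee_apply, C.eps_pt, one_smul, one_smul, one_smul,
    one_smul] at h1
  exact h1

end Pool.Agent.helper81.PD
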