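import Pool.Agent.helper81.PD.Defs

/-! # PDS-Y0: forms which are equivariant under the fixed subgroup -/

namespace Pool.Agent.helper81.PD

variable {G : Type} [Group G] {P : Type} [AddCommGroup P] [Module (ZMod 2) P]
  {K : Type} [Field K] [Algebra (ZMod 2) K]

/-- the twisted form belonging to the element `n` -/
def Y0_tw (rho : G →* Module.End (ZMod 2) P) (al : G →* G) (chi : G →* Kˣ) (B : Bil P K)
    (n : G) : Bil P K :=
  (chi n : K) • (B.compl₁₂ (rho n⁻¹) (rho (al n)⁻¹))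

theorem Y0_tw_apply (rho : G →* Module.End (ZMod 2) P) (al : G →* G) (chi : G →* Kˣ)
    (B : Bil P K) (n : G) (x y : P) :
    Y0_tw rho al chi B n x y = (chi n : K) * B (rho n⁻¹ x) (rho (al n)⁻¹ y) := rfl

theorem Y0_rho_mul (rho : G →* Module.End (ZMod 2) P) (g h : G) (x : P) :
    rho g (rho h x) = rho (g * h) x := by
  rw [map_mul, Module.End.mul_apply]

theorem Y0_indep (rho : G →* Module.End (ZMod 2) P) (al : G →* G) (chi : G →* Kˣ)
    (H : Subgroup G) (hH : ∀ g, g ∈ H ↔ al g = g)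
    (B : Bil P K) (hB : ∀ g ∈ H, ∀ x y, B (rho g x) (rho g y) = (chi g : K) * B x y)
    (n m : G) (hnm : n * (al n)⁻¹ = m * (al m)⁻¹) :
    Y0_tw rho al chi B n = Y0_tw rho al chi B m := by
  have hh : al (m⁻¹ * n) = m⁻¹ * n := by
    rw [map_mul, map_inv]
    have h1 : (al n)⁻¹ = n⁻¹ * (m * (al m)⁻¹) := by rw [← hnm]; group
    have h2 : al n = (n⁻¹ * (m * (al m)⁻¹))⁻¹ := by rw [← h1, inv_inv]
    rw [h2]
    group
  have hm : (m⁻¹ * n)⁻¹ ∈ H := H.inv_mem ((hH _).2 hh)
  ext x y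
  rw [Y0_tw_apply, Y0_tw_apply]
  have e1 : rho n⁻¹ x = rho (m⁻¹ * n)⁻¹ (rho m⁻¹ x) := by
    rw [Y0_rho_mul]
    congr 2
    group
  have e2 : rho (al n)⁻¹ y = rho (m⁻¹ * n)⁻¹ (rho (al m)⁻¹ y) := by
    rw [Y0_rho_mul, ← hh]
    congr 2
    rw [map_mul, map_inv]
    group
  rw [e1, e2, hB _ hm, ← mul_assoc]
  congr 1
  rw [← Units.val_mul, ← map_mul]
  congr 2
  group

open Classical in
/-- the extension of `B` to an equivariant family -/
noncomputable def Y0_ext (rho : G →* Module.End (ZMod 2) P) (al : G →* G) (chi : G →* Kˣ)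
    (B : Bil P K) (s : S al) : Bil P K :=
  if h : ∃ n : G, n * (al n)⁻¹ = s.1 then Y0_tw rho al chi B h.choose else 0

theorem Y0_ext_of (rho : G →* Module.End (ZMod 2) P) (al : G →* G) (chi : G →* Kˣ)
    (H : Subgroup G) (hH : ∀ g, g ∈ H ↔ al g = g)
    (B : Bil P K) (hB : ∀ g ∈ H, ∀ x y, B (rho g x) (rho g y) = (chi g : K) * B x y)
    (s : S al) (n : G) (hn : n * (al n)⁻¹ = s.1) :
    Y0_ext rho al chi B s = Y0_tw rho al chi B n := by
  have h : ∃ n : G, n * (al n)⁻¹ = s.1 := ⟨n, hn⟩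
  rw [Y0_ext, dif_pos h]
  exact Y0_indep rho al chi H hH B hB _ _ (h.choose_spec.trans hn.symm)

theorem Y0_ext_not (rho : G →* Module.End (ZMod 2) P) (al : G →* G) (chi : G →* Kˣ)
    (B : Bil P K) (s : S al) (h : ¬ ∃ n : G, n * (al n)⁻¹ = s.1) :
    Y0_ext rho al chi B s = 0 := by
  rw [Y0_ext, dif_neg h]

theorem Y0_exact (C : Cx P) (rho : G →* Module.End (ZMod 2) P) (hA : Act C rho) (al : G →* G)
    (hal : ∀ g, al (al g) = g) (chi : G →* Kˣ) (hchi : ∀ g, chi (al g) = chi g)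
    (hY : ∀ B : S al → Bil P K, EqY rho hal chi B →
      (∀ s, dB C (B s) + B s + (B (swS hal s)).flip = 0) →
      ∃ U : S al → Bil P K, EqY rho hal chi U ∧
        ∀ s, B s = dB C (U s) + U s + (U (swS hal s)).flip)
    (H : Subgroup G) (hH : ∀ g, g ∈ H ↔ al g = g)
    (B : Bil P K) (hB : ∀ g ∈ H, ∀ x y, B (rho g x) (rho g y) = (chi g : K) * B x y)
    (h : DB C B = 0) :
    ∃ U : Bil P K, (∀ g ∈ H, ∀ x y, U (rho g x) (rho g y) = (chi g : K) * U x y) ∧
      B = DB C U := by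
  have key := Y0_ext_of rho al chi H hH B hB
  have hDB : ∀ x y : P, B (C.del x) y + B x (C.del y) + B x y + B y x = 0 := fun x y => by
    rw [← DB_apply, h]; rfl
  obtain ⟨U, hU, hBU⟩ := hY (Y0_ext rho al chi B) (by
    intro g s x y
    by_cases hs : ∃ n : G, n * (al n)⁻¹ = s.1
    · obtain ⟨n, hn⟩ := hs
      rw [key s n hn, key (actS hal g s) (g * n) (by
        rw [map_mul]
        change g * n * (al g * al n)⁻¹ = g * s.1 * (al g)⁻¹
        rw [← hn]; group), Y0_tw_apply, Y0_tw_apply, Y0_rho_mul, Y0_rho_mul]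
      have e1 : (g * n)⁻¹ * g = n⁻¹ := by group
      have e2 : (al (g * n))⁻¹ * al g = (al n)⁻¹ := by rw [map_mul]; group
      rw [e1, e2, map_mul, Units.val_mul, mul_assoc]
    · rw [Y0_ext_not rho al chi B s hs, Y0_ext_not rho al chi B (actS hal g s) (by
        rintro ⟨m, hm⟩
        refine hs ⟨g⁻¹ * m, ?_⟩
        change m * (al m)⁻¹ = g * s.1 * (al g)⁻¹ at hm
        have h1 : s.1 = g⁻¹ * (m * (al m)⁻¹) * al g := by rw [hm]; group
        rw [h1, map_mul, map_inv]
        group)]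
      simp) (by
    intro s
    by_cases hs : ∃ n : G, n * (al n)⁻¹ = s.1
    · obtain ⟨n, hn⟩ := hs
      rw [key s n hn, key (swS hal s) (al n) (by
        change al n * (al (al n))⁻¹ = al s.1
        rw [← hn, map_mul, map_inv])]
      ext x y
      change Y0_tw rho al chi B n (C.del x) y + Y0_tw rho al chi B n x (C.del y) +
        Y0_tw rho al chi B n x y + Y0_tw rho al chi B (al n) y x = 0
      rw [Y0_tw_apply, Y0_tw_apply, Y0_tw_apply, Y0_tw_apply, hchi, hal, ← hA.del, ← hA.del,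
        ← mul_add, ← mul_add, ← mul_add, hDB, mul_zero]
    · rw [Y0_ext_not rho al chi B s hs, Y0_ext_not rho al chi B (swS hal s) (by
        rintro ⟨m, hm⟩
        refine hs ⟨al m, ?_⟩
        change m * (al m)⁻¹ = al s.1 at hm
        have h1 := congrArg al hm
        rw [hal, map_mul, map_inv] at h1
        exact h1)]
      ext x y
      simp)
  have one_mem : (1 : G) * al 1 = 1 := by simp
  let one : S al := ⟨1, one_mem⟩
  have hone : ∀ x y, Y0_ext rho al chi B one x y = B x y := by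
    intro x y
    rw [key one 1 (by simp [one]), Y0_tw_apply]
    simp
  have hsw : swS hal one = one := Subtype.ext (by simp [swS, one])
  refine ⟨U one, ?_, ?_⟩
  · intro g hg x y
    have h1 := hU g one x y
    have h2 : actS hal g one = one := Subtype.ext (by
      simp [actS, one, (hH g).1 hg])
    rw [h2, (hH g).1 hg] at h1
    exact h1
  · ext x y
    rw [← hone, hBU one, hsw]
    rfl

end Pool.Agent.helper81.PD
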