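import Pool.Agent.helper81.PD.Defs

/-! # PDS-Yx: families of forms: exactness for the total coboundary -/

namespace Pool.Agent.helper81.PD

variable {G : Type} [Group G] {P : Type} [AddCommGroup P] [Module (ZMod 2) P]
  {K : Type} [Field K] [Algebra (ZMod 2) K]

theorem Yx_add_self (a : K) : a + a = 0 := by
  have h : ((2 : ZMod 2)) • a = a + a := two_smul (ZMod 2) a
  have h2 : (2 : ZMod 2) = 0 := rfl
  rw [← h, h2, zero_smul]

theorem Yx_add_selfB (B : Bil P K) : B + B = 0 := by
  refine LinearMap.ext₂ ?_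
  intro x y
  rw [LinearMap.add_apply, LinearMap.add_apply, Yx_add_self, LinearMap.zero_apply,
    LinearMap.zero_apply]

/-- the projection to the part of total degree `q` -/
noncomputable def Yx_Pr (C : Cx P) (q : ℕ) : Bil P K →+ Bil P K where
  toFun B := ∑ p ∈ Finset.HasAntidiagonal.antidiagonal q, B.compl₁₂ (C.pi p.1) (C.pi p.2)
  map_zero' := by
    refine Finset.sum_eq_zero ?_
    intro p _
    ext x y
    simp
  map_add' A B := by
    rw [← Finset.sum_add_distrib]
    refine Finset.sum_congr rfl ?_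
    intro p _
    ext x y
    simp

theorem Yx_Pr_apply (C : Cx P) (q : ℕ) (B : Bil P K) (x y : P) :
    Yx_Pr C q B x y =
      ∑ p ∈ Finset.HasAntidiagonal.antidiagonal q, B (C.pi p.1 x) (C.pi p.2 y) := by
  simp [Yx_Pr, LinearMap.sum_apply]

theorem Yx_Pr_flip (C : Cx P) (q : ℕ) (B : Bil P K) :
    Yx_Pr C q B.flip = (Yx_Pr C q B).flip := by
  refine LinearMap.ext₂ ?_
  intro x y
  rw [LinearMap.flip_apply, Yx_Pr_apply, Yx_Pr_apply, ← Finset.Nat.sum_antidiagonal_swap]
  rfl

theorem Yx_Pr_eqB (C : Cx P) (rho : G →* Module.End (ZMod 2) P) (hA : Act C rho) (al : G →* G)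
    (chi : G →* Kˣ) (q : ℕ) (B : Bil P K) (hB : EqB rho al chi B) :
    EqB rho al chi (Yx_Pr C q B) := by
  intro g x y
  rw [Yx_Pr_apply, Yx_Pr_apply, Finset.mul_sum]
  refine Finset.sum_congr rfl ?_
  intro p _
  rw [hA.pi, hA.pi, hB]

theorem Yx_Pr_eqY (C : Cx P) (rho : G →* Module.End (ZMod 2) P) (hA : Act C rho) (al : G →* G)
    (hal : ∀ g, al (al g) = g) (chi : G →* Kˣ) (q : ℕ) (B : S al → Bil P K)
    (hB : EqY rho hal chi B) :
    EqY rho hal chi (fun s => Yx_Pr C q (B s)) := by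
  intro g s x y
  rw [Yx_Pr_apply, Yx_Pr_apply, Finset.mul_sum]
  refine Finset.sum_congr rfl ?_
  intro p _
  rw [hA.pi, hA.pi, hB]

theorem Yx_dB_Pr (C : Cx P) (q : ℕ) (B : Bil P K) :
    Yx_Pr C (q + 1) (dB C B) = dB C (Yx_Pr C q B) := by
  refine LinearMap.ext₂ ?_
  intro x y
  rw [dB_apply, Yx_Pr_apply, Yx_Pr_apply, Yx_Pr_apply]
  simp only [dB_apply]
  rw [Finset.sum_add_distrib, Finset.Nat.sum_antidiagonal_succ, Finset.Nat.sum_antidiagonal_succ']
  simp only [C.del_pi_succ, C.del_pi_zero, map_zero, LinearMap.zero_apply, zero_add]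

theorem Yx_dB_Pr_zero (C : Cx P) (B : Bil P K) : Yx_Pr C 0 (dB C B) = 0 := by
  refine LinearMap.ext₂ ?_
  intro x y
  rw [Yx_Pr_apply]
  simp [dB_apply, C.del_pi_zero]

theorem Yx_Pr_pi (C : Cx P) (q i j : ℕ) (B : Bil P K) (x y : P) :
    Yx_Pr C q B (C.pi i x) (C.pi j y) = if i + j = q then B (C.pi i x) (C.pi j y) else 0 := by
  rw [Yx_Pr_apply]
  simp only [C.pi_pi]
  split_ifs with h
  · rw [Finset.sum_eq_single (i, j)]
    · simp
    · rintro ⟨a, b⟩ hab hne
      have h1 : a ≠ i ∨ b ≠ j := by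
        by_contra hcon
        push Not at hcon
        exact hne (by rw [hcon.1, hcon.2])
      rcases h1 with h1 | h1
      · simp [h1]
      · simp [h1]
    · intro hn
      exact absurd (Finset.HasAntidiagonal.mem_antidiagonal.2 h) hn
  · refine Finset.sum_eq_zero ?_
    rintro ⟨a, b⟩ hab
    rw [Finset.HasAntidiagonal.mem_antidiagonal] at hab
    have h1 : a ≠ i ∨ b ≠ j := by
      by_contra hcon
      push Not at hcon
      exact h (by rw [← hcon.1, ← hcon.2]; exact hab)
    rcases h1 with h1 | h1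
    · simp [h1]
    · simp [h1]

theorem Yx_Pr_Pr (C : Cx P) (q r : ℕ) (B : Bil P K) :
    Yx_Pr C q (Yx_Pr C r B) = if q = r then Yx_Pr C r B else 0 := by
  refine LinearMap.ext₂ ?_
  intro x y
  rw [Yx_Pr_apply]
  simp only [Yx_Pr_pi]
  split_ifs with h
  · subst h
    rw [Yx_Pr_apply]
    refine Finset.sum_congr rfl ?_
    intro p hp
    rw [Finset.HasAntidiagonal.mem_antidiagonal] at hp
    rw [if_pos hp]
  · rw [LinearMap.zero_apply, LinearMap.zero_apply]
    refine Finset.sum_eq_zero ?_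
    intro p hp
    rw [Finset.HasAntidiagonal.mem_antidiagonal] at hp
    rw [if_neg (by rw [hp]; exact h)]

theorem Yx_ext (C : Cx P) (B : Bil P K) (h : ∀ q, q < 2 * C.n → Yx_Pr C q B = 0) : B = 0 := by
  refine LinearMap.ext₂ ?_
  intro x y
  calc B x y = B (∑ i ∈ Finset.range C.n, C.pi i x) (∑ j ∈ Finset.range C.n, C.pi j y) := by
        rw [C.pi_sum, C.pi_sum]
    _ = 0 := by
        rw [map_sum]
        refine Finset.sum_eq_zero ?_
        intro j hj
        rw [map_sum, LinearMap.sum_apply]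
        refine Finset.sum_eq_zero ?_
        intro i hi
        rw [Finset.mem_range] at hi hj
        have h2 := Yx_Pr_pi C (i + j) i j B x y
        rw [h (i + j) (by omega), if_pos rfl] at h2
        simpa using h2.symm

/-- parts of low degree of a coboundary of a homogeneous form -/
theorem Yx_Pr_dB_Pr (C : Cx P) (q j : ℕ) (hj : j ≤ q) (B : Bil P K) :
    Yx_Pr C j (dB C (Yx_Pr C q B)) = 0 := by
  rcases Nat.eq_zero_or_pos j with h | h
  · rw [h]
    exact Yx_dB_Pr_zero C _
  · obtain ⟨k, rfl⟩ : ∃ k, j = k + 1 := ⟨j - 1, by omega⟩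
    rw [Yx_dB_Pr, Yx_Pr_Pr, if_neg (by omega), map_zero]

theorem Yx_Pr_dB_low (C : Cx P) (q : ℕ) (B : Bil P K) (h : ∀ j, j < q → Yx_Pr C j B = 0) :
    Yx_Pr C q (dB C B) = 0 := by
  rcases Nat.eq_zero_or_pos q with hq | hq
  · rw [hq]
    exact Yx_dB_Pr_zero C _
  · obtain ⟨k, rfl⟩ : ∃ k, q = k + 1 := ⟨q - 1, by omega⟩
    rw [Yx_dB_Pr, h k (by omega), map_zero]

theorem Yx_swS_swS {al : G →* G} (hal : ∀ g, al (al g) = g) (s : S al) :
    swS hal (swS hal s) = s := by
  apply Subtype.ext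
  exact hal s.1

theorem Yx_swS_actS {al : G →* G} (hal : ∀ g, al (al g) = g) (g : G) (s : S al) :
    swS hal (actS hal g s) = actS hal (al g) (swS hal s) := by
  apply Subtype.ext
  change al (g * s.1 * (al g)⁻¹) = al g * al s.1 * (al (al g))⁻¹
  rw [map_mul, map_mul, map_inv]

/-- the total coboundary of families -/
def Yx_D (C : Cx P) {al : G →* G} (hal : ∀ g, al (al g) = g) (B : S al → Bil P K) (s : S al) :
    Bil P K :=
  dB C (B s) + B s + (B (swS hal s)).flip

theorem Yx_D_apply (C : Cx P) {al : G →* G} (hal : ∀ g, al (al g) = g) (B : S al → Bil P K)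
    (s : S al) (x y : P) :
    Yx_D C hal B s x y =
      B s (C.del x) y + B s x (C.del y) + B s x y + B (swS hal s) y x := rfl

theorem Yx_D_add (C : Cx P) {al : G →* G} (hal : ∀ g, al (al g) = g) (A B : S al → Bil P K)
    (s : S al) :
    Yx_D C hal (fun s => A s + B s) s = Yx_D C hal A s + Yx_D C hal B s := by
  refine LinearMap.ext₂ ?_
  intro x y
  rw [LinearMap.add_apply, LinearMap.add_apply, Yx_D_apply, Yx_D_apply, Yx_D_apply]
  simp only [LinearMap.add_apply]
  ring

theorem Yx_D_const (C : Cx P) {al : G →* G} (hal : ∀ g, al (al g) = g) (e : Bil P K)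
    (s : S al) :
    Yx_D C hal (fun _ => e) s = DB C e := by
  refine LinearMap.ext₂ ?_
  intro x y
  rw [Yx_D_apply, DB_apply]

theorem Yx_D_D (C : Cx P) {al : G →* G} (hal : ∀ g, al (al g) = g) (B : S al → Bil P K)
    (s : S al) :
    Yx_D C hal (Yx_D C hal B) s = 0 := by
  refine LinearMap.ext₂ ?_
  intro x y
  simp only [Yx_D_apply, C.del_del, map_zero, LinearMap.zero_apply, Yx_swS_swS]
  have e1 := Yx_add_self (B s (C.del x) (C.del y))
  have e2 := Yx_add_self (B s (C.del x) y)
  have e3 := Yx_add_self (B s x (C.del y))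
  have e4 := Yx_add_self (B (swS hal s) y (C.del x))
  have e5 := Yx_add_self (B (swS hal s) (C.del y) x)
  have e6 := Yx_add_self (B s x y)
  have e7 := Yx_add_self (B (swS hal s) y x)
  linear_combination e1 + e2 + e3 + e4 + e5 + e6 + e7

theorem Yx_D_eqY (C : Cx P) (rho : G →* Module.End (ZMod 2) P) (hA : Act C rho) {al : G →* G}
    (hal : ∀ g, al (al g) = g) (chi : G →* Kˣ) (hchi : ∀ g, chi (al g) = chi g)
    (B : S al → Bil P K) (hB : EqY rho hal chi B) :
    EqY rho hal chi (Yx_D C hal B) := by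
  intro g s x y
  have h4 : B (swS hal (actS hal g s)) (rho (al g) y) (rho g x) =
      (chi g : K) * B (swS hal s) y x := by
    have h5 := hB (al g) (swS hal s) y x
    rw [hal, hchi] at h5
    rw [Yx_swS_actS]
    exact h5
  rw [Yx_D_apply, Yx_D_apply, hA.del, hA.del, hB, hB, hB, h4]
  ring

theorem Yx_add_eqY (rho : G →* Module.End (ZMod 2) P) {al : G →* G}
    (hal : ∀ g, al (al g) = g) (chi : G →* Kˣ) (A B : S al → Bil P K)
    (hA : EqY rho hal chi A) (hB : EqY rho hal chi B) :
    EqY rho hal chi (fun s => A s + B s) := by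
  intro g s x y
  rw [LinearMap.add_apply, LinearMap.add_apply, LinearMap.add_apply, LinearMap.add_apply,
    hA g s x y, hB g s x y, mul_add]

theorem Yx_const_eqY (rho : G →* Module.End (ZMod 2) P) {al : G →* G}
    (hal : ∀ g, al (al g) = g) (chi : G →* Kˣ) (e : Bil P K) (he : EqB rho al chi e) :
    EqY rho hal chi (fun _ => e) := by
  intro g s x y
  exact he g x y

theorem Yx_add_eqB (rho : G →* Module.End (ZMod 2) P) {al : G →* G}
    (chi : G →* Kˣ) (A B : Bil P K)
    (hA : EqB rho al chi A) (hB : EqB rho al chi B) :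
    EqB rho al chi (A + B) := by
  intro g x y
  rw [LinearMap.add_apply, LinearMap.add_apply, LinearMap.add_apply, LinearMap.add_apply,
    hA g x y, hB g x y, mul_add]

/-- a nonzero closed family forces the character to be invariant -/
theorem Yx_chi (C : Cx P) (rho : G →* Module.End (ZMod 2) P) (hA : Act C rho) {al : G →* G}
    (hal : ∀ g, al (al g) = g) (chi : G →* Kˣ)
    (B : S al → Bil P K) (hB : EqY rho hal chi B) (h : ∀ s, Yx_D C hal B s = 0)
    (s : S al) (x y : P) (hne : B s x y ≠ 0) (g : G) : chi (al g) = chi g := by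
  have h1 : Yx_D C hal B (swS hal s) y x = 0 := by
    rw [h]
    rfl
  rw [Yx_D_apply, Yx_swS_swS] at h1
  have h2 : Yx_D C hal B (actS hal g (swS hal s)) (rho g y) (rho (al g) x) = 0 := by
    rw [h]
    rfl
  have h3 : B (swS hal (actS hal g (swS hal s))) (rho (al g) x) (rho g y) =
      (chi (al g) : K) * B s x y := by
    have h5 := hB (al g) s x y
    rw [hal] at h5
    rw [Yx_swS_actS, Yx_swS_swS]
    exact h5
  rw [Yx_D_apply, hA.del, hA.del, hB, hB, hB, h3] at h2
  have h4 : ((chi (al g) : K) - (chi g : K)) * B s x y = 0 := by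
    linear_combination h2 - (chi g : K) * h1
  rcases mul_eq_zero.1 h4 with h5 | h5
  · exact Units.ext (sub_eq_zero.1 h5)
  · exact absurd h5 hne

theorem Yx_ind (C : Cx P) (rho : G →* Module.End (ZMod 2) P) (hA : Act C rho) (al : G →* G)
    (hal : ∀ g, al (al g) = g) (chi : G →* Kˣ) (hchi : ∀ g, chi (al g) = chi g)
    (hZ : ∀ B : S al → Bil P K, EqY rho hal chi B → ∀ k : Bil P K,
      (∀ s, B s + (B (swS hal s)).flip = k) →
      ∃ U : S al → Bil P K, EqY rho hal chi U ∧ ∃ e : Bil P K, EqB rho al chi e ∧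
        ∀ s, B s + U s + (U (swS hal s)).flip = e)
    (B : S al → Bil P K) (hB : EqY rho hal chi B)
    (h : ∀ s, Yx_D C hal B s = 0) (q : ℕ) :
    ∃ u : S al → Bil P K, EqY rho hal chi u ∧ ∃ e : Bil P K, EqB rho al chi e ∧
      ∀ s j, j < q → Yx_Pr C j (B s + Yx_D C hal u s + e) = 0 := by
  induction q with
  | zero =>
    refine ⟨fun _ => 0, ?_, 0, ?_, ?_⟩
    · intro g s x y
      simp
    · intro g x y
      simp
    · intro s j hj
      omega
  | succ q ih =>
    obtain ⟨u, hu, e, he, h1⟩ := ih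
    obtain ⟨A, hAs⟩ : ∃ A : S al → Bil P K, ∀ s, A s = B s + Yx_D C hal u s + e :=
      ⟨fun s => B s + Yx_D C hal u s + e, fun _ => rfl⟩
    have hAdef : A = fun s => B s + Yx_D C hal u s + e := funext hAs
    have hAY : EqY rho hal chi A := by
      rw [hAdef]
      exact Yx_add_eqY rho hal chi _ _
        (Yx_add_eqY rho hal chi _ _ hB (Yx_D_eqY C rho hA hal chi hchi u hu))
        (Yx_const_eqY rho hal chi e he)
    have h1A : ∀ s j, j < q → Yx_Pr C j (A s) = 0 := by
      intro s j hj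
      rw [hAs]
      exact h1 s j hj
    have hDA : ∀ s, Yx_D C hal A s = DB C e := by
      intro s
      have a1 : Yx_D C hal A s = Yx_D C hal (fun s => B s + Yx_D C hal u s) s +
          Yx_D C hal (fun _ => e) s := by
        rw [hAdef]
        exact Yx_D_add C hal _ _ s
      have a2 : Yx_D C hal (fun s => B s + Yx_D C hal u s) s = Yx_D C hal B s +
          Yx_D C hal (Yx_D C hal u) s := Yx_D_add C hal _ _ s
      rw [a1, a2, h, Yx_D_D, Yx_D_const]
      exact (congrArg (fun z => z + DB C e) (add_zero (0 : Bil P K))).trans (zero_add _)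
    have hk : ∀ s, Yx_Pr C q (A s) + (Yx_Pr C q (A (swS hal s))).flip =
        Yx_Pr C q (DB C e) := by
      intro s
      rw [← hDA s]
      change _ = Yx_Pr C q (dB C (A s) + A s + (A (swS hal s)).flip)
      rw [map_add, map_add, Yx_Pr_dB_low C q (A s) (h1A s), Yx_Pr_flip]
      exact (congrArg (fun z => z + (Yx_Pr C q (A (swS hal s))).flip)
        (zero_add (Yx_Pr C q (A s)))).symm
    obtain ⟨U, hU, e', he', h2⟩ := hZ (fun s => Yx_Pr C q (A s))
      (Yx_Pr_eqY C rho hA al hal chi q A hAY) (Yx_Pr C q (DB C e)) hk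
    refine ⟨fun s => u s + Yx_Pr C q (U s),
      Yx_add_eqY rho hal chi _ _ hu (Yx_Pr_eqY C rho hA al hal chi q U hU),
      e + Yx_Pr C q e',
      Yx_add_eqB rho chi _ _ he (Yx_Pr_eqB C rho hA al chi q e' he'), ?_⟩
    intro s j hj
    have h3 : Yx_Pr C q (A s) + Yx_Pr C q (U s) + (Yx_Pr C q (U (swS hal s))).flip =
        Yx_Pr C q e' := by
      have a1 := congrArg (Yx_Pr C q) (h2 s)
      rw [map_add, map_add, Yx_Pr_flip, Yx_Pr_Pr, if_pos rfl] at a1
      exact a1
    have h4 : B s + Yx_D C hal (fun s => u s + Yx_Pr C q (U s)) s + (e + Yx_Pr C q e') =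
        A s + Yx_Pr C q (A s) + dB C (Yx_Pr C q (U s)) := by
      have a1 : Yx_D C hal (fun s => u s + Yx_Pr C q (U s)) s = Yx_D C hal u s +
          Yx_D C hal (fun s => Yx_Pr C q (U s)) s := Yx_D_add C hal _ _ s
      have a2 : Yx_D C hal (fun s => Yx_Pr C q (U s)) s =
        dB C (Yx_Pr C q (U s)) + Yx_Pr C q (U s) + (Yx_Pr C q (U (swS hal s))).flip := rfl
      have a3 := Yx_add_selfB (Yx_Pr C q (U s))
      have a4 := Yx_add_selfB ((Yx_Pr C q (U (swS hal s))).flip)
      rw [a1, a2, ← h3]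
      have a5 := hAs s
      generalize Yx_Pr C q (A s) = v1 at *
      rw [a5]
      generalize (Yx_Pr C q (U (swS hal s))).flip = v2 at *
      generalize Yx_Pr C q (U s) = v3 at *
      generalize dB C v3 = v4 at *
      generalize Yx_D C hal u s = v5 at *
      generalize B s = v6 at *
      calc v6 + (v5 + (v4 + v3 + v2)) + (e + (v1 + v3 + v2))
          = (v6 + v5 + e + v1 + v4) + (v3 + v3) + (v2 + v2) := by abel
        _ = v6 + v5 + e + v1 + v4 := by rw [a3, a4, add_zero, add_zero]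
    rw [h4, map_add, map_add, Yx_Pr_Pr, Yx_Pr_dB_Pr C q j (by omega)]
    by_cases hjq : j = q
    · rw [if_pos hjq, hjq, Yx_add_selfB]
      exact add_zero (0 : Bil P K)
    · rw [if_neg hjq, h1A s j (by omega)]
      exact (congrArg (fun z => z + 0) (add_zero (0 : Bil P K))).trans (add_zero _)

theorem Y_exact (C : Cx P) (rho : G →* Module.End (ZMod 2) P) (hA : Act C rho) (al : G →* G)
    (hal : ∀ g, al (al g) = g) (chi : G →* Kˣ)
    (hE : ∀ B : Bil P K, EqB rho al chi B → DB C B = 0 →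
      ∃ U : Bil P K, EqB rho al chi U ∧ B = DB C U)
    (hZ : ∀ B : S al → Bil P K, EqY rho hal chi B → ∀ k : Bil P K,
      (∀ s, B s + (B (swS hal s)).flip = k) →
      ∃ U : S al → Bil P K, EqY rho hal chi U ∧ ∃ e : Bil P K, EqB rho al chi e ∧
        ∀ s, B s + U s + (U (swS hal s)).flip = e)
    (B : S al → Bil P K) (hB : EqY rho hal chi B)
    (h : ∀ s, dB C (B s) + B s + (B (swS hal s)).flip = 0) :
    ∃ U : S al → Bil P K, EqY rho hal chi U ∧
      ∀ s, B s = dB C (U s) + U s + (U (swS hal s)).flip := by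
  have hD : ∀ s, Yx_D C hal B s = 0 := h
  by_cases h0 : ∀ s x y, B s x y = 0
  · refine ⟨fun _ => 0, ?_, ?_⟩
    · intro g s x y
      simp
    · intro s
      refine LinearMap.ext₂ ?_
      intro x y
      rw [h0]
      simp
  push Not at h0
  obtain ⟨s0, x0, y0, hne⟩ := h0
  have hchi : ∀ g, chi (al g) = chi g := Yx_chi C rho hA hal chi B hB hD s0 x0 y0 hne
  obtain ⟨u, hu, e, he, h1⟩ := Yx_ind C rho hA al hal chi hchi hZ B hB hD (2 * C.n)
  have h2 : ∀ s, B s = Yx_D C hal u s + e := by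
    intro s
    have a1 : B s + Yx_D C hal u s + e = 0 := Yx_ext C _ (h1 s)
    have a2 := Yx_add_selfB (Yx_D C hal u s)
    have a3 := Yx_add_selfB e
    generalize Yx_D C hal u s = v at *
    calc B s = B s + (v + v) + (e + e) := by rw [a2, a3, add_zero, add_zero]
      _ = (B s + v + e) + (v + e) := by abel
      _ = v + e := by rw [a1]; exact zero_add _
  have h3 : DB C e = 0 := by
    have a1 : Yx_D C hal B s0 = Yx_D C hal (Yx_D C hal u) s0 + Yx_D C hal (fun _ => e) s0 := by
      rw [← Yx_D_add]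
      congr 1
      funext s
      exact h2 s
    rw [hD, Yx_D_D, Yx_D_const] at a1
    have a2 : (0 : Bil P K) + DB C e = DB C e := zero_add _
    exact (a1.trans a2).symm
  obtain ⟨W, hW, h4⟩ := hE e he h3
  refine ⟨fun s => u s + W, Yx_add_eqY rho hal chi _ _ hu (Yx_const_eqY rho hal chi W hW), ?_⟩
  intro s
  change B s = Yx_D C hal (fun s => u s + W) s
  have a1 : Yx_D C hal (fun s => u s + W) s = Yx_D C hal u s +
      Yx_D C hal (fun _ => W) s := Yx_D_add C hal _ _ s
  rw [a1, Yx_D_const, ← h4]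
  exact h2 s

end Pool.Agent.helper81.PD
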