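import Pool.Agent.helper81.PD.Defs

/-! # PDS-Zx: families of forms modulo constant families are free over the involution -/

namespace Pool.Agent.helper81.PD

variable {G : Type} [Group G] {P : Type} [AddCommGroup P] [Module (ZMod 2) P]
  {K : Type} [Field K] [Algebra (ZMod 2) K]

theorem Zx_two (x : K) : x + x = 0 := by
  have h : (2 : K) = 0 := by
    have h1 : algebraMap (ZMod 2) K 2 = 0 := by
      have h2 : (2 : ZMod 2) = 0 := rfl
      rw [h2, map_zero]
    rwa [map_ofNat] at h1
  rw [← two_mul, h, zero_mul]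

omit [Algebra (ZMod 2) K] in
/-- an invariant function which vanishes on the points whose orbit is stable under the involution
is `U + sigma U` -/
theorem Zx_half {X : Type} (a : G → X → X) (h1 : ∀ x, a 1 x = x)
    (hm : ∀ g h x, a (g * h) x = a g (a h x)) (σ : X → X) (hσσ : ∀ x, σ (σ x) = x)
    (al : G → G) (hσa : ∀ g x, σ (a g x) = a (al g) (σ x)) (chi : G → K) (F : X → K)
    (hF : ∀ g x, F (a g x) = chi g * F x) (hFσ : ∀ x, F (σ x) = F x)
    (h0 : ∀ g x, a g x = σ x → F x = 0) :
    ∃ U : X → K, (∀ g x, U (a g x) = chi g * U x) ∧ ∀ x, U x + U (σ x) = F x := by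
  classical
  let O : X → Set X := fun x => Set.range fun g => a g x
  have hO : ∀ g x, O (a g x) = O x := by
    intro g x
    ext y
    constructor
    · rintro ⟨h, rfl⟩
      exact ⟨h * g, hm h g x⟩
    · rintro ⟨h, rfl⟩
      refine ⟨h * g⁻¹, ?_⟩
      change a (h * g⁻¹) (a g x) = a h x
      rw [← hm, inv_mul_cancel_right]
  have hOσ : ∀ g x, O (σ (a g x)) = O (σ x) := by
    intro g x
    rw [hσa, hO]
  refine ⟨fun x => if WellOrderingRel (O x) (O (σ x)) then F x else 0, ?_, ?_⟩
  · intro g x
    simp only [hO, hOσ, hF]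
    split_ifs
    · rfl
    · rw [mul_zero]
  · intro x
    simp only [hσσ]
    rcases trichotomous_of WellOrderingRel (O x) (O (σ x)) with h | h | h
    · rw [if_pos h, if_neg (asymm_of WellOrderingRel h), add_zero]
    · have hx : σ x ∈ O x := by
        rw [h]
        exact ⟨1, h1 _⟩
      obtain ⟨g, hg⟩ := hx
      have hF0 : F x = 0 := h0 g x hg
      rw [hFσ, hF0]
      simp
    · rw [if_neg (asymm_of WellOrderingRel h), if_pos h, zero_add, hFσ]

theorem Zx_al {al : G →* G} (s : S al) : al s.1 = s.1⁻¹ :=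
  (inv_eq_of_mul_eq_one_right s.2).symm

theorem Zx_chi {al : G →* G} {chi : G →* Kˣ} (hchi : ∀ g, chi (al g) = chi g) {g : G}
    (hg : g * al g = 1) : chi g = 1 := by
  have h : chi g * chi g = 1 := by
    have h1 := congrArg chi hg
    rwa [map_mul, hchi, map_one] at h1
  have h2 : ((chi g : K) - 1) * ((chi g : K) - 1) = 0 := by
    have h3 : (chi g : K) * (chi g : K) = 1 := by
      rw [← Units.val_mul, h, Units.val_one]
    have h4 : ((chi g : K) - 1) * ((chi g : K) - 1) =
        (chi g : K) * (chi g : K) + 1 - ((chi g : K) + (chi g : K)) := by ring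
    rw [h4, h3, Zx_two, Zx_two, sub_zero]
  have h5 := mul_self_eq_zero.mp h2
  exact Units.ext (by rw [Units.val_one]; exact sub_eq_zero.mp h5)

theorem Zx_actS_one {al : G →* G} (hal : ∀ g, al (al g) = g) (s : S al) : actS hal 1 s = s :=
  Subtype.ext (by simp [actS])

theorem Zx_actS_mul {al : G →* G} (hal : ∀ g, al (al g) = g) (g h : G) (s : S al) :
    actS hal (g * h) s = actS hal g (actS hal h s) :=
  Subtype.ext (by simp [actS, mul_assoc])

theorem Zx_swS_swS {al : G →* G} (hal : ∀ g, al (al g) = g) (s : S al) :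
    swS hal (swS hal s) = s :=
  Subtype.ext (by simp [swS, hal])

theorem Zx_swS_actS {al : G →* G} (hal : ∀ g, al (al g) = g) (g : G) (s : S al) :
    swS hal (actS hal g s) = actS hal (al g) (swS hal s) :=
  Subtype.ext (by simp [swS, actS, hal])

/-- pairs swapped by `g` -/
theorem Zx_self {T : Type} [MulAction G T] (hfree : ∀ (g : G) (t : T), g • t = t → g = 1)
    (al : G →* G) (hal : ∀ g, al (al g) = g) {g : G} {u v : T} (h1 : g • u = v)
    (h2 : al g • v = u) : g * al g = 1 := by
  have h3 : (al g * g) • u = u := by rw [mul_smul, h1, h2]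
  have h4 := congrArg al (hfree _ _ h3)
  rwa [map_mul, hal, map_one] at h4

/-- the statement for functions -/
theorem Zx_core {T : Type} [MulAction G T] (hfree : ∀ (g : G) (t : T), g • t = t → g = 1)
    (al : G →* G) (hal : ∀ g, al (al g) = g) (chi : G →* Kˣ) (hchi : ∀ g, chi (al g) = chi g)
    (ht : ∀ g : G, g * g = 1 → g = 1) (b : S al → T → T → K)
    (hb : ∀ g s u v, b (actS hal g s) (g • u) (al g • v) = (chi g : K) * b s u v)
    (k : T → T → K) (hk : ∀ s u v, b s u v + b (swS hal s) v u = k u v) :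
    ∃ (U : S al → T → T → K) (e : T → T → K),
      (∀ g s u v, U (actS hal g s) (g • u) (al g • v) = (chi g : K) * U s u v) ∧
      (∀ g u v, e (g • u) (al g • v) = (chi g : K) * e u v) ∧
      ∀ s u v, b s u v + U s u v + U (swS hal s) v u = e u v := by
  classical
  -- the second half of the equivariance
  have hb2 : ∀ g s u v, b (swS hal (actS hal g s)) (al g • v) (g • u) =
      (chi g : K) * b (swS hal s) v u := by
    intro g s u v
    have h := hb (al g) (swS hal s) v u
    rw [hal, hchi] at h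
    rw [Zx_swS_actS, h]
  let s1 : S al := ⟨1, by simp⟩
  have kEq : ∀ g u v, k (g • u) (al g • v) = (chi g : K) * k u v := by
    intro g u v
    rw [← hk (actS hal g s1) (g • u) (al g • v), hb, hb2, ← hk s1 u v, mul_add]
  have kSym : ∀ u v, k v u = k u v := by
    intro u v
    rw [← hk (swS hal s1) v u, Zx_swS_swS, ← hk s1 u v, add_comm]
  have k0 : ∀ g u v, g • u = v → al g • v = u → k u v = 0 := by
    intro g u v h1 h2
    have hg := Zx_self hfree al hal h1 h2
    have hal1 : al g = g⁻¹ := (inv_eq_of_mul_eq_one_right hg).symm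
    let s : S al := ⟨al g, by
      rw [hal, hal1, inv_mul_cancel]⟩
    have hs1 : actS hal g s = swS hal s := Subtype.ext (by
      change g * al g * (al g)⁻¹ = al (al g)
      rw [hal]
      group)
    have h3 := hb g s u v
    rw [h1, h2, hs1, Zx_chi hchi hg, Units.val_one, one_mul] at h3
    rw [← hk s u v, h3, Zx_two]
  obtain ⟨la0, hla1, hla2⟩ := Zx_half (G := G) (K := K) (X := T × T)
    (fun g x => (g • x.1, al g • x.2)) (fun x => by simp)
    (fun g h x => by simp [mul_smul]) Prod.swap (fun x => rfl) al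
    (fun g x => by simp [hal]) (fun g => (chi g : K)) (fun x => k x.1 x.2)
    (fun g x => kEq g x.1 x.2) (fun x => kSym x.1 x.2)
    (fun g x hx => by
      have hx1 : g • x.1 = x.2 := congrArg Prod.fst hx
      have hx2 : al g • x.2 = x.1 := congrArg Prod.snd hx
      exact k0 g x.1 x.2 hx1 hx2)
  let la : T → T → K := fun u v => la0 (u, v)
  have laEq : ∀ g u v, la (g • u) (al g • v) = (chi g : K) * la u v := fun g u v =>
    hla1 g (u, v)
  have laS : ∀ u v, la u v + la v u = k u v := fun u v => hla2 (u, v)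
  let B' : S al → T → T → K := fun s u v => b s u v + la u v
  have B'Eq : ∀ g s u v, B' (actS hal g s) (g • u) (al g • v) = (chi g : K) * B' s u v := by
    intro g s u v
    change b _ _ _ + la _ _ = _ * (b _ _ _ + la _ _)
    rw [hb, laEq, mul_add]
  have B'S : ∀ s u v, B' (swS hal s) v u = B' s u v := by
    intro s u v
    have h : B' s u v + B' (swS hal s) v u = 0 := by
      change b _ _ _ + la _ _ + (b _ _ _ + la _ _) = 0
      have e : b s u v + la u v + (b (swS hal s) v u + la v u) =
          (b s u v + b (swS hal s) v u) + (la u v + la v u) := by ring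
      rw [e, hk, laS, Zx_two]
    have h2 := Zx_two (B' s u v)
    have h3 : B' s u v + B' (swS hal s) v u = B' s u v + B' s u v := by rw [h, h2]
    exact add_left_cancel h3
  let e0 : T → T → K := fun u v =>
    if h : ∃ s : S al, u = s.1 • v then B' h.choose u v else 0
  have e0_pos : ∀ (s : S al) (u v : T), u = s.1 • v → e0 u v = B' s u v := by
    intro s u v h
    have hex : ∃ s : S al, u = s.1 • v := ⟨s, h⟩
    have h1 : e0 u v = B' hex.choose u v := dif_pos hex
    have h2 := hex.choose_spec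
    have h3 : hex.choose = s := by
      refine Subtype.ext ?_
      have h4 : (s.1⁻¹ * hex.choose.1) • v = v := by
        rw [mul_smul, ← h2, h, inv_smul_smul]
      have h5 := hfree _ _ h4
      exact (inv_mul_eq_one.mp h5).symm
    rw [h1, h3]
  have e0_neg : ∀ u v : T, (¬ ∃ s : S al, u = s.1 • v) → e0 u v = 0 := fun u v h => dif_neg h
  have e0_mv : ∀ (g : G) (s : S al) (u v : T), u = s.1 • v →
      g • u = (actS hal g s).1 • (al g • v) := by
    intro g s u v h
    change g • u = (g * s.1 * (al g)⁻¹) • (al g • v)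
    rw [h, mul_smul, inv_smul_smul, mul_smul]
  have e0Eq : ∀ g u v, e0 (g • u) (al g • v) = (chi g : K) * e0 u v := by
    intro g u v
    by_cases h : ∃ s : S al, u = s.1 • v
    · obtain ⟨s, hs⟩ := h
      rw [e0_pos s u v hs, e0_pos _ _ _ (e0_mv g s u v hs), B'Eq]
    · rw [e0_neg u v h, mul_zero]
      refine e0_neg _ _ fun h2 => h ?_
      obtain ⟨s, hs⟩ := h2
      refine ⟨actS hal g⁻¹ s, ?_⟩
      have h3 := e0_mv g⁻¹ s _ _ hs
      rwa [inv_smul_smul, map_inv, inv_smul_smul] at h3
  have e0S : ∀ u v, e0 v u = e0 u v := by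
    have key : ∀ (s : S al) (u v : T), u = s.1 • v → v = (swS hal s).1 • u := by
      intro s u v h
      change v = al s.1 • u
      rw [Zx_al, h, inv_smul_smul]
    intro u v
    by_cases h : ∃ s : S al, u = s.1 • v
    · obtain ⟨s, hs⟩ := h
      rw [e0_pos s u v hs, e0_pos _ _ _ (key s u v hs), B'S]
    · rw [e0_neg u v h]
      refine e0_neg _ _ fun h2 => h ?_
      obtain ⟨s, hs⟩ := h2
      exact ⟨_, key s v u hs⟩
  obtain ⟨U0, hU1, hU2⟩ := Zx_half (G := G) (K := K) (X := S al × T × T)
    (fun g x => (actS hal g x.1, g • x.2.1, al g • x.2.2))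
    (fun x => by simp [Zx_actS_one]) (fun g h x => by simp [mul_smul, Zx_actS_mul])
    (fun x => (swS hal x.1, x.2.2, x.2.1)) (fun x => by simp [Zx_swS_swS]) al
    (fun g x => by simp [hal, Zx_swS_actS]) (fun g => (chi g : K))
    (fun x => B' x.1 x.2.1 x.2.2 + e0 x.2.1 x.2.2)
    (fun g x => by
      have h1 := B'Eq g x.1 x.2.1 x.2.2
      have h2 := e0Eq g x.2.1 x.2.2
      change B' (actS hal g x.1) (g • x.2.1) (al g • x.2.2) + e0 (g • x.2.1) (al g • x.2.2) =
        (chi g : K) * (B' x.1 x.2.1 x.2.2 + e0 x.2.1 x.2.2)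
      exact (congrArg₂ (· + ·) h1 h2).trans (mul_add _ _ _).symm)
    (fun x => by
      have h1 := B'S x.1 x.2.1 x.2.2
      have h2 := e0S x.2.1 x.2.2
      exact congrArg₂ (· + ·) h1 h2)
    (fun g x hx => by
      obtain ⟨s, u, v⟩ := x
      have hx0 : actS hal g s = swS hal s := congrArg Prod.fst hx
      have hx1 : g • u = v := congrArg (fun y => y.2.1) hx
      have hx2 : al g • v = u := congrArg (fun y => y.2.2) hx
      have hg := Zx_self hfree al hal hx1 hx2
      have hal1 : al g = g⁻¹ := (inv_eq_of_mul_eq_one_right hg).symm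
      have h3 : g * s.1 * (al g)⁻¹ = al s.1 := congrArg Subtype.val hx0
      rw [hal1, inv_inv, Zx_al] at h3
      have h4 : (g * s.1) * (g * s.1) = 1 := by
        rw [← mul_assoc, h3, inv_mul_cancel]
      have h5 : s.1 = g⁻¹ := (inv_eq_of_mul_eq_one_right (ht _ h4)).symm
      have h6 : u = s.1 • v := by rw [h5, ← hx1, inv_smul_smul]
      change B' s u v + e0 u v = 0
      rw [e0_pos s u v h6, Zx_two])
  refine ⟨fun s u v => U0 (s, u, v), fun u v => la u v + e0 u v, ?_, ?_, ?_⟩
  · intro g s u v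
    exact hU1 g (s, u, v)
  · intro g u v
    change la _ _ + e0 _ _ = _ * (la _ _ + e0 _ _)
    rw [laEq, e0Eq, mul_add]
  · intro s u v
    have h : U0 (s, u, v) + U0 (swS hal s, v, u) = b s u v + la u v + e0 u v := hU2 (s, u, v)
    have h2 := Zx_two (b s u v)
    change b s u v + U0 (s, u, v) + U0 (swS hal s, v, u) = la u v + e0 u v
    calc b s u v + U0 (s, u, v) + U0 (swS hal s, v, u)
        = b s u v + (U0 (s, u, v) + U0 (swS hal s, v, u)) := by ring
      _ = (b s u v + b s u v) + (la u v + e0 u v) := by rw [h]; ring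
      _ = la u v + e0 u v := by rw [h2, zero_add]

/-- the bilinear form of a function on pairs -/
noncomputable def Zx_L {T : Type} (i : P →ₗ[ZMod 2] (T →₀ ZMod 2)) (h : T → T → K) : Bil P K :=
  (Finsupp.linearCombination (ZMod 2)
    (fun u => (Finsupp.linearCombination (ZMod 2) (fun v => h u v)) ∘ₗ i)) ∘ₗ i

theorem Zx_L_apply {T : Type} (i : P →ₗ[ZMod 2] (T →₀ ZMod 2)) (h : T → T → K) (x y : P) :
    Zx_L i h x y = (i x).sum fun u a => (i y).sum fun v c => a • c • h u v := by
  have h1 : Zx_L i h x y = (Finsupp.linearCombination (ZMod 2)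
      (fun u => (Finsupp.linearCombination (ZMod 2) (fun v => h u v)) ∘ₗ i) (i x)) y := rfl
  rw [h1, Finsupp.linearCombination_apply, Finsupp.sum, LinearMap.sum_apply, Finsupp.sum]
  refine Finset.sum_congr rfl fun u _ => ?_
  rw [LinearMap.smul_apply, LinearMap.comp_apply, Finsupp.linearCombination_apply, Finsupp.sum,
    Finset.smul_sum, Finsupp.sum]

theorem Zx_L_flip {T : Type} (i : P →ₗ[ZMod 2] (T →₀ ZMod 2)) (h : T → T → K) :
    (Zx_L i h).flip = Zx_L i (fun u v => h v u) := by
  refine LinearMap.ext fun x => LinearMap.ext fun y => ?_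
  rw [LinearMap.flip_apply, Zx_L_apply, Zx_L_apply, Finsupp.sum, Finsupp.sum]
  simp only [Finsupp.sum]
  rw [Finset.sum_comm]
  refine Finset.sum_congr rfl fun u _ => Finset.sum_congr rfl fun v _ => ?_
  rw [smul_comm]

theorem Zx_L_add {T : Type} (i : P →ₗ[ZMod 2] (T →₀ ZMod 2)) (h h' : T → T → K) :
    Zx_L i h + Zx_L i h' = Zx_L i (fun u v => h u v + h' u v) := by
  refine LinearMap.ext fun x => LinearMap.ext fun y => ?_
  rw [LinearMap.add_apply, LinearMap.add_apply, Zx_L_apply, Zx_L_apply, Zx_L_apply]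
  simp only [Finsupp.sum, smul_add, Finset.sum_add_distrib]

theorem Zx_L_eq {T : Type} (i : P →ₗ[ZMod 2] (T →₀ ZMod 2))
    (r : (T →₀ ZMod 2) →ₗ[ZMod 2] P) (hri : ∀ x, r (i x) = x) (B : Bil P K) :
    Zx_L i (fun u v => B (r (Finsupp.single u 1)) (r (Finsupp.single v 1))) = B := by
  have hx : ∀ x : P, x = ∑ u ∈ (i x).support, (i x) u • r (Finsupp.single u 1) := by
    intro x
    have h1 : i x = ∑ u ∈ (i x).support, (i x) u • Finsupp.single u (1 : ZMod 2) := by
      conv_lhs => rw [← Finsupp.sum_single (i x)]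
      rw [Finsupp.sum]
      refine Finset.sum_congr rfl fun u _ => ?_
      rw [Finsupp.smul_single, smul_eq_mul, mul_one]
    have h2 := congrArg r h1
    rw [hri, map_sum] at h2
    refine h2.trans (Finset.sum_congr rfl fun u _ => ?_)
    rw [map_smul]
  refine LinearMap.ext fun x => LinearMap.ext fun y => ?_
  rw [Zx_L_apply]
  have h3 : B x y = (∑ u ∈ (i x).support, (i x) u • B (r (Finsupp.single u 1))) y := by
    have h4 := congrArg B (hx x)
    rw [map_sum] at h4
    rw [h4]
    simp only [map_smul]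
  rw [h3, LinearMap.sum_apply, Finsupp.sum]
  refine Finset.sum_congr rfl fun u _ => ?_
  have h5 : B (r (Finsupp.single u 1)) y =
      ∑ v ∈ (i y).support, (i y) v • B (r (Finsupp.single u 1)) (r (Finsupp.single v 1)) := by
    have h4 := congrArg (B (r (Finsupp.single u 1))) (hx y)
    rw [map_sum] at h4
    rw [h4]
    simp only [map_smul]
  rw [LinearMap.smul_apply, h5, Finset.smul_sum, Finsupp.sum]

theorem Zx_L_equiv {T : Type} [MulAction G T] (rho : G →* Module.End (ZMod 2) P)
    (i : P →ₗ[ZMod 2] (T →₀ ZMod 2))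
    (hi : ∀ g x, i (rho g x) = Finsupp.mapDomain (fun t => g • t) (i x))
    (h h' : T → T → K) (g g' : G) (c : K) (hh : ∀ u v, h' (g • u) (g' • v) = c * h u v)
    (x y : P) : Zx_L i h' (rho g x) (rho g' y) = c * Zx_L i h x y := by
  have inj : ∀ g : G, Function.Injective (fun t : T => g • t) := fun g =>
    MulAction.injective g
  rw [Zx_L_apply, Zx_L_apply, hi, hi, Finsupp.sum_mapDomain_index_inj (inj g)]
  simp only [Finsupp.sum_mapDomain_index_inj (inj g')]
  simp only [Finsupp.sum, Finset.mul_sum]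
  refine Finset.sum_congr rfl fun u _ => Finset.sum_congr rfl fun v _ => ?_
  rw [hh, mul_smul_comm, mul_smul_comm]

theorem Z_exact (rho : G →* Module.End (ZMod 2) P) (hpl : PL rho) (al : G →* G)
    (hal : ∀ g, al (al g) = g) (chi : G →* Kˣ) (hchi : ∀ g, chi (al g) = chi g)
    (ht : ∀ g : G, g * g = 1 → g = 1) (B : S al → Bil P K) (hB : EqY rho hal chi B)
    (k : Bil P K) (hk : ∀ s, B s + (B (swS hal s)).flip = k) :
    ∃ U : S al → Bil P K, EqY rho hal chi U ∧ ∃ e : Bil P K, EqB rho al chi e ∧
      ∀ s, B s + U s + (U (swS hal s)).flip = e := by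
  obtain ⟨T, inst, hfree, i, r, hi, hr, hri⟩ := hpl
  have hr1 : ∀ (g : G) (u : T), r (Finsupp.single (g • u) 1) = rho g (r (Finsupp.single u 1)) := by
    intro g u
    rw [← hr, Finsupp.mapDomain_single]
  obtain ⟨U, e, hU, he, hUe⟩ := Zx_core (T := T) hfree al hal chi hchi ht
    (fun s u v => B s (r (Finsupp.single u 1)) (r (Finsupp.single v 1)))
    (fun g s u v => by
      rw [hr1, hr1]
      exact hB g s _ _)
    (fun u v => k (r (Finsupp.single u 1)) (r (Finsupp.single v 1)))
    (fun s u v => by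
      rw [← hk s]
      rfl)
  refine ⟨fun s => Zx_L i (U s), ?_, Zx_L i e, ?_, ?_⟩
  · intro g s x y
    exact Zx_L_equiv rho i hi (U s) (U (actS hal g s)) g (al g) _ (hU g s) x y
  · intro g x y
    exact Zx_L_equiv rho i hi e e g (al g) _ (he g) x y
  · intro s
    rw [← Zx_L_eq i r hri (B s), Zx_L_flip, Zx_L_add, Zx_L_add]
    congr 1
    funext u v
    exact hUe s u v

end Pool.Agent.helper81.PD
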