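import Pool.Agent.helper81.PD.RowE
import Pool.Agent.helper81.PD.RowD
import Pool.Agent.helper81.PD.Zx
import Pool.Agent.helper81.PD.Yx
import Pool.Agent.helper81.PD.Y0
import Pool.Agent.helper81.PD.T2
import Pool.Agent.helper81.PD.T3

/-! # PDS-Smith: Smith theory -/

namespace Pool.Agent.helper81.PD

variable {G : Type} [Group G] {P : Type} [AddCommGroup P] [Module (ZMod 2) P]
  {K : Type} [Field K] [Algebra (ZMod 2) K]

/-- restriction to a subgroup -/
theorem Act.res {C : Cx P} {rho : G →* Module.End (ZMod 2) P} (hA : Act C rho) (H : Subgroup G) :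
    Act C (rho.comp H.subtype) := by
  refine ⟨fun g x => hA.del _ x, fun g x => hA.eps _ x, fun q g x => hA.pi q _ x, ?_⟩
  obtain ⟨T, hT, hfree, i, r, h1, h2, h3⟩ := hA.pl
  exact ⟨T, inferInstance, fun g t h => Subtype.ext (hfree g t h), i, r,
    fun g x => h1 _ x, fun g y => h2 _ y, h3⟩

theorem smith (C : Cx P) (rho : G →* Module.End (ZMod 2) P) (hA : Act C rho) (al : G →* G)
    (hal : ∀ g, al (al g) = g) (chi : G →* Kˣ) (hchi : ∀ g, chi (al g) = chi g)
    (ht : ∀ g : G, g * g = 1 → g = 1) (hE : Ex C rho chi)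
    (H : Subgroup G) (hH : ∀ g, g ∈ H ↔ al g = g) :
    Ex C (rho.comp H.subtype) (chi.comp H.subtype) := by
  have h0 := fun B : Bil P K => Y0_exact C rho hA al hal chi hchi
    (Y_exact C rho hA al hal chi
      (E_D_exact C rho hA al hal chi hchi (E_d_exact C rho hA al chi hE))
      (Z_exact rho hA.pl al hal chi hchi ht)) H hH B
  refine Ex_of_T_exact C _ (hA.res H) _ (T_exact C _ (hA.res H) _ ?_)
  intro B hB hD
  obtain ⟨U, hU, hBU⟩ := h0 B (fun g hg x y => hB ⟨g, hg⟩ x y) hD
  exact ⟨U, fun g x y => hU g g.2 x y, hBU⟩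

end Pool.Agent.helper81.PD
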