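import Mathlib

/-!
# Project PDS (MP_64196d_al): Poincaré duality groups of dimension 3

`FPRes G`: a finite resolution of the trivial module `ℤ` by finitely generated projective
`ℤ[G]`-modules. `IsPD3 G`: `G` is a Poincaré duality group of dimension 3.
-/

namespace Pool.Agent.helper81.PD

/-- a finite resolution `0 → P n → ... → P 1 → P 0 → ℤ → 0` of the trivial module `ℤ` by finitely
generated projective `ℤ[G]`-modules; `eps` is the augmentation `P 0 → ℤ` -/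
structure FPRes (G : Type) [Group G] where
  P : ℕ → Type
  [acg : ∀ i, AddCommGroup (P i)]
  [mod : ∀ i, Module (MonoidAlgebra ℤ G) (P i)]
  fin : ∀ i, Module.Finite (MonoidAlgebra ℤ G) (P i)
  proj : ∀ i, Module.Projective (MonoidAlgebra ℤ G) (P i)
  bdd : ∃ n, ∀ i, n ≤ i → Subsingleton (P i)
  d : ∀ i, P (i + 1) →ₗ[MonoidAlgebra ℤ G] P i
  eps : P 0 →+ ℤ
  eps_smul : ∀ (g : G) (x : P 0), eps (MonoidAlgebra.of ℤ G g • x) = eps x
  eps_surj : Function.Surjective eps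
  exact_zero : ∀ x : P 0, eps x = 0 ↔ ∃ y, d 0 y = x
  exact_succ : ∀ (i : ℕ) (x : P (i + 1)), d i x = 0 ↔ ∃ y, d (i + 1) y = x

attribute [instance] FPRes.acg FPRes.mod

/-- the cochains `Hom_{ℤ[G]}(P i, ℤ[G])` -/
abbrev Coch {G : Type} [Group G] (R : FPRes G) (i : ℕ) : Type :=
  R.P i →ₗ[MonoidAlgebra ℤ G] MonoidAlgebra ℤ G

/-- the coboundary `Hom_{ℤ[G]}(P i, ℤ[G]) → Hom_{ℤ[G]}(P (i + 1), ℤ[G])` -/
noncomputable def cob {G : Type} [Group G] (R : FPRes G) (i : ℕ) :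
    Coch R i →+ Coch R (i + 1) where
  toFun f := f.comp (R.d i)
  map_zero' := LinearMap.zero_comp _
  map_add' _ _ := LinearMap.add_comp _ _ _

/-- `H^i(G; ℤ[G]) = 0` for `i ≠ 3` and `H^3(G; ℤ[G]) ≅ ℤ` as abelian groups, where the cohomology
is computed with the resolution `R` -/
def Dual3 {G : Type} [Group G] (R : FPRes G) : Prop :=
  (∀ f : Coch R 0, cob R 0 f = 0 → f = 0) ∧
  (∀ i : ℕ, i + 1 ≠ 3 → ∀ f : Coch R (i + 1), cob R (i + 1) f = 0 → ∃ g, cob R i g = f) ∧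
  Nonempty (((cob R 3).ker ⧸ ((cob R 2).range.addSubgroupOf (cob R 3).ker)) ≃+ ℤ)

/-- Poincaré duality groups of dimension 3: groups of type `FP` over `ℤ` with
`H^i(G; ℤ[G]) = 0` for `i ≠ 3` and `H^3(G; ℤ[G]) ≅ ℤ` as abelian groups -/
def IsPD3 (G : Type) [Group G] : Prop := ∃ R : FPRes G, Dual3 R

end Pool.Agent.helper81.PD
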