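import Pool.Agent.helper81.PD.Smith

/-! # PDS-TwoGrp: finite 2-groups -/

namespace Pool.Agent.helper81.PD

variable {N : Type} [Group N] {P : Type} [AddCommGroup P] [Module (ZMod 2) P]
  {K : Type} [Field K] [Algebra (ZMod 2) K]

/-- the fixed subgroup of a set of automorphisms -/
def TwoGrp_fix {F : Type} [Group F] [MulDistribMulAction F N] (V : Subgroup F) : Subgroup N where
  carrier := {x | ∀ v ∈ V, v • x = x}
  mul_mem' := by
    intro x y hx hy v hv
    rw [smul_mul', hx v hv, hy v hv]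
  one_mem' := fun v _ => smul_one v
  inv_mem' := by
    intro x hx v hv
    rw [smul_inv', hx v hv]

theorem TwoGrp_mem_fix {F : Type} [Group F] [MulDistribMulAction F N] (V : Subgroup F) (x : N) :
    x ∈ TwoGrp_fix (N := N) V ↔ ∀ v ∈ V, v • x = x := Iff.rfl

/-- transfer of exactness between two subgroups, the second seen inside a third -/
theorem TwoGrp_transfer (C : Cx P) (rho : N →* Module.End (ZMod 2) P) (chi : N →* Kˣ)
    (H H' : Subgroup N) (hle : H ≤ H')
    (hE : Ex C ((rho.comp H'.subtype).comp (H.subgroupOf H').subtype)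
      ((chi.comp H'.subtype).comp (H.subgroupOf H').subtype)) :
    Ex C (rho.comp H.subtype) (chi.comp H.subtype) := by
  intro c hc hd
  obtain ⟨b, hb, hcb⟩ := hE c (fun g x => hc ⟨g.1.1, g.2⟩ x) hd
  exact ⟨b, fun g x => hb ⟨⟨g.1, hle g.2⟩, g.2⟩ x, hcb⟩

/-- the step of the induction -/
theorem TwoGrp_step {F : Type} [Group F] [MulDistribMulAction F N] (V V' : Subgroup F)
    (hle : V' ≤ V) (v : F) (hv : v ∈ V) (hcon : ∀ w ∈ V', v⁻¹ * w * v ∈ V') (hvv : v * v ∈ V')
    (hcos : ∀ u ∈ V, u ∈ V' ∨ v⁻¹ * u ∈ V')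
    (C : Cx P) (rho : N →* Module.End (ZMod 2) P) (hA : Act C rho)
    (chi : N →* Kˣ) (hchi : ∀ x : N, chi (v • x) = chi x)
    (ht : ∀ g : N, g * g = 1 → g = 1)
    (hE : Ex C (rho.comp (TwoGrp_fix (N := N) V').subtype)
      (chi.comp (TwoGrp_fix (N := N) V').subtype))
    (H : Subgroup N) (hH : ∀ x : N, x ∈ H ↔ ∀ v ∈ V, v • x = x) :
    Ex C (rho.comp H.subtype) (chi.comp H.subtype) := by
  have hmem : ∀ x ∈ TwoGrp_fix (N := N) V', v • x ∈ TwoGrp_fix (N := N) V' := by
    intro x hx w hw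
    have h1 : (v⁻¹ * w * v) • x = x := hx _ (hcon w hw)
    rw [← mul_smul]
    have h2 : w * v = v * (v⁻¹ * w * v) := by group
    rw [h2, mul_smul, h1]
  have hHle : H ≤ TwoGrp_fix (N := N) V' := fun x hx w hw => (hH x).1 hx w (hle hw)
  refine TwoGrp_transfer C rho chi H (TwoGrp_fix (N := N) V') hHle ?_
  let al : TwoGrp_fix (N := N) V' →* TwoGrp_fix (N := N) V' :=
    { toFun := fun x => ⟨v • x.1, hmem x.1 x.2⟩
      map_one' := Subtype.ext (smul_one v)
      map_mul' := fun x y => Subtype.ext (smul_mul' v x.1 y.1) }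
  have hal1 : ∀ x, (al x).1 = v • x.1 := fun x => rfl
  refine smith C (rho.comp (TwoGrp_fix (N := N) V').subtype) (hA.res _) al ?_
    (chi.comp (TwoGrp_fix (N := N) V').subtype) ?_ ?_ hE _ ?_
  · intro g
    apply Subtype.ext
    rw [hal1, hal1, ← mul_smul]
    exact g.2 _ hvv
  · intro g
    exact hchi g.1
  · intro g hg
    apply Subtype.ext
    exact ht g.1 (congrArg Subtype.val hg)
  · intro g
    rw [Subgroup.mem_subgroupOf, hH]
    constructor
    · intro h
      exact Subtype.ext (h v hv)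
    · intro h u hu
      have h1 : v • g.1 = g.1 := congrArg Subtype.val h
      rcases hcos u hu with h2 | h2
      · exact g.2 u h2
      · have h3 : (v⁻¹ * u) • g.1 = g.1 := g.2 _ h2
        have h4 : u = v * (v⁻¹ * u) := by group
        rw [h4, mul_smul, h3, h1]

theorem TwoGrp_ind {F : Type} [Group F] [MulDistribMulAction F N]
    (C : Cx P) (rho : N →* Module.End (ZMod 2) P) (hA : Act C rho)
    (chi : N →* Kˣ) (ht : ∀ g : N, g * g = 1 → g = 1) (hE : Ex C rho chi) (n : ℕ) :
    ∀ (V : Subgroup F), Nat.card V = 2 ^ n → (∀ v ∈ V, ∀ x : N, chi (v • x) = chi x) →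
      ∀ (H : Subgroup N), (∀ x : N, x ∈ H ↔ ∀ v ∈ V, v • x = x) →
      Ex C (rho.comp H.subtype) (chi.comp H.subtype) := by
  induction n with
  | zero =>
    intro V hc hchi H hH c hc2 hd
    have hbot : V = ⊥ := Subgroup.eq_bot_of_card_eq V (by simpa using hc)
    have htop : ∀ x : N, x ∈ H := by
      intro x
      rw [hH]
      intro v hv
      rw [hbot, Subgroup.mem_bot] at hv
      rw [hv, one_smul]
    obtain ⟨b, hb, hcb⟩ := hE c (fun g x => hc2 ⟨g, htop g⟩ x) hd
    exact ⟨b, fun g x => hb g.1 x, hcb⟩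
  | succ n ih =>
    intro V hc hchi H hH
    have : Finite V := Nat.finite_of_card_ne_zero (by rw [hc]; positivity)
    have : Fact (Nat.Prime 2) := ⟨Nat.prime_two⟩
    obtain ⟨W, hW⟩ := Sylow.exists_subgroup_card_pow_prime (G := V) 2 (n := n)
      (by rw [hc]; exact pow_dvd_pow 2 (Nat.le_succ n))
    have hidx : W.index = 2 := by
      have h1 := W.card_mul_index
      rw [hW, hc, pow_succ] at h1
      exact Nat.eq_of_mul_eq_mul_left (by positivity) h1
    have hex : ∃ v : V, v ∉ W := by
      by_contra h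
      push Not at h
      have h2 : W = ⊤ := by
        rw [Subgroup.eq_top_iff']
        exact h
      rw [h2, Subgroup.index_top] at hidx
      norm_num at hidx
    obtain ⟨v, hvW⟩ := hex
    have hmap : ∀ u : V, (u : F) ∈ W.map V.subtype ↔ u ∈ W := by
      intro u
      constructor
      · rintro ⟨w, hw, hwu⟩
        have h3 : w = u := Subtype.ext hwu
        rw [← h3]
        exact hw
      · intro h
        exact ⟨u, h, rfl⟩
    have hle : W.map V.subtype ≤ V := by
      rintro _ ⟨w, -, rfl⟩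
      exact w.2
    have hcard : Nat.card (W.map V.subtype) = 2 ^ n := by
      rw [← hW]
      exact (Nat.card_congr (W.equivMapOfInjective V.subtype V.subtype_injective).toEquiv).symm
    refine TwoGrp_step V (W.map V.subtype) hle v v.2 ?_ ?_ ?_ C rho hA chi
      (fun x => hchi v v.2 x) ht
      (ih (W.map V.subtype) hcard (fun u hu x => hchi u (hle hu) x) _ (fun x => Iff.rfl)) H hH
    · intro w hw
      obtain ⟨u, hu, rfl⟩ := hw
      have : W.Normal := Subgroup.normal_of_index_eq_two hidx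
      have h4 := this.conj_mem u hu v⁻¹
      rw [inv_inv] at h4
      exact ⟨_, h4, rfl⟩
    · have h5 : v * v ∈ W := by
        rw [Subgroup.mul_mem_iff_of_index_two hidx]
      exact ⟨_, h5, rfl⟩
    · intro u hu
      by_cases h6 : (⟨u, hu⟩ : V) ∈ W
      · left
        exact ⟨_, h6, rfl⟩
      · right
        have h7 : v⁻¹ * (⟨u, hu⟩ : V) ∈ W := by
          rw [Subgroup.mul_mem_iff_of_index_two hidx]
          constructor
          · intro h8
            exact absurd (W.inv_mem_iff.1 h8) hvW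
          · intro h8
            exact absurd h8 h6
        exact ⟨_, h7, rfl⟩

theorem two_group {F : Type} [Group F] [MulDistribMulAction F N] (V : Subgroup F) [Finite V]
    (hV : IsPGroup 2 V) (C : Cx P) (rho : N →* Module.End (ZMod 2) P) (hA : Act C rho)
    (chi : N →* Kˣ) (hchi : ∀ v ∈ V, ∀ x : N, chi (v • x) = chi x)
    (ht : ∀ g : N, g * g = 1 → g = 1) (hE : Ex C rho chi)
    (H : Subgroup N) (hH : ∀ x : N, x ∈ H ↔ ∀ v ∈ V, v • x = x) :
    Ex C (rho.comp H.subtype) (chi.comp H.subtype) := by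
  have : Fact (Nat.Prime 2) := ⟨Nat.prime_two⟩
  obtain ⟨n, hn⟩ := (IsPGroup.iff_card (p := 2)).1 hV
  exact TwoGrp_ind C rho hA chi ht hE n V hn hchi H hH

end Pool.Agent.helper81.PD
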